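import Pool.Agent.H48.PD.Defs

/-!
# Module Trn: translations in `x`, restriction, regularity after a positive time

`trn_sol`: `F(t,x,v) = f(t,x+z,v)` is the composition of `unc f` with the affine map `(t,x,v) ↦ (t,x+z,v)` (a translation by `(0,z,0)`): continuity, `C²`, `fderiv (unc F) (t,x,v) = fderiv (unc f) (t,x+z,v)` (`fderiv_comp_add_right`), also for the second
derivative, so `derivs12` and `transport` are translated; `sol_shift` in H48/PI/Shift.lean is the model (translation in `t`).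
`reg_trn`: immediate. `reg_shift`: for `0 < t₁ < T`: `hf.decay12 t₁` bounds `derivs12 f ≥ ‖fderiv (unc f)‖ ≥ ‖fderiv (f t x)‖` (`slice_fderiv`, `norm_iv_le`, Slice.lean) on `[t₁, T₁]`.
-/

set_option autoImplicit false

open MeasureTheory Set Filter Topology Pool.Agent.H25.Kin Pool.Agent.H48.PL

namespace Pool.Agent.H48.PD

variable {d : ℕ} {γ T : ℝ} {b : ℝ → ℝ} {Q f : ℝ → Vec d → Vec d → ℝ}

private lemma trn_unc (f : ℝ → Vec d → Vec d → ℝ) (z : Vec d) :
    unc (fun t x v => f t (x + z) v) = fun p => unc f (p + ((0 : ℝ), z, (0 : Vec d))) := by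
  funext p
  simp [unc]

private lemma trn_fderiv (f : ℝ → Vec d → Vec d → ℝ) (z : Vec d) :
    fderiv ℝ (unc (fun t x v => f t (x + z) v)) =
      fun p => fderiv ℝ (unc f) (p + ((0 : ℝ), z, (0 : Vec d))) := by
  funext p
  rw [trn_unc, fderiv_comp_add_right]

private lemma trn_derivs12 (f : ℝ → Vec d → Vec d → ℝ) (z : Vec d) (t : ℝ) (x v : Vec d) :
    derivs12 (fun t x v => f t (x + z) v) t x v = derivs12 f t (x + z) v := by
  unfold derivs12 derivs
  rw [trn_fderiv]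
  rw [fderiv_comp_add_right]
  simp

theorem trn_sol (hf : IsClassicalSol T Q f) (z : Vec d) :
    IsClassicalSol T (fun t x v => Q t (x + z) v) (fun t x v => f t (x + z) v) where
  nonneg t ht x v := hf.nonneg t ht (x + z) v
  periodic t ht x v i := by
    have h := hf.periodic t ht (x + z) v i
    show f t (x + Pi.single i 1 + z) v = f t (x + z) v
    rw [add_right_comm]
    exact h
  isCont := by
    unfold ContOn
    rw [trn_unc]
    refine hf.isCont.comp (Continuous.continuousOn (by fun_prop)) ?_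
    rintro ⟨t, x, v⟩ ⟨ht, -⟩
    refine ⟨?_, trivial⟩
    show t + 0 ∈ Ico 0 T
    rw [add_zero]
    exact ht
  isC2 := by
    unfold C2On
    rw [trn_unc]
    refine hf.isC2.comp (ContDiff.contDiffOn (by fun_prop)) ?_
    rintro ⟨t, x, v⟩ ⟨ht, -⟩
    refine ⟨?_, trivial⟩
    show t + 0 ∈ Ioo 0 T
    rw [add_zero]
    exact ht
  decay T₁ hT₁ N := by
    obtain ⟨C, hC⟩ := hf.decay T₁ hT₁ N
    exact ⟨C, fun t ht x v => hC t ht (x + z) v⟩
  decay12 T₀ hT₀ T₁ hT₁ N := by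
    obtain ⟨C, hC⟩ := hf.decay12 T₀ hT₀ T₁ hT₁ N
    refine ⟨C, fun t ht x v => ?_⟩
    rw [trn_derivs12]
    exact hC t ht (x + z) v
  solves t ht x v := by
    have h := hf.solves t ht (x + z) v
    unfold transport at h ⊢
    rw [trn_fderiv]
    simpa using h

theorem trn_boltz (hf : IsBoltzmannSol γ b T f) (z : Vec d) :
    IsBoltzmannSol γ b T (fun t x v => f t (x + z) v) := trn_sol hf z

theorem reg_trn (hr : RegZero T f) (z : Vec d) : RegZero T (fun t x v => f t (x + z) v) := by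
  intro T₁ h1 N
  obtain ⟨K, hK⟩ := hr T₁ h1 N
  exact ⟨K, fun t ht x v => hK t ht (x + z) v⟩

theorem reg_shift (hf : IsClassicalSol T Q f) {t₁ : ℝ} (h0 : 0 < t₁) (h1 : t₁ < T) :
    RegZero (T - t₁) (fun t x v => f (t₁ + t) x v) := by
  intro T₁ hT₁ N
  obtain ⟨C, hC⟩ := hf.decay12 t₁ h0 (t₁ + T₁) (by linarith) N
  refine ⟨C, fun t ht x v => ?_⟩
  have e1 : t₁ + t ∈ Ioo 0 T := ⟨by linarith [ht.1], by linarith [ht.2]⟩
  have e2 : t₁ + t ∈ Icc t₁ (t₁ + T₁) := ⟨by linarith [ht.1], by linarith [ht.2]⟩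
  have e3 := hC (t₁ + t) e2 x v
  have e4 : ‖fderiv ℝ (f (t₁ + t) x) v‖ ≤ derivs12 f (t₁ + t) x v := by
    rw [hf.slice_fderiv e1 x v]
    unfold derivs12 derivs
    have e5 := ContinuousLinearMap.opNorm_comp_le (fderiv ℝ (unc f) (t₁ + t, x, v)) (iv d)
    have e6 : ‖fderiv ℝ (unc f) (t₁ + t, x, v)‖ * ‖iv d‖
        ≤ ‖fderiv ℝ (unc f) (t₁ + t, x, v)‖ * 1 :=
      mul_le_mul_of_nonneg_left norm_iv_le (norm_nonneg _)
    have e7 := norm_nonneg (fderiv ℝ (fderiv ℝ (unc f)) (t₁ + t, x, v))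
    linarith
  calc (1 + ‖v‖) ^ N * ‖fderiv ℝ (f (t₁ + t) x) v‖
      ≤ (1 + ‖v‖) ^ N * derivs12 f (t₁ + t) x v :=
        mul_le_mul_of_nonneg_left e4 (by positivity)
    _ ≤ C := e3

end Pool.Agent.H48.PD
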