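import Pool.Agent.H48.PD.Zet

/-!
# Module Itg: integrability and symmetries of `kerB * P`

`DB_int`: `int_piece` (BWeak) with `K = 0`, `Φ = 1`, `A` from `hB (d + 1 + (d + 5))`. `DB_mul`: `pw_mul`. `DB_pair`: `prod_le'`-type bound, `RD.bound`, `(1+‖v‖)^N (1+‖w‖)^N`.
`DB_near`: on `cosTh ≥ 0`: `nsq (v - w) ≤ 2 nsq (v - w')` (as `CanB_nsq` of H87/PE/CanB with the roles exchanged: `v - w' = (1/2)(v - w) + (len/2) σ`), hence `(1+‖v‖)(1+‖w‖) ≤ (2d+1)((1+‖v‖)(1+‖w'‖))²`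
and `CanB_dec`; where `cosTh < 0`, `Zn = 0`. `PB_pt*`: `pg_post_le` (BWeak). `coll_int`, `exch_int`: `integral_comp_mp`, `coll_preserving`, `exch_preserving`, `kerB_post` (see `coll_sw`, `exch_sw` in H87/PE/Sym).
`fub_le`: `kerB * (P X) ≥ 0` a.e.; `integral_eq_lintegral_of_nonneg_ae`, `lintegral_prod` (twice, `mu3 = volume × (volume × surf)`), the bound of the inner integral for `v ≠ w` (a.e.), and back.
`mom_le`: `f jb^k ≤ C (1+‖v‖)^(-(d+1))`.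
-/

set_option autoImplicit false

open MeasureTheory Set Filter Topology Pool.Agent.H25.Kin Pool.Agent.H48.PL Pool.Agent.H87.PE
open scoped ENNReal

namespace Pool.Agent.H48.PD

variable {d : ℕ} {γ s C Ca : ℝ} {b : ℝ → ℝ}

/-- rapidly decaying functions of a collision -/
def DB (P : Vec d × Vec d × Vec d → ℝ) : Prop := ∀ N : ℕ, ∃ A : ℝ, 0 ≤ A ∧
  ∀ v w σ : Vec d, nsq σ = 1 → |P (v, w, σ)| ≤ A * pw N v w

/-! ### Decay for `cos θ ≥ 0` -/

private theorem Itg_nsq {v w σ : Vec d} (hσ : nsq σ = 1) (hc : 0 ≤ cosTh v w σ) :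
    nsq (v - w) ≤ 2 * nsq (post v w σ - w) := by
  have e : post v w σ - w = (1 / 2 : ℝ) • (v - w) + (len (v - w) / 2) • σ := by
    unfold post
    ext i
    simp
    ring
  have h1 : 0 ≤ len (v - w) * dot (v - w) σ := by
    rcases eq_or_ne (len (v - w)) 0 with h | h
    · rw [h, zero_mul]
    · have hl := len_nonneg (v - w)
      have h2 : 0 < len (v - w) := lt_of_le_of_ne hl (Ne.symm h)
      unfold cosTh at hc
      have h3 : 0 ≤ dot σ (v - w) := by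
        by_contra h4
        push Not at h4
        have := div_neg_of_neg_of_pos h4 h2
        linarith
      rw [dot_comm]
      exact mul_nonneg hl h3
  have h2 := len_sq (v - w)
  rw [e, nsq_add, nsq_smul, nsq_smul, smul_dot, dot_smul, hσ]
  nlinarith

private theorem Itg_w (v w σ : Vec d) (hσ : nsq σ = 1) (hc : 0 ≤ cosTh v w σ) :
    (1 + ‖v‖) * (1 + ‖w‖) ≤ (2 * d + 1) * ((1 + ‖w‖) * (1 + ‖post v w σ‖)) ^ 2 := by
  have h1 := Itg_nsq hσ hc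
  have h2 := norm_le_len (v - w)
  have h3 := sq_le (post v w σ - w)
  have h4 := len_sq (v - w)
  have hd : (0 : ℝ) ≤ d := Nat.cast_nonneg d
  have n1 := norm_nonneg (post v w σ - w)
  have n2 := norm_sub_le (post v w σ) w
  have n3 : ‖v‖ ≤ ‖v - w‖ + ‖w‖ := by
    have := norm_add_le (v - w) w
    rwa [sub_add_cancel] at this
  have n4 := norm_nonneg (v - w)
  have nw := norm_nonneg w
  have np := norm_nonneg (post v w σ)
  have h5 : ‖v - w‖ ^ 2 ≤ 2 * d * ‖post v w σ - w‖ ^ 2 := by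
    have : ‖v - w‖ ^ 2 ≤ len (v - w) ^ 2 := pow_le_pow_left₀ n4 h2 2
    nlinarith
  rcases Nat.eq_zero_or_pos d with h0 | h0
  · subst h0
    have e1 : ‖v‖ = 0 := by
      rw [norm_eq_zero]; exact Subsingleton.elim _ _
    have e2 : ‖w‖ = 0 := by
      rw [norm_eq_zero]; exact Subsingleton.elim _ _
    rw [e1, e2]
    simp only [Nat.cast_zero, mul_zero, zero_add, one_mul, add_zero]
    nlinarith
  · have hd1 : (1 : ℝ) ≤ d := by exact_mod_cast h0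
    have h6 : ‖v - w‖ ≤ 2 * d * ‖post v w σ - w‖ := by
      have e : (2 * (d : ℝ) * ‖post v w σ - w‖) ^ 2 = 2 * d * (2 * d) * ‖post v w σ - w‖ ^ 2 := by
        ring
      have h7 : 2 * (d : ℝ) * ‖post v w σ - w‖ ^ 2 ≤ 2 * d * (2 * d) * ‖post v w σ - w‖ ^ 2 := by
        have : (2 : ℝ) * d ≤ 2 * d * (2 * d) := by nlinarith
        exact mul_le_mul_of_nonneg_right this (sq_nonneg _)
      exact (pow_le_pow_iff_left₀ n4 (by positivity) (by norm_num : (2 : ℕ) ≠ 0)).1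
        (by rw [e]; linarith)
    have h8 : 1 + ‖v‖ ≤ (2 * d + 1) * ((1 + ‖w‖) * (1 + ‖post v w σ‖)) := by
      have h9 : 2 * (d : ℝ) * ‖post v w σ - w‖ ≤ 2 * d * (‖post v w σ‖ + ‖w‖) :=
        mul_le_mul_of_nonneg_left n2 (by positivity)
      nlinarith [mul_nonneg nw np, mul_nonneg hd nw, mul_nonneg hd np,
        mul_nonneg hd (mul_nonneg nw np)]
    have h10 : 1 + ‖w‖ ≤ (1 + ‖w‖) * (1 + ‖post v w σ‖) :=
      le_mul_of_one_le_right (w_pos w).le (one_le_w _)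
    have h11 : 0 < (1 + ‖w‖) * (1 + ‖post v w σ‖) := mul_pos (w_pos _) (w_pos _)
    calc (1 + ‖v‖) * (1 + ‖w‖)
        ≤ ((2 * d + 1) * ((1 + ‖w‖) * (1 + ‖post v w σ‖))) * ((1 + ‖w‖) * (1 + ‖post v w σ‖)) :=
          mul_le_mul h8 h10 (w_pos w).le (by positivity)
      _ = _ := by ring

private theorem Itg_two {f g : Vec d → ℝ} {K L : ℝ} {M : ℕ} (hK0 : 0 ≤ K)
    (hK : ∀ v, |f v| ≤ K * ((1 + ‖v‖) ^ M)⁻¹) (hL : ∀ v, |g v| ≤ L * ((1 + ‖v‖) ^ M)⁻¹)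
    (p q : Vec d) : |f p * g q| ≤ K * L * (((1 + ‖p‖) * (1 + ‖q‖)) ^ M)⁻¹ := by
  rw [abs_mul, mul_pow, mul_inv]
  calc |f p| * |g q| ≤ (K * ((1 + ‖p‖) ^ M)⁻¹) * (L * ((1 + ‖q‖) ^ M)⁻¹) :=
        mul_le_mul (hK p) (hL q) (abs_nonneg _)
          (mul_nonneg hK0 (inv_nonneg.2 (pow_nonneg (w_pos p).le _)))
    _ = _ := by ring

private theorem Itg_dec {f g : Vec d → ℝ} (hf : RD f) (hg : RD g) (N : ℕ) : ∃ A, 0 ≤ A ∧
    ∀ v w σ : Vec d, nsq σ = 1 → 0 ≤ cosTh v w σ →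
      |g w * f (post v w σ)| ≤ A * pw N v w := by
  obtain ⟨K, hK0, hK⟩ := hg.bound (2 * N)
  obtain ⟨L, hL0, hL⟩ := hf.bound (2 * N)
  refine ⟨K * L * (2 * d + 1) ^ N, by positivity, fun v w σ hσ hc => ?_⟩
  refine (Itg_two hK0 (fun v => hK v) (fun v => hL v) _ _).trans ?_
  have h1 := pow_le_pow_left₀ (mul_pos (w_pos v) (w_pos w)).le (Itg_w v w σ hσ hc) N
  have h2 : 0 < ((1 + ‖v‖) * (1 + ‖w‖)) ^ N := pow_pos (mul_pos (w_pos v) (w_pos w)) N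
  have h3 : 0 < ((1 + ‖w‖) * (1 + ‖post v w σ‖)) ^ (2 * N) :=
    pow_pos (mul_pos (w_pos _) (w_pos _)) _
  have e : ((2 * (d : ℝ) + 1) * ((1 + ‖w‖) * (1 + ‖post v w σ‖)) ^ 2) ^ N =
      (2 * d + 1) ^ N * ((1 + ‖w‖) * (1 + ‖post v w σ‖)) ^ (2 * N) := by
    rw [mul_pow (2 * (d : ℝ) + 1), ← pow_mul]
  rw [e] at h1
  have h4 : (((1 + ‖w‖) * (1 + ‖post v w σ‖)) ^ (2 * N))⁻¹ ≤
      (2 * d + 1) ^ N * (((1 + ‖v‖) * (1 + ‖w‖)) ^ N)⁻¹ := by
    rw [← div_eq_mul_inv, le_div_iff₀ h2, inv_mul_le_iff₀ h3]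
    linarith
  unfold pw
  calc K * L * (((1 + ‖w‖) * (1 + ‖post v w σ‖)) ^ (2 * N))⁻¹
      ≤ K * L * ((2 * d + 1) ^ N * (((1 + ‖v‖) * (1 + ‖w‖)) ^ N)⁻¹) := by gcongr
    _ = _ := by ring

private theorem Itg_dec' {f g : Vec d → ℝ} (hf : RD f) (hg : RD g) (N : ℕ) : ∃ A, 0 ≤ A ∧
    ∀ v w σ : Vec d, nsq σ = 1 → 0 ≤ cosTh v w σ →
      |f (post' v w σ) * g v| ≤ A * pw N v w := by
  obtain ⟨A, hA0, hA⟩ := Itg_dec hf hg N
  refine ⟨A, hA0, fun v w σ hσ hc => ?_⟩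
  have hn : nsq (-σ) = 1 := by rw [sq_neg, hσ]
  have h := hA w v (-σ) hn (by rw [cosTh_swap]; exact hc)
  rw [post_swap] at h
  have e : pw N w v = pw N v w := by
    unfold pw
    rw [mul_comm (1 + ‖w‖)]
  rw [← e, mul_comm (f _)]
  exact h

theorem DB_int (H : Hyp d γ s b C Ca) {ε : ℝ} (hε : 0 < ε) {P : Vec d × Vec d × Vec d → ℝ}
    (hP : Measurable P) (hB : DB P) :
    Integrable (fun p => kerB γ b ε p.1 p.2.1 p.2.2 * P p) (mu3 d) := by
  obtain ⟨A, hA0, hA⟩ := hB (d + 1 + (d + 5) + 0)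
  have h := int_piece (γ := γ) (P := P) (Φ := fun _ => 1) (K := 0) (A := A) (B := 1)
    H.hd H.g1 H.g2 H.bm H.bd H.β0 hε hP measurable_const hA0 zero_le_one
    (fun v w σ hσ => hA v w σ hσ) (fun v w σ _ => by simp)
  refine h.congr (Eventually.of_forall fun p => ?_)
  simp only [mul_one]

theorem DB_mul {P X : Vec d × Vec d × Vec d → ℝ} (hP : DB P) (hX : PB X) :
    DB fun p => P p * X p := by
  obtain ⟨K, B, hB0, hB⟩ := hX
  intro N
  obtain ⟨A, hA0, hA⟩ := hP (N + K)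
  refine ⟨A * B, by positivity, fun v w σ hσ => ?_⟩
  have h1 := hA v w σ hσ
  have h2 := hB v w σ hσ
  have hp := pw_nonneg (N + K) v w
  change |P (v, w, σ) * X (v, w, σ)| ≤ _
  rw [abs_mul]
  calc |P (v, w, σ)| * |X (v, w, σ)|
      ≤ (A * pw (N + K) v w) * (B * ((1 + ‖v‖) * (1 + ‖w‖)) ^ K) :=
        mul_le_mul h1 h2 (abs_nonneg _) (by positivity)
    _ = A * B * (pw (N + K) v w * ((1 + ‖v‖) * (1 + ‖w‖)) ^ K) := by ring
    _ = A * B * pw N v w := by rw [pw_mul]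

theorem DB_pair {f g : Vec d → ℝ} (hf : RD f) (hg : RD g) : DB fun p => f p.2.1 * g p.1 := by
  intro N
  obtain ⟨K, hK0, hK⟩ := hf.bound N
  obtain ⟨L, hL0, hL⟩ := hg.bound N
  refine ⟨K * L, by positivity, fun v w σ _ => ?_⟩
  refine (Itg_two hK0 (fun v => hK v) (fun v => hL v) w v).trans (le_of_eq ?_)
  unfold pw
  rw [mul_comm (1 + ‖w‖)]

theorem DB_near {f g : Vec d → ℝ} (hf : RD f) (hg : RD g) :
    DB fun p => Zn p * (f (post' p.1 p.2.1 p.2.2) * g p.1) := by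
  intro N
  obtain ⟨A, hA0, hA⟩ := Itg_dec' hf hg N
  refine ⟨A, hA0, fun v w σ hσ => ?_⟩
  change |Zn (v, w, σ) * (f (post' v w σ) * g v)| ≤ _
  by_cases hc : 0 ≤ cosTh v w σ
  · rw [abs_mul, abs_of_nonneg (Zn_nonneg _)]
    calc Zn (v, w, σ) * |f (post' v w σ) * g v| ≤ 1 * |f (post' v w σ) * g v| :=
          mul_le_mul_of_nonneg_right (Zn_le_one _) (abs_nonneg _)
      _ = |f (post' v w σ) * g v| := one_mul _
      _ ≤ _ := hA v w σ hσ hc
  · have e : Zn (v, w, σ) = 0 := by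
      unfold Zn
      exact if_neg hc
    rw [e, zero_mul, abs_zero]
    exact mul_nonneg hA0 (pw_nonneg _ _ _)

theorem PB_v {φ : Vec d → ℝ} (hφ : PG φ) : PB fun p => φ p.1 := by
  obtain ⟨K, B, hB0, hB⟩ := pg_post_le hφ
  exact ⟨K, B, hB0, fun v w σ hσ => (hB v w σ hσ).1⟩

theorem PB_w {φ : Vec d → ℝ} (hφ : PG φ) : PB fun p => φ p.2.1 := by
  obtain ⟨K, B, hB0, hB⟩ := pg_post_le hφ
  exact ⟨K, B, hB0, fun v w σ hσ => (hB v w σ hσ).2.1⟩

theorem PB_post {φ : Vec d → ℝ} (hφ : PG φ) : PB fun p => φ (post p.1 p.2.1 p.2.2) := by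
  obtain ⟨K, B, hB0, hB⟩ := pg_post_le hφ
  exact ⟨K, B, hB0, fun v w σ hσ => (hB v w σ hσ).2.2.1⟩

theorem PB_post' {φ : Vec d → ℝ} (hφ : PG φ) : PB fun p => φ (post' p.1 p.2.1 p.2.2) := by
  obtain ⟨K, B, hB0, hB⟩ := pg_post_le hφ
  exact ⟨K, B, hB0, fun v w σ hσ => (hB v w σ hσ).2.2.2⟩

theorem PB_sub {X Y : Vec d × Vec d × Vec d → ℝ} (hX : PB X) (hY : PB Y) : PB fun p => X p - Y p := by
  obtain ⟨K, B, hB0, hB⟩ := hX
  obtain ⟨L, D, hD0, hD⟩ := hY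
  refine ⟨K + L, B + D, by positivity, fun v w σ hσ => ?_⟩
  have h1 := hB v w σ hσ
  have h2 := hD v w σ hσ
  have hm : 1 ≤ (1 + ‖v‖) * (1 + ‖w‖) := one_le_mul_of_one_le_of_one_le (one_le_w v) (one_le_w w)
  have h3 : ((1 + ‖v‖) * (1 + ‖w‖)) ^ K ≤ ((1 + ‖v‖) * (1 + ‖w‖)) ^ (K + L) :=
    pow_le_pow_right₀ hm (by omega)
  have h4 : ((1 + ‖v‖) * (1 + ‖w‖)) ^ L ≤ ((1 + ‖v‖) * (1 + ‖w‖)) ^ (K + L) :=
    pow_le_pow_right₀ hm (by omega)
  have h5 := mul_le_mul_of_nonneg_left h3 hB0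
  have h6 := mul_le_mul_of_nonneg_left h4 hD0
  change |X (v, w, σ) - Y (v, w, σ)| ≤ _
  have h7 := abs_sub (X (v, w, σ)) (Y (v, w, σ))
  rw [add_mul]
  linarith

theorem PB_Zn : PB (Zn (d := d)) :=
  ⟨0, 1, zero_le_one, fun v w σ _ => by
    rw [abs_of_nonneg (Zn_nonneg _), pow_zero, mul_one]
    exact Zn_le_one _⟩

theorem coll_int (H : Hyp d γ s b C Ca) (ε : ℝ) {F : Vec d × Vec d × Vec d → ℝ} (hF : Measurable F) :
    ∫ p, kerB γ b ε p.1 p.2.1 p.2.2 * F (coll p) ∂(mu3 d) =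
      ∫ p, kerB γ b ε p.1 p.2.1 p.2.2 * F p ∂(mu3 d) := by
  have mF : Measurable fun p : Vec d × Vec d × Vec d => kerB γ b ε p.1 p.2.1 p.2.2 * F p :=
    (measurable_kerB (d := d) γ H.bm ε).mul hF
  rw [← integral_comp_mp (coll_preserving H.hd1) mF]
  refine integral_congr_ae ?_
  filter_upwards [ae_good H.hd1] with p hp
  obtain ⟨v, w, σ⟩ := p
  have hp1 : v ≠ w := hp.1
  have hp2 : nsq σ = 1 := hp.2
  change kerB γ b ε v w σ * F (coll (v, w, σ)) =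
    kerB γ b ε (post v w σ) (post' v w σ) (dirk v w) * F (coll (v, w, σ))
  rw [kerB_post γ b ε hp1 hp2]

theorem exch_int (H : Hyp d γ s b C Ca) (ε : ℝ) {F : Vec d × Vec d × Vec d → ℝ} (hF : Measurable F) :
    ∫ p, kerB γ b ε p.1 p.2.1 p.2.2 * F (exch p) ∂(mu3 d) =
      ∫ p, kerB γ b ε p.1 p.2.1 p.2.2 * F p ∂(mu3 d) := by
  have mF : Measurable fun p : Vec d × Vec d × Vec d => kerB γ b ε p.1 p.2.1 p.2.2 * F p :=
    (measurable_kerB (d := d) γ H.bm ε).mul hF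
  rw [← integral_comp_mp (exch_preserving H.hd1) mF]
  refine integral_congr_ae (Eventually.of_forall fun p => ?_)
  obtain ⟨v, w, σ⟩ := p
  change kerB γ b ε v w σ * F (exch (v, w, σ)) = kerB γ b ε w v (-σ) * F (exch (v, w, σ))
  rw [kerB_swap]

/-- the integral over the angles first -/
theorem fub_le (H : Hyp d γ s b C Ca) {ε : ℝ} (hε : 0 < ε) {X : Vec d × Vec d × Vec d → ℝ}
    {P B : Vec d × Vec d → ℝ} (hX : Measurable X) (hX0 : ∀ v w σ : Vec d, nsq σ = 1 → 0 ≤ X (v, w, σ))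
    (hP : Measurable P) (hP0 : ∀ q, 0 ≤ P q) (hB0 : ∀ q, 0 ≤ B q)
    (h : ∀ v w : Vec d, v ≠ w → ∫⁻ σ, ENNReal.ofReal (kerB γ b ε v w σ * X (v, w, σ)) ∂(surf d) ≤
      ENNReal.ofReal (B (v, w)))
    (hI : Integrable (fun q : Vec d × Vec d => P q * B q)) :
    ∫ p, kerB γ b ε p.1 p.2.1 p.2.2 * (P (p.1, p.2.1) * X p) ∂(mu3 d) ≤ ∫ q : Vec d × Vec d, P q * B q := by
  have mP : Measurable fun p : Vec d × Vec d × Vec d => P (p.1, p.2.1) :=
    hP.comp (measurable_fst.prodMk (measurable_fst.comp measurable_snd))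
  have mF : Measurable fun p : Vec d × Vec d × Vec d =>
      kerB γ b ε p.1 p.2.1 p.2.2 * (P (p.1, p.2.1) * X p) :=
    (measurable_kerB (d := d) γ H.bm ε).mul (mP.mul hX)
  have nF : 0 ≤ᵐ[mu3 d] fun p : Vec d × Vec d × Vec d =>
      kerB γ b ε p.1 p.2.1 p.2.2 * (P (p.1, p.2.1) * X p) := by
    filter_upwards [ae_good H.hd1] with p hp
    exact mul_nonneg (kerB_nonneg H.bd hε hp.2) (mul_nonneg (hP0 _) (hX0 _ _ _ hp.2))
  have nB : 0 ≤ᵐ[(volume : Measure (Vec d × Vec d))] fun q : Vec d × Vec d => P q * B q :=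
    Eventually.of_forall fun q => mul_nonneg (hP0 _) (hB0 _)
  have hne : Nonempty (Fin d) := ⟨⟨0, by have := H.hd1; omega⟩⟩
  have key : ∫⁻ p, ENNReal.ofReal (kerB γ b ε p.1 p.2.1 p.2.2 * (P (p.1, p.2.1) * X p)) ∂(mu3 d) ≤
      ∫⁻ q : Vec d × Vec d, ENNReal.ofReal (P q * B q) := by
    have m1 := mF.ennreal_ofReal
    have E1 : ∫⁻ p, ENNReal.ofReal (kerB γ b ε p.1 p.2.1 p.2.2 * (P (p.1, p.2.1) * X p)) ∂(mu3 d) =
        ∫⁻ v, ∫⁻ y, ENNReal.ofReal (kerB γ b ε v y.1 y.2 * (P (v, y.1) * X (v, y)))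
          ∂((volume : Measure (Vec d)).prod (surf d)) :=
      lintegral_prod _ m1.aemeasurable
    have E2 : ∫⁻ q : Vec d × Vec d, ENNReal.ofReal (P q * B q) =
        ∫⁻ v, ∫⁻ w, ENNReal.ofReal (P (v, w) * B (v, w)) := by
      rw [Measure.volume_eq_prod]
      refine lintegral_prod _ ?_
      rw [← Measure.volume_eq_prod]
      exact hI.1.aemeasurable.ennreal_ofReal
    rw [E1, E2]
    refine lintegral_mono fun v => ?_
    have m1' : Measurable fun y : Vec d × Vec d =>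
        ENNReal.ofReal (kerB γ b ε v y.1 y.2 * (P (v, y.1) * X (v, y))) :=
      m1.comp measurable_prodMk_left
    rw [lintegral_prod _ m1'.aemeasurable]
    have h1 : ∀ᵐ w ∂(volume : Measure (Vec d)), v ≠ w := by
      have : (volume : Measure (Vec d)) {v} = 0 := measure_singleton v
      filter_upwards [compl_mem_ae_iff.2 this] with w hw h
      exact hw h.symm
    refine lintegral_mono_ae ?_
    filter_upwards [h1] with w hw
    have e : ∀ σ : Vec d, ENNReal.ofReal (kerB γ b ε v w σ * (P (v, w) * X (v, w, σ))) =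
        ENNReal.ofReal (P (v, w)) * ENNReal.ofReal (kerB γ b ε v w σ * X (v, w, σ)) := fun σ => by
      rw [← ENNReal.ofReal_mul (hP0 _)]
      congr 1
      ring
    simp only [e]
    rw [lintegral_const_mul' _ _ ENNReal.ofReal_ne_top, ENNReal.ofReal_mul (hP0 _)]
    gcongr
    exact h v w hw
  have f1 : ∫ p, kerB γ b ε p.1 p.2.1 p.2.2 * (P (p.1, p.2.1) * X p) ∂(mu3 d) =
      (∫⁻ p, ENNReal.ofReal (kerB γ b ε p.1 p.2.1 p.2.2 * (P (p.1, p.2.1) * X p)) ∂(mu3 d)).toReal :=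
    integral_eq_lintegral_of_nonneg_ae nF mF.aestronglyMeasurable
  have f2 : ∫ q : Vec d × Vec d, P q * B q =
      (∫⁻ q : Vec d × Vec d, ENNReal.ofReal (P q * B q)).toReal :=
    integral_eq_lintegral_of_nonneg_ae nB hI.1
  have t2 : ∫⁻ q : Vec d × Vec d, ENNReal.ofReal (P q * B q) ≠ ⊤ :=
    ((hasFiniteIntegral_iff_ofReal nB).1 hI.2).ne
  rw [f1, f2]
  exact ENNReal.toReal_mono t2 key

private theorem Itg_jb (v : Vec d) : jb v ≤ (d + 1) * (1 + ‖v‖) := by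
  unfold jb
  have hd : (0 : ℝ) ≤ d := Nat.cast_nonneg d
  have hv := w_pos v
  refine Real.sqrt_le_iff.2 ⟨by positivity, ?_⟩
  refine (one_add_sq_le v).trans ?_
  rw [mul_pow]
  refine mul_le_mul_of_nonneg_right ?_ (sq_nonneg _)
  nlinarith

/-- moments of the functions of the class `FB` -/
theorem mom_le (d : ℕ) (Cl : ℕ → ℝ) (k : ℕ) : ∃ K : ℝ, 0 ≤ K ∧ ∀ f : Vec d → ℝ, FB Cl f →
    Integrable (fun v => f v * jb v ^ k) ∧ ∫ v, f v * jb v ^ k ≤ K := by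
  have hd : (0 : ℝ) ≤ d := Nat.cast_nonneg d
  have hwt : 0 ≤ ∫ v, wt d v := integral_nonneg fun v => wt_nonneg v
  refine ⟨((d : ℝ) + 1) ^ k * |Cl (k + (d + 1))| * ∫ v, wt d v, by positivity, fun f hf => ?_⟩
  have hjb : Continuous (jb : Vec d → ℝ) := by
    unfold jb
    exact (continuous_const.add continuous_sq).sqrt
  have hb : ∀ v, 0 ≤ f v * jb v ^ k ∧
      f v * jb v ^ k ≤ ((d : ℝ) + 1) ^ k * |Cl (k + (d + 1))| * wt d v := fun v => by
    have hj0 : 0 ≤ jb v := Real.sqrt_nonneg _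
    have h0 := hf.nonneg v
    refine ⟨mul_nonneg h0 (pow_nonneg hj0 _), ?_⟩
    have h1 : jb v ^ k ≤ ((d : ℝ) + 1) ^ k * (1 + ‖v‖) ^ k := by
      rw [← mul_pow]
      exact pow_le_pow_left₀ hj0 (Itg_jb v) k
    have h2 := hf.le (k + (d + 1)) v
    have h3 := le_abs_self (Cl (k + (d + 1)))
    have hp : 0 < (1 + ‖v‖) ^ (d + 1) := pow_pos (w_pos v) _
    have h4 : (1 + ‖v‖) ^ k * f v ≤ |Cl (k + (d + 1))| * wt d v := by
      unfold wt
      rw [← div_eq_mul_inv, le_div_iff₀ hp]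
      have e : (1 + ‖v‖) ^ k * f v * (1 + ‖v‖) ^ (d + 1) = (1 + ‖v‖) ^ (k + (d + 1)) * f v := by
        rw [pow_add]; ring
      rw [e]
      linarith
    calc f v * jb v ^ k ≤ f v * (((d : ℝ) + 1) ^ k * (1 + ‖v‖) ^ k) :=
          mul_le_mul_of_nonneg_left h1 h0
      _ = ((d : ℝ) + 1) ^ k * ((1 + ‖v‖) ^ k * f v) := by ring
      _ ≤ ((d : ℝ) + 1) ^ k * (|Cl (k + (d + 1))| * wt d v) :=
          mul_le_mul_of_nonneg_left h4 (by positivity)
      _ = _ := by ring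
  have hint : Integrable (fun v => f v * jb v ^ k) := by
    refine (integrable_wt.const_mul (((d : ℝ) + 1) ^ k * |Cl (k + (d + 1))|)).mono'
      (hf.nice.cont.mul (hjb.pow k)).aestronglyMeasurable (Eventually.of_forall fun v => ?_)
    rw [Real.norm_eq_abs, abs_of_nonneg (hb v).1]
    exact (hb v).2
  refine ⟨hint, ?_⟩
  rw [← integral_const_mul]
  exact integral_mono hint (integrable_wt.const_mul _) fun v => (hb v).2

end Pool.Agent.H48.PD
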