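import Pool.Agent.H48.PD.Uni
import Pool.Agent.H48.PD.Trn

/-!
# Module Dat: plane symmetric data give plane symmetric solutions
-/

set_option autoImplicit false

open MeasureTheory Set Filter Topology Pool.Agent.H25.Kin Pool.Agent.H48.PL Pool.Agent.H48.PI Pool.Agent.H25.PN

namespace Pool.Agent.H48.PD

variable {d : ℕ} {γ s C Ca : ℝ} {b : ℝ → ℝ}

/-- the initial value depends on `x` only through `ν · x`, and some classical solution with this initial value has a
gradient in `v` which decays rapidly uniformly up to `t = 0` -/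
def SymData (γ : ℝ) (b : ℝ → ℝ) (ν : Vec d) (F₀ : Vec d → Vec d → ℝ) : Prop :=
  (∀ x y v, dot ν x = dot ν y → F₀ x v = F₀ y v) ∧ ∃ τ > 0, ∃ g : ℝ → Vec d → Vec d → ℝ,
    IsBoltzmannSol γ b τ g ∧ g 0 = F₀ ∧ RegZero τ g

lemma RegZero.restrict {T T' : ℝ} {g : ℝ → Vec d → Vec d → ℝ} (h : RegZero T g) (h1 : T' ≤ T) :
    RegZero T' g := fun T₁ hT N => h T₁ (lt_of_lt_of_le hT h1) N

theorem sym_of_data (H : Hyp d γ s b C Ca) (h0 : 0 ≤ γ) (hs : 2 * s < 1) {ν : Vec d} {T : ℝ}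
    {f : ℝ → Vec d → Vec d → ℝ} (hf : IsBoltzmannSol γ b T f) (h : SymData γ b ν (f 0)) :
    PlaneSym ν T f := by
  obtain ⟨hsym, τ, hτ, g, hg, hg0, hr⟩ := h
  intro t ht x y v hxy
  have hT : 0 < T := lt_of_le_of_lt ht.1 ht.2
  set z : Vec d := y - x with hz
  have hdz : ∀ x : Vec d, dot ν (x + z) = dot ν x := by
    intro x'
    have e : dot ν z = 0 := by
      rw [hz, dot_sub, hxy, sub_self]
    rw [dot_add, e, add_zero]
  have s1 : ∀ t ∈ Ico 0 τ, ∀ x v, g t (x + z) v = g t x v :=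
    uniq H h0 hs (trn_boltz hg z) hg hr fun x v => by
      show g 0 (x + z) v = g 0 x v
      rw [hg0]
      exact hsym _ _ _ (hdz x)
  have hm : 0 < min T τ := lt_min hT hτ
  have s2 : ∀ t ∈ Ico 0 (min T τ), ∀ x v, f t x v = g t x v :=
    uniq H h0 hs (sol_restrict hf (min_le_left T τ)) (sol_restrict hg (min_le_right T τ))
      (hr.restrict (min_le_right T τ)) fun x v => by rw [hg0]
  have s3 : ∀ t ∈ Ico 0 (min T τ), ∀ x v, f t (x + z) v = f t x v := by
    intro t ht x v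
    rw [s2 t ht, s2 t ht]
    exact s1 t ⟨ht.1, lt_of_lt_of_le ht.2 (min_le_right T τ)⟩ x v
  set t₁ : ℝ := min T τ / 2 with ht₁
  have ht1 : 0 < t₁ := by linarith
  have ht1' : t₁ < min T τ := by linarith
  have ht1T : t₁ < T := lt_of_lt_of_le ht1' (min_le_left T τ)
  have s4 : ∀ t ∈ Ico 0 (T - t₁), ∀ x v, f (t₁ + t) (x + z) v = f (t₁ + t) x v := by
    have hfs : IsBoltzmannSol γ b (T - t₁) (fun t => f (t₁ + t)) := boltz_shift hf ht1.le
    have hrs : RegZero (T - t₁) (fun t x v => f (t₁ + t) x v) := reg_shift hf ht1 ht1T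
    have hu := uniq H h0 hs (trn_boltz hfs z) hfs hrs fun x v => by
      show f (t₁ + 0) (x + z) v = f (t₁ + 0) x v
      rw [add_zero]
      exact s3 t₁ ⟨ht1.le, ht1'⟩ x v
    exact hu
  have s5 : f t (x + z) v = f t x v := by
    rcases lt_or_ge t t₁ with h1 | h1
    · exact s3 t ⟨ht.1, h1.trans ht1'⟩ x v
    · have := s4 (t - t₁) ⟨by linarith, by linarith [ht.2]⟩ x v
      rwa [add_sub_cancel] at this
  rw [← s5, hz, add_sub_cancel]

end Pool.Agent.H48.PD
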