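import Pool.Agent.H48.PD.Itg

/-!
# Module Far: the far part

`far_ang`: `1 - Zn ≤ 1[min 1 (2/L²) ≤ 1 - cosTh]` (`Zn_far`, `0 ≤ Zn ≤ 1`), `ker_large` (H48/PL/Ang) with `u = min 1 (2/L²)`: `≤ A L^γ u^(-s) ≤ A L^γ (1 + (L²/2)^s) ≤ A (L^γ + L^(γ+2s)) ≤ 2 A (1 + L²)`, as `0 ≤ γ ≤ γ + 2s ≤ 2`.
`far_le`: `h = f - g`, `f, g ≥ 0`. Pointwise, for `nsq σ = 1`: `f_w h_v (sj(v') - sj(v)) ≤ f_w |h_v| (jb v'² - jb v²)` (`mul_sj_le`, `mul_sj_self`), `h_w g_v (sj(v') - sj(v)) ≤ |h_w| g_v (jb v'² + jb v²)` (`abs_sj_le`). By `exch_int` (`Zn_exch`)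
`∫ kerB (1-Zn) |h_w| g_v (jb v'² + jb v²) = ∫ kerB (1-Zn) |h_v| g_w (jb w'² + jb w²)` (`post w v (-σ) = post' v w σ`: `post_swap`). With `f_w ≤ g_w + |h_w|` and `jb2_post` the sum of the two densities is
`≤ |h_v| [2 g_w jb w² + |h_w| (jb v² + jb w²)]`: precisely `f_w (jb v'² - jb v²) ≤ g_w (jb v'² - jb v²) + |h_w| (jb v² + jb w²)` since `|jb v'² - jb v²| ≤ jb v² + jb w²`. Now `fub_le` with `X = 1 - Zn`, `B = A(1+nsq(v-w))`,
`P = |h_v| (2 g_w jb w² + |h_w| (jb v² + jb w²))`, `1 + nsq (v-w) ≤ 2 jb v² jb w²`: `≤ 2A [2 N2 h ∫ g jb⁴ + 2 N2 h ∫ |h| jb⁴]`, `|h| ≤ f + g`, `mom_le`. Integrability: `DB_int`, `DB_pair`, `DB_mul`.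
-/

set_option autoImplicit false

open MeasureTheory Set Filter Topology Pool.Agent.H25.Kin Pool.Agent.H48.PL Pool.Agent.H87.PE
open scoped ENNReal

namespace Pool.Agent.H48.PD

variable {d : ℕ} {γ s C Ca : ℝ} {b : ℝ → ℝ}

private lemma far_rpow {L a : ℝ} (hL : 0 < L) (h0 : 0 ≤ a) (h2 : a ≤ 2) : L ^ a ≤ 1 + L ^ 2 := by
  rcases le_total L 1 with h | h
  · have h1 := Real.rpow_le_one hL.le h h0
    have h3 := sq_nonneg L
    linarith
  · have h1 : L ^ a ≤ L ^ (2 : ℝ) := Real.rpow_le_rpow_of_exponent_le h h2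
    rw [Real.rpow_two] at h1
    linarith

private lemma far_len_sq (z : Vec d) : len z ^ 2 = nsq z := Real.sq_sqrt (sq_nonneg' z)

private lemma far_u {L s : ℝ} (hL : 0 < L) (hs : 0 < s) :
    (min 1 (2 / L ^ 2)) ^ (-s) ≤ 1 + L ^ (2 * s) := by
  have hL2 : 0 < L ^ 2 := pow_pos hL 2
  have h3 : 0 ≤ L ^ (2 * s) := Real.rpow_nonneg hL.le _
  rcases le_total 1 (2 / L ^ 2) with h | h
  · rw [min_eq_left h, Real.one_rpow]
    linarith
  · rw [min_eq_right h]
    have h4 : (2 / L ^ 2) ^ (-s) = (L ^ 2 / 2) ^ s := by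
      rw [Real.rpow_neg (by positivity), ← Real.inv_rpow (by positivity), inv_div]
    have h5 : (L ^ 2 / 2) ^ s ≤ (L ^ 2) ^ s :=
      Real.rpow_le_rpow (by positivity) (by linarith) hs.le
    have h6 : (L ^ 2) ^ s = L ^ (2 * s) := by
      rw [← Real.rpow_natCast L 2, ← Real.rpow_mul hL.le]
      norm_num
    rw [h4]
    linarith

private lemma far_DB_add {P Q : Vec d × Vec d × Vec d → ℝ} (hP : DB P) (hQ : DB Q) :
    DB fun p => P p + Q p := by
  intro N
  obtain ⟨A, hA, h1⟩ := hP N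
  obtain ⟨B, hB, h2⟩ := hQ N
  refine ⟨A + B, by positivity, fun v w σ hσ => ?_⟩
  have a1 := h1 v w σ hσ
  have a2 := h2 v w σ hσ
  change |P (v, w, σ) + Q (v, w, σ)| ≤ _
  refine (abs_add_le _ _).trans ?_
  rw [add_mul]
  exact add_le_add a1 a2

private lemma far_PB_add {X Y : Vec d × Vec d × Vec d → ℝ} (hX : PB X) (hY : PB Y) :
    PB fun p => X p + Y p := by
  have h0 : PB fun p : Vec d × Vec d × Vec d => (fun _ : Vec d => (0 : ℝ)) p.1 :=
    PB_v (PG.const (d := d) (0 : ℝ))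
  have h1 := PB_sub hX (PB_sub h0 hY)
  have h2 : (fun p => X p + Y p) = fun p => X p - ((fun _ : Vec d => (0 : ℝ)) p.1 - Y p) := by
    funext p
    ring
  rw [h2]
  exact h1

private lemma far_PB_one : PB fun p : Vec d × Vec d × Vec d => 1 - Zn p :=
  PB_sub (PB_v (PG.const (d := d) (1 : ℝ))) PB_Zn

private lemma far_PG_J : PG fun v : Vec d => jb v ^ 2 := by
  have h1 : PG fun v : Vec d => (1 : ℝ) + nsq v := (PG.const (d := d) (1 : ℝ)).add PG.nsq
  simpa [jb_sq] using h1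

private lemma far_pt {f g : Vec d → ℝ} (hf : ∀ v, 0 ≤ f v) (hg : ∀ v, 0 ≤ g v) {v w σ : Vec d}
    (hσ : nsq σ = 1) :
    (f w * (f v - g v) + (f w - g w) * g v) *
      (sj (fun u => f u - g u) (post v w σ) - sj (fun u => f u - g u) v) ≤
    g w * |f v - g v| * (jb (post v w σ) ^ 2 - jb v ^ 2) +
      |f w - g w| * |f v - g v| * (jb v ^ 2 + jb w ^ 2) +
      |f w - g w| * g v * (jb (post v w σ) ^ 2 + jb v ^ 2) := by
  set h : Vec d → ℝ := fun u => f u - g u with hh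
  have e1 : h v * sj h (post v w σ) ≤ |h v| * jb (post v w σ) ^ 2 := mul_sj_le h v _
  have e2 : h v * sj h v = |h v| * jb v ^ 2 := mul_sj_self h v
  have e3 := abs_sj_le h (post v w σ)
  have e4 := abs_sj_le h v
  have e5 := jb2_post (v := v) (w := w) hσ
  have p1 : 0 ≤ jb (post v w σ) ^ 2 := sq_nonneg _
  have p2 : 0 ≤ jb (post' v w σ) ^ 2 := sq_nonneg _
  have p3 : 0 ≤ jb v ^ 2 := sq_nonneg _
  have p4 : 0 ≤ jb w ^ 2 := sq_nonneg _
  have q1 : f w * (h v * sj h (post v w σ) - h v * sj h v) ≤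
      f w * (|h v| * jb (post v w σ) ^ 2 - |h v| * jb v ^ 2) :=
    mul_le_mul_of_nonneg_left (by linarith) (hf w)
  have q2 : h w * (|h v| * (jb (post v w σ) ^ 2 - jb v ^ 2)) ≤
      |h w| * (|h v| * (jb v ^ 2 + jb w ^ 2)) := by
    refine (le_abs_self _).trans ?_
    rw [abs_mul, abs_mul, abs_abs]
    refine mul_le_mul_of_nonneg_left (mul_le_mul_of_nonneg_left ?_ (abs_nonneg _)) (abs_nonneg _)
    rw [abs_le]
    constructor <;> linarith
  have q3 : h w * (g v * (sj h (post v w σ) - sj h v)) ≤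
      |h w| * (g v * (jb (post v w σ) ^ 2 + jb v ^ 2)) := by
    refine (le_abs_self _).trans ?_
    rw [abs_mul, abs_mul, abs_of_nonneg (hg v)]
    refine mul_le_mul_of_nonneg_left (mul_le_mul_of_nonneg_left ?_ (hg v)) (abs_nonneg _)
    exact (abs_sub _ _).trans (add_le_add e3 e4)
  have q4 : f w = g w + h w := by simp [hh]
  change (f w * h v + h w * g v) * (sj h (post v w σ) - sj h v) ≤
    g w * |h v| * (jb (post v w σ) ^ 2 - jb v ^ 2) + |h w| * |h v| * (jb v ^ 2 + jb w ^ 2) +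
      |h w| * g v * (jb (post v w σ) ^ 2 + jb v ^ 2)
  have q5 : f w * (|h v| * jb (post v w σ) ^ 2 - |h v| * jb v ^ 2) =
      g w * (|h v| * (jb (post v w σ) ^ 2 - jb v ^ 2)) +
        h w * (|h v| * (jb (post v w σ) ^ 2 - jb v ^ 2)) := by
    rw [q4]
    ring
  have q6 : (f w * h v + h w * g v) * (sj h (post v w σ) - sj h v) =
      f w * (h v * sj h (post v w σ) - h v * sj h v) +
        h w * (g v * (sj h (post v w σ) - sj h v)) := by ring
  rw [q6]
  rw [q5] at q1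
  calc _ ≤ (g w * (|h v| * (jb (post v w σ) ^ 2 - jb v ^ 2)) +
        h w * (|h v| * (jb (post v w σ) ^ 2 - jb v ^ 2))) +
        |h w| * (g v * (jb (post v w σ) ^ 2 + jb v ^ 2)) := add_le_add q1 q3
    _ ≤ (g w * (|h v| * (jb (post v w σ) ^ 2 - jb v ^ 2)) +
        |h w| * (|h v| * (jb v ^ 2 + jb w ^ 2))) +
        |h w| * (g v * (jb (post v w σ) ^ 2 + jb v ^ 2)) := by linarith
    _ = _ := by ring

private lemma far_habs {Cl : ℕ → ℝ} {f g : Vec d → ℝ} (hf : FB Cl f) (hg : FB Cl g) (k : ℕ) :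
    Integrable (fun v => |f v - g v| * jb v ^ k) := by
  obtain ⟨K, _, hm⟩ := mom_le d Cl k
  refine ((hm f hf).1.add (hm g hg).1).mono' ?_ (Eventually.of_forall fun v => ?_)
  · exact (((hf.nice.cont.sub hg.nice.cont).abs).mul (jb_cont.pow k)).aestronglyMeasurable
  · have h1 : 0 ≤ jb v ^ k := pow_nonneg (jb_pos v).le k
    rw [Real.norm_eq_abs, abs_mul, abs_abs, abs_of_nonneg h1]
    change |f v - g v| * jb v ^ k ≤ f v * jb v ^ k + g v * jb v ^ k
    rw [← add_mul]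
    refine mul_le_mul_of_nonneg_right ?_ h1
    rw [abs_le]
    have := hf.nonneg v
    have := hg.nonneg v
    constructor <;> linarith

private lemma far_hle {Cl : ℕ → ℝ} {f g : Vec d → ℝ} {K : ℝ} (hf : FB Cl f) (hg : FB Cl g) (k : ℕ)
    (h1 : Integrable (fun v => f v * jb v ^ k) ∧ ∫ v, f v * jb v ^ k ≤ K)
    (h2 : Integrable (fun v => g v * jb v ^ k) ∧ ∫ v, g v * jb v ^ k ≤ K) :
    ∫ v, |f v - g v| * jb v ^ k ≤ 2 * K := by
  have h3 : ∫ v, |f v - g v| * jb v ^ k ≤ ∫ v, (f v * jb v ^ k + g v * jb v ^ k) := by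
    refine integral_mono (far_habs hf hg k) (h1.1.add h2.1) fun v => ?_
    have h1 : 0 ≤ jb v ^ k := pow_nonneg (jb_pos v).le k
    change |f v - g v| * jb v ^ k ≤ f v * jb v ^ k + g v * jb v ^ k
    rw [← add_mul]
    refine mul_le_mul_of_nonneg_right ?_ h1
    rw [abs_le]
    have := hf.nonneg v
    have := hg.nonneg v
    constructor <;> linarith
  rw [integral_add h1.1 h2.1] at h3
  linarith [h1.2, h2.2]

theorem far_ang (H : Hyp d γ s b C Ca) (h0 : 0 ≤ γ) : ∃ A : ℝ, 0 ≤ A ∧ ∀ ε : ℝ, 0 < ε → ∀ v w : Vec d,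
    v ≠ w → ∫⁻ σ, ENNReal.ofReal (kerB γ b ε v w σ * (1 - Zn (v, w, σ))) ∂(surf d) ≤
      ENNReal.ofReal (A * (1 + nsq (v - w))) := by
  obtain ⟨A, hA, hk⟩ := ker_large H
  refine ⟨2 * A, by positivity, fun ε hε v w hvw => ?_⟩
  have hL : 0 < len (v - w) := len_pos (sub_ne_zero.2 hvw)
  have hL2 : len (v - w) ^ 2 = nsq (v - w) := far_len_sq _
  have hn : 0 < nsq (v - w) := by rw [← hL2]; positivity
  have hu : 0 < min 1 (2 / nsq (v - w)) := lt_min one_pos (by positivity)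
  obtain ⟨h1, h2⟩ := hk ε hε v w hvw _ hu
  set S : Set (Vec d) := {σ : Vec d | min 1 (2 / nsq (v - w)) ≤ 1 - cosTh v w σ} with hS
  have mcos : Measurable fun σ : Vec d => cosTh v w σ :=
    measurable_cosTh.comp (measurable_const.prodMk (measurable_const.prodMk measurable_id))
  have mS : MeasurableSet S := measurableSet_le measurable_const (measurable_const.sub mcos)
  calc ∫⁻ σ, ENNReal.ofReal (kerB γ b ε v w σ * (1 - Zn (v, w, σ))) ∂(surf d)
      ≤ ∫⁻ σ, S.indicator (fun σ => ENNReal.ofReal (kerB γ b ε v w σ)) σ ∂(surf d) := by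
        refine lintegral_mono_ae ?_
        filter_upwards [surf_ae] with σ hσ
        have hk0 : 0 ≤ kerB γ b ε v w σ := kerB_nonneg H.bd hε hσ
        by_cases hz : Zn (v, w, σ) = 1
        · rw [hz, sub_self, mul_zero, ENNReal.ofReal_zero]
          exact zero_le
        · have hm : σ ∈ S := Zn_far hvw hσ hz
          rw [indicator_of_mem hm]
          refine ENNReal.ofReal_le_ofReal ?_
          have h3 := Zn_nonneg (v, w, σ)
          calc kerB γ b ε v w σ * (1 - Zn (v, w, σ)) ≤ kerB γ b ε v w σ * 1 :=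
                mul_le_mul_of_nonneg_left (by linarith) hk0
            _ = _ := mul_one _
    _ = ∫⁻ σ in S, ENNReal.ofReal (kerB γ b ε v w σ) ∂(surf d) := lintegral_indicator mS _
    _ = ENNReal.ofReal (∫ σ in S, kerB γ b ε v w σ ∂(surf d)) := by
        refine (ofReal_integral_eq_lintegral_ofReal h1 (ae_restrict_of_ae ?_)).symm
        filter_upwards [surf_ae] with σ hσ
        exact kerB_nonneg H.bd hε hσ
    _ ≤ ENNReal.ofReal (2 * A * (1 + nsq (v - w))) := by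
        refine ENNReal.ofReal_le_ofReal (h2.trans ?_)
        have a1 : (min 1 (2 / nsq (v - w))) ^ (-s) ≤ 1 + len (v - w) ^ (2 * s) := by
          rw [← hL2]
          exact far_u hL H.hs
        have a2 : len (v - w) ^ γ ≤ 1 + nsq (v - w) := by
          rw [← hL2]
          exact far_rpow hL h0 H.g2
        have a3 : len (v - w) ^ γ * len (v - w) ^ (2 * s) ≤ 1 + nsq (v - w) := by
          rw [← hL2, ← Real.rpow_add hL]
          exact far_rpow hL H.h0 H.h2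
        have a4 : 0 ≤ len (v - w) ^ γ := Real.rpow_nonneg hL.le _
        calc A * len (v - w) ^ γ * (min 1 (2 / nsq (v - w))) ^ (-s)
            ≤ A * len (v - w) ^ γ * (1 + len (v - w) ^ (2 * s)) :=
              mul_le_mul_of_nonneg_left a1 (by positivity)
          _ = A * (len (v - w) ^ γ + len (v - w) ^ γ * len (v - w) ^ (2 * s)) := by ring
          _ ≤ A * ((1 + nsq (v - w)) + (1 + nsq (v - w))) :=
              mul_le_mul_of_nonneg_left (add_le_add a2 a3) hA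
          _ = 2 * A * (1 + nsq (v - w)) := by ring

theorem far_le (H : Hyp d γ s b C Ca) (h0 : 0 ≤ γ) (Cl : ℕ → ℝ) : ∃ K : ℝ, 0 ≤ K ∧
    ∀ ε : ℝ, 0 < ε → ∀ f g : Vec d → ℝ, FB Cl f → FB Cl g →
    ∫ p, kerB γ b ε p.1 p.2.1 p.2.2 * ((1 - Zn p) *
      ((f p.2.1 * (f p.1 - g p.1) + (f p.2.1 - g p.2.1) * g p.1) *
        (sj (fun u => f u - g u) (post p.1 p.2.1 p.2.2) - sj (fun u => f u - g u) p.1))) ∂(mu3 d) ≤
      K * N2 fun u => f u - g u := by
  obtain ⟨A, hA, hang⟩ := far_ang H h0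
  obtain ⟨K4, hK4, hm4⟩ := mom_le d Cl 4
  refine ⟨12 * A * K4, by positivity, fun ε hε f g hf hg => ?_⟩
  -- measurability
  have mf := hf.nice.cont.measurable
  have mg := hg.nice.cont.measurable
  have mh : Measurable fun u => f u - g u := mf.sub mg
  have ma : Measurable fun u => |f u - g u| := (hf.nice.cont.sub hg.nice.cont).abs.measurable
  have mJ : Measurable fun u : Vec d => jb u ^ 2 := (jb_cont.pow 2).measurable
  have ms := sj_meas mh
  have mv : Measurable fun p : Vec d × Vec d × Vec d => p.1 := measurable_fst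
  have mw : Measurable fun p : Vec d × Vec d × Vec d => p.2.1 := measurable_fst.comp measurable_snd
  have mpost := (continuous_post (d := d)).measurable
  have mpost' := (continuous_post' (d := d)).measurable
  have mZ : Measurable fun p : Vec d × Vec d × Vec d => 1 - Zn p := measurable_const.sub Zn_meas
  -- rapid decay
  have rh : RD fun u => f u - g u := by
    have := hf.nice.rd.add hg.nice.rd.neg
    simpa [sub_eq_add_neg] using this
  have ra : RD fun u => |f u - g u| := rh.mono 1 fun v => by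
    rw [Real.norm_eq_abs, abs_abs, one_mul, Real.norm_eq_abs]
  -- the densities
  set Fa : Vec d × Vec d × Vec d → ℝ := fun p =>
    (f p.2.1 * (f p.1 - g p.1) + (f p.2.1 - g p.2.1) * g p.1) *
      (sj (fun u => f u - g u) (post p.1 p.2.1 p.2.2) - sj (fun u => f u - g u) p.1) *
      (1 - Zn p) with hFa
  set D1 : Vec d × Vec d × Vec d → ℝ := fun p =>
    (g p.2.1 * |f p.1 - g p.1| * (jb (post p.1 p.2.1 p.2.2) ^ 2 - jb p.1 ^ 2) +
      |f p.2.1 - g p.2.1| * |f p.1 - g p.1| * (jb p.1 ^ 2 + jb p.2.1 ^ 2)) * (1 - Zn p) with hD1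
  set D2 : Vec d × Vec d × Vec d → ℝ := fun p =>
    |f p.2.1 - g p.2.1| * g p.1 * (jb (post p.1 p.2.1 p.2.2) ^ 2 + jb p.1 ^ 2) * (1 - Zn p) with hD2
  set D3 : Vec d × Vec d × Vec d → ℝ := fun p =>
    g p.2.1 * |f p.1 - g p.1| * (jb (post' p.1 p.2.1 p.2.2) ^ 2 + jb p.2.1 ^ 2) * (1 - Zn p)
    with hD3
  have bFa : DB Fa := DB_mul (DB_mul (far_DB_add (DB_pair hf.nice.rd rh) (DB_pair rh hg.nice.rd))
    (PB_sub (PB_post (sj_PG _)) (PB_v (sj_PG _)))) far_PB_one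
  have bD1 : DB D1 := DB_mul (far_DB_add
    (DB_mul (DB_pair hg.nice.rd ra) (PB_sub (PB_post far_PG_J) (PB_v far_PG_J)))
    (DB_mul (DB_pair ra ra) (far_PB_add (PB_v far_PG_J) (PB_w far_PG_J)))) far_PB_one
  have bD2 : DB D2 := DB_mul (DB_mul (DB_pair ra hg.nice.rd)
    (far_PB_add (PB_post far_PG_J) (PB_v far_PG_J))) far_PB_one
  have bD3 : DB D3 := DB_mul (DB_mul (DB_pair hg.nice.rd ra)
    (far_PB_add (PB_post' far_PG_J) (PB_w far_PG_J))) far_PB_one
  have mFa : Measurable Fa := ((((mf.comp mw).mul (mh.comp mv)).add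
    ((mh.comp mw).mul (mg.comp mv))).mul ((ms.comp mpost).sub (ms.comp mv))).mul mZ
  have mD1 : Measurable D1 := ((((mg.comp mw).mul (ma.comp mv)).mul
    ((mJ.comp mpost).sub (mJ.comp mv))).add (((ma.comp mw).mul (ma.comp mv)).mul
    ((mJ.comp mv).add (mJ.comp mw)))).mul mZ
  have mD2 : Measurable D2 := (((ma.comp mw).mul (mg.comp mv)).mul
    ((mJ.comp mpost).add (mJ.comp mv))).mul mZ
  have mD3 : Measurable D3 := (((mg.comp mw).mul (ma.comp mv)).mul
    ((mJ.comp mpost').add (mJ.comp mw))).mul mZ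
  have iFa := DB_int H hε mFa bFa
  have iD1 := DB_int H hε mD1 bD1
  have iD2 := DB_int H hε mD2 bD2
  have iD3 := DB_int H hε mD3 bD3
  -- step 1
  have s1 : ∫ p, kerB γ b ε p.1 p.2.1 p.2.2 * ((1 - Zn p) *
      ((f p.2.1 * (f p.1 - g p.1) + (f p.2.1 - g p.2.1) * g p.1) *
        (sj (fun u => f u - g u) (post p.1 p.2.1 p.2.2) - sj (fun u => f u - g u) p.1))) ∂(mu3 d) =
      ∫ p, kerB γ b ε p.1 p.2.1 p.2.2 * Fa p ∂(mu3 d) := by
    refine integral_congr_ae (Eventually.of_forall fun p => ?_)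
    simp only [hFa]
    ring
  have s2 : ∫ p, kerB γ b ε p.1 p.2.1 p.2.2 * Fa p ∂(mu3 d) ≤
      ∫ p, (kerB γ b ε p.1 p.2.1 p.2.2 * D1 p + kerB γ b ε p.1 p.2.1 p.2.2 * D2 p) ∂(mu3 d) := by
    refine integral_mono_ae iFa (iD1.add iD2) ?_
    filter_upwards [ae_good H.hd1] with p hp
    obtain ⟨v, w, σ⟩ := p
    have hp2 : nsq σ = 1 := hp.2
    have hk0 : 0 ≤ kerB γ b ε v w σ := kerB_nonneg H.bd hε hp2
    have hz : 0 ≤ 1 - Zn (v, w, σ) := by linarith [Zn_le_one (v, w, σ)]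
    have h1 := far_pt hf.nonneg hg.nonneg (v := v) (w := w) hp2
    change kerB γ b ε v w σ * Fa (v, w, σ) ≤
      kerB γ b ε v w σ * D1 (v, w, σ) + kerB γ b ε v w σ * D2 (v, w, σ)
    rw [← mul_add]
    refine mul_le_mul_of_nonneg_left ?_ hk0
    simp only [hFa, hD1, hD2]
    rw [← add_mul]
    exact mul_le_mul_of_nonneg_right h1 hz
  have s3 : ∫ p, kerB γ b ε p.1 p.2.1 p.2.2 * D2 p ∂(mu3 d) =
      ∫ p, kerB γ b ε p.1 p.2.1 p.2.2 * D3 p ∂(mu3 d) := by
    rw [← exch_int H ε mD2]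
    refine integral_congr_ae ?_
    filter_upwards [ae_good H.hd1] with p hp
    obtain ⟨v, w, σ⟩ := p
    have hp1 : v ≠ w := hp.1
    have hp2 : nsq σ = 1 := hp.2
    have hz := Zn_exch hp1 hp2
    have e : D2 (exch (v, w, σ)) = D3 (v, w, σ) := by
      simp only [hD2, hD3]
      rw [hz]
      simp only [exch]
      rw [post_swap, mul_comm (|f v - g v|) (g w)]
    change kerB γ b ε v w σ * D2 (exch (v, w, σ)) = kerB γ b ε v w σ * D3 (v, w, σ)
    rw [e]
  -- the density of the pairs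
  set PP : Vec d × Vec d → ℝ := fun q =>
    |f q.1 - g q.1| * (2 * g q.2 * jb q.2 ^ 2 + |f q.2 - g q.2| * (jb q.1 ^ 2 + jb q.2 ^ 2))
    with hPP
  set BB : Vec d × Vec d → ℝ := fun q => A * (1 + nsq (q.1 - q.2)) with hBB
  have s4 : ∫ p, (kerB γ b ε p.1 p.2.1 p.2.2 * D1 p + kerB γ b ε p.1 p.2.1 p.2.2 * D3 p) ∂(mu3 d) =
      ∫ p, kerB γ b ε p.1 p.2.1 p.2.2 * (PP (p.1, p.2.1) * (1 - Zn p)) ∂(mu3 d) := by
    refine integral_congr_ae ?_
    filter_upwards [ae_good H.hd1] with p hp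
    obtain ⟨v, w, σ⟩ := p
    have hp2 : nsq σ = 1 := hp.2
    have e := jb2_post (v := v) (w := w) hp2
    simp only [hD1, hD3, hPP]
    have e' : jb (post v w σ) ^ 2 = jb v ^ 2 + jb w ^ 2 - jb (post' v w σ) ^ 2 := by linarith
    rw [e']
    ring
  have hPP0 : ∀ q, 0 ≤ PP q := fun q => by
    have h1 := hg.nonneg q.2
    simp only [hPP]
    positivity
  have hBB0 : ∀ q, 0 ≤ BB q := fun q => by
    have h1 := sq_nonneg' (q.1 - q.2)
    simp only [hBB]
    positivity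
  have m1 : Measurable fun q : Vec d × Vec d => q.1 := measurable_fst
  have m2 : Measurable fun q : Vec d × Vec d => q.2 := measurable_snd
  have mPP : Measurable PP := (ma.comp m1).mul (((measurable_const.mul (mg.comp m2)).mul
    (mJ.comp m2)).add ((ma.comp m2).mul ((mJ.comp m1).add (mJ.comp m2))))
  have mBB : Measurable BB := measurable_const.mul (measurable_const.add
    (continuous_sq.measurable.comp (m1.sub m2)))
  set QQ : Vec d × Vec d → ℝ := fun q => 2 * A *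
    ((|f q.1 - g q.1| * jb q.1 ^ 2) * (2 * (g q.2 * jb q.2 ^ 4)) +
      (|f q.1 - g q.1| * jb q.1 ^ 2) * (|f q.2 - g q.2| * jb q.2 ^ 4) +
      (|f q.1 - g q.1| * jb q.1 ^ 4) * (|f q.2 - g q.2| * jb q.2 ^ 2)) with hQQ
  have hle : ∀ q, PP q * BB q ≤ QQ q := fun q => by
    have h1 := one_add_nsq_sub q.1 q.2
    have h2 : BB q ≤ A * (2 * (jb q.1 ^ 2 * jb q.2 ^ 2)) := mul_le_mul_of_nonneg_left h1 hA
    refine (mul_le_mul_of_nonneg_left h2 (hPP0 q)).trans (le_of_eq ?_)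
    simp only [hPP, hQQ]
    ring
  have a2 := far_habs hf hg 2
  have a4 := far_habs hf hg 4
  have g4 := (hm4 g hg).1.const_mul 2
  have i1 : Integrable (fun q : Vec d × Vec d =>
      (|f q.1 - g q.1| * jb q.1 ^ 2) * (2 * (g q.2 * jb q.2 ^ 4))) := a2.mul_prod g4
  have i2 : Integrable (fun q : Vec d × Vec d =>
      (|f q.1 - g q.1| * jb q.1 ^ 2) * (|f q.2 - g q.2| * jb q.2 ^ 4)) := a2.mul_prod a4
  have i3 : Integrable (fun q : Vec d × Vec d =>
      (|f q.1 - g q.1| * jb q.1 ^ 4) * (|f q.2 - g q.2| * jb q.2 ^ 2)) := a4.mul_prod a2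
  have iQQ : Integrable QQ := ((i1.add i2).add i3).const_mul (2 * A)
  have iPB : Integrable (fun q : Vec d × Vec d => PP q * BB q) := by
    refine iQQ.mono' (mPP.mul mBB).aestronglyMeasurable (Eventually.of_forall fun q => ?_)
    rw [Real.norm_eq_abs, abs_of_nonneg (mul_nonneg (hPP0 q) (hBB0 q))]
    exact hle q
  have s5 : ∫ p, kerB γ b ε p.1 p.2.1 p.2.2 * (PP (p.1, p.2.1) * (1 - Zn p)) ∂(mu3 d) ≤
      ∫ q : Vec d × Vec d, PP q * BB q :=
    fub_le H hε (X := fun p => 1 - Zn p) mZ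
      (fun v w σ _ => by linarith [Zn_le_one (v, w, σ)]) mPP hPP0 hBB0
      (fun v w hvw => hang ε hε v w hvw) iPB
  have s6 : ∫ q : Vec d × Vec d, PP q * BB q ≤ ∫ q : Vec d × Vec d, QQ q :=
    integral_mono iPB iQQ hle
  have p1 : ∫ q : Vec d × Vec d,
      (|f q.1 - g q.1| * jb q.1 ^ 2) * (2 * (g q.2 * jb q.2 ^ 4)) =
      (∫ v, |f v - g v| * jb v ^ 2) * ∫ v, 2 * (g v * jb v ^ 4) :=
    integral_prod_mul (μ := (volume : Measure (Vec d))) (ν := (volume : Measure (Vec d)))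
      (fun v => |f v - g v| * jb v ^ 2) fun v => 2 * (g v * jb v ^ 4)
  have p2 : ∫ q : Vec d × Vec d,
      (|f q.1 - g q.1| * jb q.1 ^ 2) * (|f q.2 - g q.2| * jb q.2 ^ 4) =
      (∫ v, |f v - g v| * jb v ^ 2) * ∫ v, |f v - g v| * jb v ^ 4 :=
    integral_prod_mul (μ := (volume : Measure (Vec d))) (ν := (volume : Measure (Vec d)))
      (fun v => |f v - g v| * jb v ^ 2) fun v => |f v - g v| * jb v ^ 4
  have p3 : ∫ q : Vec d × Vec d,
      (|f q.1 - g q.1| * jb q.1 ^ 4) * (|f q.2 - g q.2| * jb q.2 ^ 2) =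
      (∫ v, |f v - g v| * jb v ^ 4) * ∫ v, |f v - g v| * jb v ^ 2 :=
    integral_prod_mul (μ := (volume : Measure (Vec d))) (ν := (volume : Measure (Vec d)))
      (fun v => |f v - g v| * jb v ^ 4) fun v => |f v - g v| * jb v ^ 2
  have i12 : Integrable (fun q : Vec d × Vec d =>
      (|f q.1 - g q.1| * jb q.1 ^ 2) * (2 * (g q.2 * jb q.2 ^ 4)) +
      (|f q.1 - g q.1| * jb q.1 ^ 2) * (|f q.2 - g q.2| * jb q.2 ^ 4)) := i1.add i2
  have s7 : ∫ q : Vec d × Vec d, QQ q = 2 * A *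
      ((∫ v, |f v - g v| * jb v ^ 2) * (2 * ∫ v, g v * jb v ^ 4) +
        (∫ v, |f v - g v| * jb v ^ 2) * (∫ v, |f v - g v| * jb v ^ 4) +
        (∫ v, |f v - g v| * jb v ^ 4) * ∫ v, |f v - g v| * jb v ^ 2) := by
    simp only [hQQ]
    rw [integral_const_mul, integral_add i12 i3, integral_add i1 i2, p1, p2, p3,
      integral_const_mul]
  have hN : N2 (fun u => f u - g u) = ∫ v, |f v - g v| * jb v ^ 2 := rfl
  have hN0 : 0 ≤ ∫ v, |f v - g v| * jb v ^ 2 :=
    integral_nonneg fun v => mul_nonneg (abs_nonneg _) (sq_nonneg _)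
  have hM := far_hle hf hg 4 (hm4 f hf) (hm4 g hg)
  have hG := (hm4 g hg).2
  rw [s1, hN]
  refine s2.trans ?_
  rw [integral_add iD1 iD2, s3, ← integral_add iD1 iD3, s4]
  refine s5.trans (s6.trans ?_)
  rw [s7]
  set N := ∫ v, |f v - g v| * jb v ^ 2 with hNdef
  calc 2 * A * (N * (2 * ∫ v, g v * jb v ^ 4) + N * (∫ v, |f v - g v| * jb v ^ 4) +
        (∫ v, |f v - g v| * jb v ^ 4) * N)
      ≤ 2 * A * (N * (2 * K4) + N * (2 * K4) + (2 * K4) * N) := by
        refine mul_le_mul_of_nonneg_left ?_ (by positivity)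
        refine add_le_add (add_le_add ?_ ?_) ?_
        · exact mul_le_mul_of_nonneg_left (by linarith) hN0
        · exact mul_le_mul_of_nonneg_left hM hN0
        · exact mul_le_mul_of_nonneg_right hM hN0
    _ = 12 * A * K4 * N := by ring

end Pool.Agent.H48.PD
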