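import Pool.Agent.H48.PD.Itg

/-!
# Module NrA: the near part of the term `f_w h_v`

`az`: for `v ≠ w` and every bounded measurable weight `q(σ) = kerB Zn` depending on `σ` only through `cosTh` (invariant under `refl (dirk v w)`, `kerB_refl`, `cosTh_refl` in BGeo; `Zn` by `len_post_sub`):
`∫ kerB Zn (nsq (post) - nsq v) dσ = (1/2)(nsq w - nsq v) ∫ kerB Zn (1 - cosTh) dσ`. Proof: `surf d` is invariant under `refl k` (`refl_preserving`, used in `inner_eq`, BInner); `σ + refl k σ = 2 (k·σ) k`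
(`refl_sub_add`), `nsq (post) - nsq v = L v·(σ - k) + L² (1 - cosTh)/2` with `k = dirk v w`, `v·k L = v·(v-w)`; average of the two: `-L (v·k)(1 - cosTh) + L²(1-cosTh)/2 = (1 - cosTh)(1/2)(|v-w|² - 2 v·(v-w)) = (1-cosTh)(1/2)(|w|² - |v|²)`.
`near_ang`: `∫ kerB Zn (1 - cosTh) dσ ≤ A L^γ`: `ker_small` (H48/PL/Ang) with `τ = 1`, `u = 2`.
`nrA_le`: pointwise `f_w h_v (sj(v') - sj(v)) ≤ f_w |h_v| (jb v'² - jb v²) = f_w |h_v| (nsq v' - nsq v)`; integrate over `σ` first (Fubini, the function `kerB Zn f_w |h_v| (nsq v' - nsq v)` is integrable by `DB_int`), `az`: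
`≤ ∫∫ f_w |h_v| (1/2) nsq w A L^γ ≤ ∫∫ f_w |h_v| nsq w A jb v² jb w²` (`L^γ ≤ 1 + L² ≤ 2 jb v² jb w²`), `mom_le` with `k = 4`.
-/

set_option autoImplicit false

open MeasureTheory Set Filter Topology Pool.Agent.H25.Kin Pool.Agent.H48.PL Pool.Agent.H87.PE
open scoped ENNReal

namespace Pool.Agent.H48.PD

variable {d : ℕ} {γ s C Ca : ℝ} {b : ℝ → ℝ}

private theorem NrA_zm (v w : Vec d) : Measurable fun σ : Vec d => Zn (v, w, σ) :=
  Zn_meas.comp (measurable_const.prodMk (measurable_const.prodMk measurable_id))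

private theorem NrA_cm (v w : Vec d) : Measurable fun σ : Vec d => 1 - cosTh v w σ :=
  measurable_const.sub (measurable_cosTh' v w)

theorem near_ang (H : Hyp d γ s b C Ca) : ∃ A : ℝ, 0 ≤ A ∧ ∀ ε : ℝ, 0 < ε → ∀ v w : Vec d, v ≠ w →
    Integrable (fun σ => kerB γ b ε v w σ * (Zn (v, w, σ) * (1 - cosTh v w σ))) (surf d) ∧
    ∫ σ, kerB γ b ε v w σ * (Zn (v, w, σ) * (1 - cosTh v w σ)) ∂(surf d) ≤ A * len (v - w) ^ γ := by
  obtain ⟨A, hA, h⟩ := ker_small H H.hs1 le_rfl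
  refine ⟨A * (2 : ℝ) ^ (1 - s), by positivity, fun ε hε v w hvw => ?_⟩
  obtain ⟨h1, h2⟩ := h ε hε v w hvw 2 (by norm_num)
  have hset : {σ : Vec d | 1 - cosTh v w σ ≤ 2} =ᵐ[surf d] univ := by
    filter_upwards [surf_ae] with σ hσ
    refine propext ⟨fun _ => trivial, fun _ => ?_⟩
    change 1 - cosTh v w σ ≤ 2
    have := abs_le.1 (abs_cosTh_le (v := v) (w := w) hσ)
    linarith [this.1]
  rw [IntegrableOn, Measure.restrict_congr_set hset, Measure.restrict_univ] at h1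
  rw [Measure.restrict_congr_set hset, Measure.restrict_univ] at h2
  simp only [Real.rpow_one] at h1 h2
  have hm : Measurable fun σ : Vec d => kerB γ b ε v w σ * (Zn (v, w, σ) * (1 - cosTh v w σ)) :=
    (measurable_kerB' γ H.bm ε v w).mul ((NrA_zm v w).mul (NrA_cm v w))
  have hle : ∀ᵐ σ ∂(surf d), kerB γ b ε v w σ * (Zn (v, w, σ) * (1 - cosTh v w σ)) ≤
      kerB γ b ε v w σ * (1 - cosTh v w σ) := by
    filter_upwards [surf_ae] with σ hσ
    refine mul_le_mul_of_nonneg_left ?_ (kerB_nonneg H.bd hε hσ)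
    exact mul_le_of_le_one_left (one_sub_cosTh_nonneg hσ) (Zn_le_one _)
  have hi : Integrable (fun σ => kerB γ b ε v w σ * (Zn (v, w, σ) * (1 - cosTh v w σ))) (surf d) := by
    refine h1.mono' hm.aestronglyMeasurable ?_
    filter_upwards [surf_ae, hle] with σ hσ hl
    rw [Real.norm_eq_abs, abs_of_nonneg]
    · exact hl
    · exact mul_nonneg (kerB_nonneg H.bd hε hσ) (mul_nonneg (Zn_nonneg _) (one_sub_cosTh_nonneg hσ))
  refine ⟨hi, ?_⟩
  calc ∫ σ, kerB γ b ε v w σ * (Zn (v, w, σ) * (1 - cosTh v w σ)) ∂(surf d)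
      ≤ ∫ σ, kerB γ b ε v w σ * (1 - cosTh v w σ) ∂(surf d) := integral_mono_ae hi h1 hle
    _ ≤ A * len (v - w) ^ γ * 2 ^ (1 - s) := h2
    _ = _ := by ring

private theorem NrA_zrefl {v w σ : Vec d} (h : v ≠ w) (hσ : nsq σ = 1) :
    Zn (v, w, refl (dirk v w) σ) = Zn (v, w, σ) := by
  unfold Zn
  have h1 : nsq (refl (dirk v w) σ) = 1 := by rw [nsq_refl (nsq_dirk h), hσ]
  simp only
  rw [cosTh_refl h, len_post_sub h h1, len_post_sub h hσ, cosTh_refl h]

private theorem NrA_nsq {v w σ : Vec d} (h : v ≠ w) (hσ : nsq σ = 1) :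
    nsq (post v w σ) - nsq v = len (v - w) * dot v (σ - dirk v w) +
      nsq (v - w) * (1 - cosTh v w σ) / 2 := by
  rw [post_eq, nsq_add, nsq_smul, nsq_sub_dirk h hσ, dot_smul, ← len_sq (v - w)]
  ring

private theorem NrA_sum {v w σ : Vec d} (h : v ≠ w) (hσ : nsq σ = 1) :
    (nsq (post v w σ) - nsq v) + (nsq (post v w (refl (dirk v w) σ)) - nsq v) =
      (nsq w - nsq v) * (1 - cosTh v w σ) := by
  have h1 : nsq (refl (dirk v w) σ) = 1 := by rw [nsq_refl (nsq_dirk h), hσ]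
  rw [NrA_nsq h hσ, NrA_nsq h h1, cosTh_refl h]
  have h2 : dot v (σ - dirk v w) + dot v (refl (dirk v w) σ - dirk v w) =
      -(2 * (1 - cosTh v w σ)) * dot v (dirk v w) := by
    rw [← dot_add, refl_sub_add, dot_smul]
  have h3 : len (v - w) * dot v (dirk v w) = nsq v - dot v w := by
    rw [← dot_smul, len_smul_dirk, dot_sub, dot_self]
  have h4 : nsq (v - w) = nsq v - 2 * dot v w + nsq w := nsq_sub v w
  calc len (v - w) * dot v (σ - dirk v w) + nsq (v - w) * (1 - cosTh v w σ) / 2 +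
        (len (v - w) * dot v (refl (dirk v w) σ - dirk v w) + nsq (v - w) * (1 - cosTh v w σ) / 2)
      = len (v - w) * (dot v (σ - dirk v w) + dot v (refl (dirk v w) σ - dirk v w)) +
        nsq (v - w) * (1 - cosTh v w σ) := by ring
    _ = -(2 * (1 - cosTh v w σ)) * (len (v - w) * dot v (dirk v w)) +
        nsq (v - w) * (1 - cosTh v w σ) := by rw [h2]; ring
    _ = (nsq w - nsq v) * (1 - cosTh v w σ) := by rw [h3, h4]; ring

theorem az (H : Hyp d γ s b C Ca) {ε : ℝ} (hε : 0 < ε) {v w : Vec d} (hvw : v ≠ w) :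
    ∫ σ, kerB γ b ε v w σ * (Zn (v, w, σ) * (nsq (post v w σ) - nsq v)) ∂(surf d) =
      1 / 2 * (nsq w - nsq v) * ∫ σ, kerB γ b ε v w σ * (Zn (v, w, σ) * (1 - cosTh v w σ)) ∂(surf d) := by
  have hpm : Measurable fun σ : Vec d => nsq (post v w σ) - nsq v := by
    have h1 : Measurable fun σ : Vec d => post v w σ :=
      (continuous_post (d := d)).measurable.comp
        (measurable_const.prodMk (measurable_const.prodMk measurable_id))
    exact (continuous_sq.measurable.comp h1).sub measurable_const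
  have hF : Measurable fun σ : Vec d => Zn (v, w, σ) * (nsq (post v w σ) - nsq v) := (NrA_zm v w).mul hpm
  have hF0 : ∀ σ : Vec d, nsq σ = 1 →
      |Zn (v, w, σ) * (nsq (post v w σ) - nsq v)| ≤ nsq v + nsq w + nsq v := by
    intro σ hσ
    have h1 := energy_post (v := v) (w := w) hσ
    have h2 := sq_nonneg' (post v w σ)
    have h3 := sq_nonneg' (post' v w σ)
    have h4 := sq_nonneg' v
    have h5 : |nsq (post v w σ) - nsq v| ≤ nsq v + nsq w + nsq v := by
      rw [abs_le]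
      constructor
      · have := sq_nonneg' w
        linarith
      · linarith
    rw [abs_mul, abs_of_nonneg (Zn_nonneg _)]
    exact (mul_le_of_le_one_left (abs_nonneg _) (Zn_le_one _)).trans h5
  rw [inner_eq (γ := γ) H.hd1 H.bm H.bd H.β0 hε hvw hF hF0, ← integral_const_mul]
  refine integral_congr_ae ?_
  filter_upwards [surf_ae] with σ hσ
  rw [NrA_zrefl hvw hσ, ← mul_add, NrA_sum hvw hσ]
  ring


private theorem NrA_pbmul {X Y : Vec d × Vec d × Vec d → ℝ} (hX : PB X) (hY : PB Y) :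
    PB fun p => X p * Y p := by
  obtain ⟨K, B, hB, h⟩ := hX
  obtain ⟨K', B', hB', h'⟩ := hY
  refine ⟨K + K', B * B', by positivity, fun v w σ hσ => ?_⟩
  rw [abs_mul, pow_add]
  calc |X (v, w, σ)| * |Y (v, w, σ)| ≤ (B * ((1 + ‖v‖) * (1 + ‖w‖)) ^ K) * (B' * ((1 + ‖v‖) * (1 + ‖w‖)) ^ K') :=
        mul_le_mul (h v w σ hσ) (h' v w σ hσ) (abs_nonneg _)
          (mul_nonneg hB (pow_nonneg (mul_pos (w_pos v) (w_pos w)).le _))
    _ = _ := by ring

private theorem NrA_pbconst (c : ℝ) : PB fun _ : Vec d × Vec d × Vec d => c :=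
  ⟨0, |c|, abs_nonneg c, fun v w σ _ => by simp⟩

private theorem NrA_pbcos : PB fun p : Vec d × Vec d × Vec d => 1 - cosTh p.1 p.2.1 p.2.2 := by
  refine ⟨0, 2, by norm_num, fun v w σ hσ => ?_⟩
  have := abs_le.1 (abs_cosTh_le (v := v) (w := w) hσ)
  simp only [pow_zero, mul_one]
  rw [abs_le]
  constructor <;> linarith [this.1, this.2]

private theorem NrA_jb (v : Vec d) : jb v ^ 2 = 1 + nsq v := by
  unfold jb
  exact Real.sq_sqrt (by have := sq_nonneg' v; linarith)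

private theorem NrA_len (h0 : 0 ≤ γ) (h2 : γ ≤ 2) (z : Vec d) : len z ^ γ ≤ 1 + nsq z := by
  have hl := len_nonneg z
  rw [← len_sq z]
  rcases le_total (len z) 1 with h | h
  · have := Real.rpow_le_one hl h h0
    have := sq_nonneg (len z)
    linarith
  · have h3 := Real.rpow_le_rpow_of_exponent_le h h2
    rw [Real.rpow_two] at h3
    linarith

/-- Fubini -/
private theorem NrA_fub {F : Vec d × Vec d × Vec d → ℝ} (hF : Integrable F (mu3 d)) :
    ∫ p, F p ∂(mu3 d) = ∫ v : Vec d, ∫ w : Vec d, ∫ σ, F (v, w, σ) ∂(surf d) := by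
  rw [integral_prod F hF]
  refine integral_congr_ae ?_
  filter_upwards [hF.prod_right_ae] with v hv
  exact integral_prod _ hv

private theorem NrA_congr (hd : 1 ≤ d) {F G : Vec d × Vec d × Vec d → ℝ} (hF : Integrable F (mu3 d))
    (hG : Integrable G (mu3 d))
    (h : ∀ v w : Vec d, v ≠ w → ∫ σ, F (v, w, σ) ∂(surf d) = ∫ σ, G (v, w, σ) ∂(surf d)) :
    ∫ p, F p ∂(mu3 d) = ∫ p, G p ∂(mu3 d) := by
  have hne : Nonempty (Fin d) := ⟨⟨0, by omega⟩⟩
  rw [NrA_fub hF, NrA_fub hG]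
  refine integral_congr_ae (Eventually.of_forall fun v => ?_)
  refine integral_congr_ae ?_
  have h1 : ∀ᵐ w ∂(volume : Measure (Vec d)), v ≠ w := by
    have : (volume : Measure (Vec d)) {v} = 0 := measure_singleton v
    filter_upwards [compl_mem_ae_iff.2 this] with w hw h
    exact hw h.symm
  filter_upwards [h1] with w hw
  exact h v w hw

theorem nrA_le (H : Hyp d γ s b C Ca) (h0 : 0 ≤ γ) (Cl : ℕ → ℝ) : ∃ K : ℝ, 0 ≤ K ∧
    ∀ ε : ℝ, 0 < ε → ∀ f g : Vec d → ℝ, FB Cl f → FB Cl g →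
    ∫ p, kerB γ b ε p.1 p.2.1 p.2.2 * (Zn p * (f p.2.1 * (f p.1 - g p.1) *
        (sj (fun u => f u - g u) (post p.1 p.2.1 p.2.2) - sj (fun u => f u - g u) p.1))) ∂(mu3 d) ≤
      K * N2 fun u => f u - g u := by
  obtain ⟨A, hA, hang⟩ := near_ang H
  obtain ⟨K, hK, hmom⟩ := mom_le d Cl 4
  refine ⟨A * K, by positivity, fun ε hε f g hf hg => ?_⟩
  set h : Vec d → ℝ := fun u => f u - g u with hh
  have hfc : Continuous f := hf.nice.cont
  have hgc : Continuous g := hg.nice.cont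
  have hhc : Continuous h := hfc.sub hgc
  have hrf : RD f := hf.nice.rd
  have hrh : RD h := by
    have := hrf.add hg.nice.rd.neg
    simpa [hh, sub_eq_add_neg] using this
  have hra : RD fun u => |h u| := hrh.mono 1 fun v => by simp
  have hpost : Measurable fun p : Vec d × Vec d × Vec d => post p.1 p.2.1 p.2.2 := (continuous_post (d := d)).measurable
  have m1 : Measurable fun p : Vec d × Vec d × Vec d => f p.2.1 * h p.1 :=
    ((hfc.comp (continuous_fst.comp continuous_snd)).mul (hhc.comp continuous_fst)).measurable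
  have m2 : Measurable fun p : Vec d × Vec d × Vec d => f p.2.1 * |h p.1| :=
    ((hfc.comp (continuous_fst.comp continuous_snd)).mul (hhc.comp continuous_fst).abs).measurable
  have mn1 : Measurable fun p : Vec d × Vec d × Vec d => nsq p.1 := (continuous_sq.comp continuous_fst).measurable
  have mn2 : Measurable fun p : Vec d × Vec d × Vec d => nsq p.2.1 :=
    (continuous_sq.comp (continuous_fst.comp continuous_snd)).measurable
  have mcos : Measurable fun p : Vec d × Vec d × Vec d => 1 - cosTh p.1 p.2.1 p.2.2 :=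
    measurable_const.sub measurable_cosTh
  -- the three integrands
  have i1 : Integrable (fun p : Vec d × Vec d × Vec d => kerB γ b ε p.1 p.2.1 p.2.2 *
      (f p.2.1 * h p.1 * (Zn p * (sj h (post p.1 p.2.1 p.2.2) - sj h p.1)))) (mu3 d) := by
    refine DB_int H hε ?_ (DB_mul (DB_pair hrf hrh) ?_)
    · exact m1.mul (Zn_meas.mul (((sj_meas hhc.measurable).comp hpost).sub
        ((sj_meas hhc.measurable).comp measurable_fst)))
    · exact NrA_pbmul PB_Zn (PB_sub (PB_post (sj_PG h)) (PB_v (sj_PG h)))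
  have i2 : Integrable (fun p : Vec d × Vec d × Vec d => kerB γ b ε p.1 p.2.1 p.2.2 *
      (f p.2.1 * |h p.1| * (Zn p * (nsq (post p.1 p.2.1 p.2.2) - nsq p.1)))) (mu3 d) := by
    refine DB_int H hε ?_ (DB_mul (DB_pair hrf hra) ?_)
    · exact m2.mul (Zn_meas.mul ((continuous_sq.measurable.comp hpost).sub mn1))
    · exact NrA_pbmul PB_Zn (PB_sub (PB_post PG.nsq) (PB_v PG.nsq))
  have i3 : Integrable (fun p : Vec d × Vec d × Vec d => kerB γ b ε p.1 p.2.1 p.2.2 *
      (f p.2.1 * |h p.1| * ((1 / 2 * (nsq p.2.1 - nsq p.1)) * (Zn p * (1 - cosTh p.1 p.2.1 p.2.2)))))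
      (mu3 d) := by
    refine DB_int H hε ?_ (DB_mul (DB_pair hrf hra) ?_)
    · exact m2.mul ((measurable_const.mul (mn2.sub mn1)).mul (Zn_meas.mul mcos))
    · exact NrA_pbmul (NrA_pbmul (NrA_pbconst _) (PB_sub (PB_w PG.nsq) (PB_v PG.nsq)))
        (NrA_pbmul PB_Zn NrA_pbcos)
  have i4 : Integrable (fun p : Vec d × Vec d × Vec d => kerB γ b ε p.1 p.2.1 p.2.2 *
      ((f p.2.1 * |h p.1| * (1 / 2 * nsq p.2.1)) * (Zn p * (1 - cosTh p.1 p.2.1 p.2.2))))
      (mu3 d) := by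
    have : Integrable (fun p : Vec d × Vec d × Vec d => kerB γ b ε p.1 p.2.1 p.2.2 *
      (f p.2.1 * |h p.1| * ((1 / 2 * nsq p.2.1) * (Zn p * (1 - cosTh p.1 p.2.1 p.2.2)))))
      (mu3 d) := by
      refine DB_int H hε ?_ (DB_mul (DB_pair hrf hra) ?_)
      · exact m2.mul ((measurable_const.mul mn2).mul (Zn_meas.mul mcos))
      · exact NrA_pbmul (NrA_pbmul (NrA_pbconst _) (PB_w PG.nsq)) (NrA_pbmul PB_Zn NrA_pbcos)
    refine this.congr (Eventually.of_forall fun p => ?_)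
    ring
  have hgood := ae_good H.hd1
  have s1 : ∫ p, kerB γ b ε p.1 p.2.1 p.2.2 * (Zn p * (f p.2.1 * (f p.1 - g p.1) *
        (sj h (post p.1 p.2.1 p.2.2) - sj h p.1))) ∂(mu3 d) =
      ∫ p, kerB γ b ε p.1 p.2.1 p.2.2 *
      (f p.2.1 * h p.1 * (Zn p * (sj h (post p.1 p.2.1 p.2.2) - sj h p.1))) ∂(mu3 d) := by
    refine integral_congr_ae (Eventually.of_forall fun p => ?_)
    simp only [hh]
    ring
  have s2 : ∫ p, kerB γ b ε p.1 p.2.1 p.2.2 *
      (f p.2.1 * h p.1 * (Zn p * (sj h (post p.1 p.2.1 p.2.2) - sj h p.1))) ∂(mu3 d) ≤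
      ∫ p, kerB γ b ε p.1 p.2.1 p.2.2 *
      (f p.2.1 * |h p.1| * (Zn p * (nsq (post p.1 p.2.1 p.2.2) - nsq p.1))) ∂(mu3 d) := by
    refine integral_mono_ae i1 i2 ?_
    filter_upwards [hgood] with p hp
    refine mul_le_mul_of_nonneg_left ?_ (kerB_nonneg H.bd hε hp.2)
    have e1 := mul_sj_le h p.1 (post p.1 p.2.1 p.2.2)
    have e2 := mul_sj_self h p.1
    have e3 : h p.1 * (sj h (post p.1 p.2.1 p.2.2) - sj h p.1) ≤
        |h p.1| * (nsq (post p.1 p.2.1 p.2.2) - nsq p.1) := by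
      rw [NrA_jb] at e1 e2
      nlinarith
    have e4 := mul_le_mul_of_nonneg_left e3 (mul_nonneg (hf.nonneg p.2.1) (Zn_nonneg p))
    calc f p.2.1 * h p.1 * (Zn p * (sj h (post p.1 p.2.1 p.2.2) - sj h p.1))
        = f p.2.1 * Zn p * (h p.1 * (sj h (post p.1 p.2.1 p.2.2) - sj h p.1)) := by ring
      _ ≤ f p.2.1 * Zn p * (|h p.1| * (nsq (post p.1 p.2.1 p.2.2) - nsq p.1)) := e4
      _ = _ := by ring
  have s3 : ∫ p, kerB γ b ε p.1 p.2.1 p.2.2 *
      (f p.2.1 * |h p.1| * (Zn p * (nsq (post p.1 p.2.1 p.2.2) - nsq p.1))) ∂(mu3 d) =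
      ∫ p, kerB γ b ε p.1 p.2.1 p.2.2 *
      (f p.2.1 * |h p.1| * ((1 / 2 * (nsq p.2.1 - nsq p.1)) * (Zn p * (1 - cosTh p.1 p.2.1 p.2.2))))
      ∂(mu3 d) := by
    refine NrA_congr H.hd1 i2 i3 fun v w hvw => ?_
    simp only
    have e1 := az H hε hvw
    calc ∫ σ, kerB γ b ε v w σ * (f w * |h v| * (Zn (v, w, σ) * (nsq (post v w σ) - nsq v))) ∂(surf d)
        = ∫ σ, (f w * |h v|) * (kerB γ b ε v w σ * (Zn (v, w, σ) * (nsq (post v w σ) - nsq v)))
            ∂(surf d) := by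
          refine integral_congr_ae (Eventually.of_forall fun σ => ?_)
          ring
      _ = (f w * |h v|) * (1 / 2 * (nsq w - nsq v) *
            ∫ σ, kerB γ b ε v w σ * (Zn (v, w, σ) * (1 - cosTh v w σ)) ∂(surf d)) := by
          rw [integral_const_mul, e1]
      _ = ∫ σ, (f w * |h v| * (1 / 2 * (nsq w - nsq v))) *
            (kerB γ b ε v w σ * (Zn (v, w, σ) * (1 - cosTh v w σ))) ∂(surf d) := by
          rw [integral_const_mul]; ring
      _ = _ := by
          refine integral_congr_ae (Eventually.of_forall fun σ => ?_)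
          ring
  have s4 : ∫ p, kerB γ b ε p.1 p.2.1 p.2.2 *
      (f p.2.1 * |h p.1| * ((1 / 2 * (nsq p.2.1 - nsq p.1)) * (Zn p * (1 - cosTh p.1 p.2.1 p.2.2))))
      ∂(mu3 d) ≤ ∫ p, kerB γ b ε p.1 p.2.1 p.2.2 *
      ((f p.2.1 * |h p.1| * (1 / 2 * nsq p.2.1)) * (Zn p * (1 - cosTh p.1 p.2.1 p.2.2)))
      ∂(mu3 d) := by
    refine integral_mono_ae i3 i4 ?_
    filter_upwards [hgood] with p hp
    refine mul_le_mul_of_nonneg_left ?_ (kerB_nonneg H.bd hε hp.2)
    have e1 : 0 ≤ Zn p * (1 - cosTh p.1 p.2.1 p.2.2) := mul_nonneg (Zn_nonneg p) (one_sub_cosTh_nonneg hp.2)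
    have e2 : 0 ≤ f p.2.1 * |h p.1| := mul_nonneg (hf.nonneg _) (abs_nonneg _)
    have e3 := sq_nonneg' p.1
    have e4 : 0 ≤ f p.2.1 * |h p.1| * (1 / 2 * nsq p.1 * (Zn p * (1 - cosTh p.1 p.2.1 p.2.2))) := by
      positivity
    nlinarith
  -- the product majorant
  obtain ⟨K2, hK2, hmom2⟩ := mom_le d Cl 2
  have hjm : Measurable fun v : Vec d => jb v := by
    unfold jb
    exact (measurable_const.add continuous_sq.measurable).sqrt
  have j1 : Integrable fun v : Vec d => |h v| * jb v ^ 2 := by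
    have a1 := (hmom2 f hf).1.add (hmom2 g hg).1
    refine a1.mono' ((hhc.abs.measurable.mul (hjm.pow_const 2)).aestronglyMeasurable)
      (Eventually.of_forall fun v => ?_)
    rw [Real.norm_eq_abs, abs_of_nonneg (mul_nonneg (abs_nonneg _) (sq_nonneg _))]
    have a2 : |h v| ≤ f v + g v := by
      rw [abs_le]
      have := hf.nonneg v
      have := hg.nonneg v
      constructor <;> simp only [hh] <;> linarith
    simp only [Pi.add_apply]
    have := mul_le_mul_of_nonneg_right a2 (sq_nonneg (jb v))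
    linarith
  obtain ⟨j2, j3⟩ := hmom f hf
  have j4 : Integrable (fun q : Vec d × Vec d => (|h q.1| * jb q.1 ^ 2) * (f q.2 * jb q.2 ^ 4)) :=
    j1.mul_prod j2
  have hpt : ∀ q : Vec d × Vec d, (f q.2 * |h q.1| * (1 / 2 * nsq q.2)) * (A * len (q.1 - q.2) ^ γ) ≤
      A * ((|h q.1| * jb q.1 ^ 2) * (f q.2 * jb q.2 ^ 4)) := by
    rintro ⟨v, w⟩
    have e1 := NrA_len h0 H.g2 (v - w)
    have e2 := one_add_nsq_sub v w
    have e3 : nsq w ≤ jb w ^ 2 := by rw [NrA_jb]; linarith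
    have e0 := sq_nonneg' w
    have e4 : 1 / 2 * nsq w * len (v - w) ^ γ ≤ jb v ^ 2 * jb w ^ 4 := by
      calc 1 / 2 * nsq w * len (v - w) ^ γ ≤ 1 / 2 * jb w ^ 2 * (2 * (jb v ^ 2 * jb w ^ 2)) :=
            mul_le_mul (by linarith) (e1.trans e2) (Real.rpow_nonneg (len_nonneg _) _) (by positivity)
        _ = _ := by ring
    have e5 : 0 ≤ f w * |h v| * A := mul_nonneg (mul_nonneg (hf.nonneg _) (abs_nonneg _)) hA
    have e6 := mul_le_mul_of_nonneg_left e4 e5
    simp only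
    linarith
  have hP0 : ∀ q : Vec d × Vec d, 0 ≤ f q.2 * |h q.1| * (1 / 2 * nsq q.2) := fun q =>
    mul_nonneg (mul_nonneg (hf.nonneg _) (abs_nonneg _)) (mul_nonneg (by norm_num) (sq_nonneg' _))
  have hB0 : ∀ q : Vec d × Vec d, 0 ≤ A * len (q.1 - q.2) ^ γ := fun q =>
    mul_nonneg hA (Real.rpow_nonneg (len_nonneg _) _)
  have hPm : Measurable fun q : Vec d × Vec d => f q.2 * |h q.1| * (1 / 2 * nsq q.2) :=
    (((hfc.comp continuous_snd).mul (hhc.comp continuous_fst).abs).measurable).mul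
      (measurable_const.mul (continuous_sq.comp continuous_snd).measurable)
  have hlm : Measurable fun q : Vec d × Vec d => A * len (q.1 - q.2) ^ γ := by
    have h1 : Measurable fun q : Vec d × Vec d => len (q.1 - q.2) :=
      (continuous_len.comp (by fun_prop : Continuous fun q : Vec d × Vec d => q.1 - q.2)).measurable
    exact measurable_const.mul (h1.pow_const γ)
  have hI : Integrable (fun q : Vec d × Vec d => (f q.2 * |h q.1| * (1 / 2 * nsq q.2)) *
      (A * len (q.1 - q.2) ^ γ)) := by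
    refine (j4.const_mul A).mono' (hPm.mul hlm).aestronglyMeasurable (Eventually.of_forall fun q => ?_)
    rw [Real.norm_eq_abs, abs_of_nonneg (mul_nonneg (hP0 q) (hB0 q))]
    exact hpt q
  have s5 : ∫ p, kerB γ b ε p.1 p.2.1 p.2.2 *
      ((f p.2.1 * |h p.1| * (1 / 2 * nsq p.2.1)) * (Zn p * (1 - cosTh p.1 p.2.1 p.2.2)))
      ∂(mu3 d) ≤ ∫ q : Vec d × Vec d, (f q.2 * |h q.1| * (1 / 2 * nsq q.2)) *
      (A * len (q.1 - q.2) ^ γ) := by
    refine fub_le H hε (X := fun p => Zn p * (1 - cosTh p.1 p.2.1 p.2.2))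
      (P := fun q => f q.2 * |h q.1| * (1 / 2 * nsq q.2)) (B := fun q => A * len (q.1 - q.2) ^ γ)
      (Zn_meas.mul mcos) (fun v w σ hσ => mul_nonneg (Zn_nonneg _) (one_sub_cosTh_nonneg hσ))
      hPm hP0 hB0 (fun v w hvw => ?_) hI
    obtain ⟨a1, a2⟩ := hang ε hε v w hvw
    have a3 : 0 ≤ᵐ[surf d] fun σ => kerB γ b ε v w σ * (Zn (v, w, σ) * (1 - cosTh v w σ)) := by
      filter_upwards [surf_ae] with σ hσ
      exact mul_nonneg (kerB_nonneg H.bd hε hσ) (mul_nonneg (Zn_nonneg _) (one_sub_cosTh_nonneg hσ))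
    have a4 := ofReal_integral_eq_lintegral_ofReal a1 a3
    simp only
    rw [← a4]
    exact ENNReal.ofReal_le_ofReal a2
  rw [s1]
  refine (s2.trans (s3.le.trans (s4.trans s5))).trans ?_
  calc ∫ q : Vec d × Vec d, (f q.2 * |h q.1| * (1 / 2 * nsq q.2)) * (A * len (q.1 - q.2) ^ γ)
      ≤ ∫ q : Vec d × Vec d, A * ((|h q.1| * jb q.1 ^ 2) * (f q.2 * jb q.2 ^ 4)) :=
        integral_mono hI (j4.const_mul A) hpt
    _ = A * ((∫ v, |h v| * jb v ^ 2) * ∫ w, f w * jb w ^ 4) := by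
        rw [integral_const_mul]
        congr 1
        exact integral_prod_mul (fun v : Vec d => |h v| * jb v ^ 2) (fun w : Vec d => f w * jb w ^ 4)
    _ ≤ A * ((∫ v, |h v| * jb v ^ 2) * K) := by
        refine mul_le_mul_of_nonneg_left (mul_le_mul_of_nonneg_left j3 ?_) hA
        exact integral_nonneg fun v => mul_nonneg (abs_nonneg _) (sq_nonneg _)
    _ = A * K * N2 h := by unfold N2; ring

end Pool.Agent.H48.PD
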