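import Pool.Agent.H48.PD.CanZ

/-!
# Module CanW: the cancellation for fixed `v`, near part

`kerB Zn = len^γ bp(cosTh) ct(len (post - v))` (`bp_ker` of H87/PE/CanA, definition of `Zn`; `ofReal` of both sides). `coll_cv` (BK/Coll) with `β = bp b ε` and `Φ(w',v') = ofReal (ct (len (v' - v))) Ψ(w')` (the `v` is fixed, so this is allowed):
`∫∫ ofReal(len^γ bp) ofReal(ct(len(post - v))) Ψ(post') = ∫_m ∫_{m·σ>0} ofReal(|m|^γ Kn) ofReal(ct(len(hh σ m))) Ψ(v - m)` (`v + hh - v = hh`). Then `canZ` for fixed `m`, and `w = v - m` (`lintegral_sub_left_eq_self`), `cosTh v (v-m) σ = dot (dir m) σ`,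
`len (post - v) = len m √((1-x)/2)` (`len_post_sub`). Proof of `CanB_v` in H87/PE/CanB is the model.
-/

set_option autoImplicit false

open MeasureTheory Set Filter Topology Pool.Agent.H25.Kin Pool.Agent.H48.PL Pool.Agent.H87.PE
open scoped ENNReal

namespace Pool.Agent.H48.PD

variable {d : ℕ} {γ s C Ca : ℝ} {b : ℝ → ℝ}

open Pool.Agent.H82.BK (bcut Kn hh co dir coll_cv)

private theorem CanW_eq (γ : ℝ) (b : ℝ → ℝ) (ε : ℝ) (v w σ : Vec d) :
    ENNReal.ofReal (kerB γ b ε v w σ * Zn (v, w, σ)) =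
      ENNReal.ofReal (len (v - w) ^ γ * bp b ε (cosTh v w σ)) *
        ENNReal.ofReal (ct (len (post v w σ - v))) := by
  rw [← ENNReal.ofReal_mul' (ct_nonneg _)]
  congr 1
  rw [bp_ker]
  unfold Zn
  simp only
  split_ifs
  · rfl
  · rw [mul_zero, zero_mul]

private theorem CanW_Kn (hb : Measurable b) (ε : ℝ) (m : Vec d) :
    Measurable fun σ : Vec d => ENNReal.ofReal (Kn d γ (bp b ε) (co m σ) * ct (len (hh σ m))) := by
  have h1 : Measurable fun σ : Vec d => co m σ := by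
    unfold co
    exact (dot_cont m).measurable.div_const _
  have h2 : Measurable fun c : ℝ => Kn d γ (bp b ε) c := by
    unfold Kn
    exact ((measurable_id.pow_const _).const_mul _).mul
      ((bp_meas hb ε).comp (((measurable_id.pow_const 2).const_mul 2).sub_const 1))
  have h3 : Measurable fun σ : Vec d => hh σ m :=
    Pool.Agent.H82.BK.measurable_hh.comp (g := fun q : Vec d × Vec d => hh q.2 q.1)
      (f := fun σ : Vec d => ((m, σ) : Vec d × Vec d)) (measurable_const.prodMk measurable_id)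
  exact ((h2.comp h1).mul ((ct_cont.comp continuous_len).measurable.comp h3)).ennreal_ofReal

private theorem CanW_bp (hb : Measurable b) (ε : ℝ) (m : Vec d) :
    Measurable fun σ : Vec d => ENNReal.ofReal (bp b ε (dot (dir m) σ) *
      ct (len m * Real.sqrt ((1 - dot (dir m) σ) / 2))) := by
  have h1 := (bp_meas hb ε).comp (dot_cont (dir m)).measurable
  have h2 : Continuous fun σ : Vec d => len m * Real.sqrt ((1 - dot (dir m) σ) / 2) :=
    continuous_const.mul (Real.continuous_sqrt.comp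
      ((continuous_const.sub (dot_cont (dir m))).div_const 2))
  exact (h1.mul (ct_cont.comp h2).measurable).ennreal_ofReal

private theorem CanW_1 (H : Hyp d γ s b C Ca) (ε : ℝ) {Ψ : Vec d → ℝ≥0∞} (hΨ : Measurable Ψ)
    (v : Vec d) :
    ∫⁻ w, ∫⁻ σ, ENNReal.ofReal (kerB γ b ε v w σ * Zn (v, w, σ)) * Ψ (post' v w σ) ∂(surf d) =
      ∫⁻ m, (ENNReal.ofReal (len m ^ γ) * Ψ (v - m)) * ∫⁻ σ in {σ : Vec d | 0 < dot m σ},
        ENNReal.ofReal (Kn d γ (bp b ε) (co m σ) * ct (len (hh σ m))) ∂(surf d) := by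
  have hbp := bp_meas H.bm ε
  have hm : Measurable fun p : Vec d × Vec d => ENNReal.ofReal (ct (len (p.2 - v))) * Ψ p.1 := by
    have h1 : Measurable fun p : Vec d × Vec d => ct (len (p.2 - v)) :=
      (ct_cont.comp (continuous_len.comp (by fun_prop : Continuous fun p : Vec d × Vec d =>
        p.2 - v))).measurable
    exact h1.ennreal_ofReal.mul (hΨ.comp measurable_fst)
  have hcv := coll_cv H.hd γ hbp (Φ := fun a c => ENNReal.ofReal (ct (len (c - v))) * Ψ a) hm v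
  have e1 : ∫⁻ w, ∫⁻ σ, ENNReal.ofReal (kerB γ b ε v w σ * Zn (v, w, σ)) * Ψ (post' v w σ)
      ∂(surf d) = ∫⁻ w, ∫⁻ σ, ENNReal.ofReal (len (v - w) ^ γ * bp b ε (cosTh v w σ)) *
        (ENNReal.ofReal (ct (len (post v w σ - v))) * Ψ (post' v w σ)) ∂(surf d) := by
    refine lintegral_congr fun w => lintegral_congr fun σ => ?_
    rw [CanW_eq, mul_assoc]
  rw [e1, hcv]
  refine lintegral_congr fun m => ?_
  rw [← lintegral_const_mul _ (CanW_Kn H.bm ε m)]
  refine lintegral_congr fun σ => ?_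
  have hl := Real.rpow_nonneg (len_nonneg m) γ
  rw [ENNReal.ofReal_mul hl, ENNReal.ofReal_mul' (ct_nonneg _), add_sub_cancel_left]
  ring

private theorem CanW_2 (H : Hyp d γ s b C Ca) (ε : ℝ) (Ψ : Vec d → ℝ≥0∞) (v : Vec d) :
    ∫⁻ w, ∫⁻ σ, ENNReal.ofReal (kerB γ b ε v w σ * Zn (v, w, σ)) * Ψ w ∂(surf d) =
      ∫⁻ m, (ENNReal.ofReal (len m ^ γ) * Ψ (v - m)) * ∫⁻ σ,
        ENNReal.ofReal (bp b ε (dot (dir m) σ) *
          ct (len m * Real.sqrt ((1 - dot (dir m) σ) / 2))) ∂(surf d) := by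
  rw [← lintegral_sub_left_eq_self (fun w => ∫⁻ σ, ENNReal.ofReal (kerB γ b ε v w σ *
    Zn (v, w, σ)) * Ψ w ∂(surf d)) v]
  have hne : Nonempty (Fin d) := ⟨⟨0, by have := H.hd1; omega⟩⟩
  have h0 : ∀ᵐ m : Vec d ∂volume, m ∉ ({0} : Set (Vec d)) :=
    (Set.countable_singleton 0).ae_notMem volume
  refine lintegral_congr_ae ?_
  filter_upwards [h0] with m hm0
  have hm : m ≠ 0 := fun h => hm0 h
  have hl := Real.rpow_nonneg (len_nonneg m) γ
  have e1 : ∀ σ, cosTh v (v - m) σ = dot (dir m) σ := fun σ => by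
    rw [cosTh_eq]
    unfold dirk dir
    rw [sub_sub_cancel]
  have hv : v ≠ v - m := fun h => hm (by
    have h1 : v - (v - m) = v - v := by rw [← h]
    rwa [sub_sub_cancel, sub_self] at h1)
  rw [← lintegral_const_mul _ (CanW_bp H.bm ε m)]
  refine lintegral_congr_ae ?_
  filter_upwards [surf_ae] with σ hσ
  rw [CanW_eq, len_post_sub hv hσ, e1, sub_sub_cancel, ENNReal.ofReal_mul hl,
    ENNReal.ofReal_mul' (ct_nonneg _)]
  ring

theorem canW (H : Hyp d γ s b C Ca) : ∃ K : ℝ, 0 ≤ K ∧ ∀ ε : ℝ, 0 < ε → ∀ Ψ : Vec d → ℝ≥0∞, Measurable Ψ →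
    ∀ v : Vec d,
    (∫⁻ w, ∫⁻ σ, ENNReal.ofReal (kerB γ b ε v w σ * Zn (v, w, σ)) * Ψ (post' v w σ) ∂(surf d) ≤
      (∫⁻ w, ∫⁻ σ, ENNReal.ofReal (kerB γ b ε v w σ * Zn (v, w, σ)) * Ψ w ∂(surf d)) +
        ENNReal.ofReal K * ∫⁻ w, ENNReal.ofReal (len (v - w) ^ γ) * Ψ w) ∧
    (∫⁻ w, ∫⁻ σ, ENNReal.ofReal (kerB γ b ε v w σ * Zn (v, w, σ)) * Ψ w ∂(surf d) ≤
      (∫⁻ w, ∫⁻ σ, ENNReal.ofReal (kerB γ b ε v w σ * Zn (v, w, σ)) * Ψ (post' v w σ) ∂(surf d)) +
        ENNReal.ofReal K * ∫⁻ w, ENNReal.ofReal (len (v - w) ^ γ) * Ψ w) := by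
  obtain ⟨K, hK0, hK⟩ := canZ H
  refine ⟨K, hK0, fun ε hε Ψ hΨ v => ?_⟩
  have hne : Nonempty (Fin d) := ⟨⟨0, by have := H.hd1; omega⟩⟩
  have h0 : ∀ᵐ m : Vec d ∂volume, m ∉ ({0} : Set (Vec d)) :=
    (Set.countable_singleton 0).ae_notMem volume
  have e3 : ∫⁻ w, ENNReal.ofReal (len (v - w) ^ γ) * Ψ w =
      ∫⁻ m, ENNReal.ofReal (len m ^ γ) * Ψ (v - m) := by
    rw [← lintegral_sub_left_eq_self (fun w => ENNReal.ofReal (len (v - w) ^ γ) * Ψ w) v]
    refine lintegral_congr fun m => ?_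
    rw [sub_sub_cancel]
  have mW : Measurable fun m : Vec d => ENNReal.ofReal (len m ^ γ) * Ψ (v - m) :=
    (continuous_len.measurable.pow_const γ).ennreal_ofReal.mul
      (hΨ.comp (measurable_const.sub measurable_id))
  rw [CanW_1 H ε hΨ v, CanW_2 H ε Ψ v, e3, ← lintegral_const_mul _ mW]
  constructor
  · rw [← lintegral_add_right _ (mW.const_mul _)]
    refine lintegral_mono_ae ?_
    filter_upwards [h0] with m hm0
    have hm : m ≠ 0 := fun h => hm0 h
    rw [mul_comm (ENNReal.ofReal K), ← mul_add]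
    gcongr
    exact (hK ε hε m hm).1
  · rw [← lintegral_add_right _ (mW.const_mul _)]
    refine lintegral_mono_ae ?_
    filter_upwards [h0] with m hm0
    have hm : m ≠ 0 := fun h => hm0 h
    rw [mul_comm (ENNReal.ofReal K), ← mul_add]
    gcongr
    exact (hK ε hε m hm).2

end Pool.Agent.H48.PD
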