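import Pool.Agent.H48.PD.Itg
import Pool.Agent.H48.PD.CanW

/-!
# Module NrC: the near part of `h_w g_v`, cancellation term

`nrC_pos`: for `h ≥ 0` (`RD`, continuous), `G` measurable with `|G v| ≤ ` rapidly decaying (`G = g sj`): `|∫ kerB Zn (h(post') - h_w) G_v| ≤ K HG γ h G`. Split `G = G⁺ - G⁻`; for `G ≥ 0` both integrals `∫ kerB Zn h(post') G_v`, `∫ kerB Zn h_w G_v` are finite
(`DB_int`, `DB_near`, `DB_pair`) and equal to lintegrals; Fubini (`v` outermost), `canW` with `Ψ = ofReal ∘ h`, multiply by `ofReal (G v)`, integrate.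
`nrC`: `h = h⁺ - h⁻` (`h⁺ = max h 0` is `RD` and continuous).
`nrC_le`: `G = g sj(h)`: `|G v| ≤ g v jb v²`, `L^γ ≤ 1 + L² ≤ 2 jb v² jb w²`: `HG γ h G ≤ 2 N2 h ∫ g jb⁴ ≤ K N2 h` (`mom_le`).
-/

set_option autoImplicit false

open MeasureTheory Set Filter Topology Pool.Agent.H25.Kin Pool.Agent.H48.PL Pool.Agent.H87.PE
open scoped ENNReal

namespace Pool.Agent.H48.PD

variable {d : ℕ} {γ s C Ca : ℝ} {b : ℝ → ℝ}

/-- the integrand -/
private noncomputable def nrC_F (γ : ℝ) (b : ℝ → ℝ) (ε : ℝ) (h G : Vec d → ℝ)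
    (p : Vec d × Vec d × Vec d) : ℝ :=
  kerB γ b ε p.1 p.2.1 p.2.2 * (Zn p * ((h (post' p.1 p.2.1 p.2.2) - h p.2.1) * G p.1))

/-- the first part -/
private noncomputable def nrC_A (γ : ℝ) (b : ℝ → ℝ) (ε : ℝ) (h G : Vec d → ℝ)
    (p : Vec d × Vec d × Vec d) : ℝ :=
  kerB γ b ε p.1 p.2.1 p.2.2 * (Zn p * (h (post' p.1 p.2.1 p.2.2) * G p.1))

/-- the second part -/
private noncomputable def nrC_B (γ : ℝ) (b : ℝ → ℝ) (ε : ℝ) (h G : Vec d → ℝ)
    (p : Vec d × Vec d × Vec d) : ℝ :=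
  kerB γ b ε p.1 p.2.1 p.2.2 * (Zn p * (h p.2.1 * G p.1))

private theorem nrC_split (ε : ℝ) (h G : Vec d → ℝ) (p : Vec d × Vec d × Vec d) :
    nrC_F γ b ε h G p = nrC_A γ b ε h G p - nrC_B γ b ε h G p := by
  unfold nrC_F nrC_A nrC_B
  ring

private theorem nrC_mA (H : Hyp d γ s b C Ca) (ε : ℝ) {h G : Vec d → ℝ} (hm : Measurable h)
    (gm : Measurable G) : Measurable (nrC_A (d := d) γ b ε h G) := by
  have mpost' := (continuous_post' (d := d)).measurable
  exact (measurable_kerB γ H.bm ε).mul (Zn_meas.mul ((hm.comp mpost').mul (gm.comp measurable_fst)))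

private theorem nrC_mB (H : Hyp d γ s b C Ca) (ε : ℝ) {h G : Vec d → ℝ} (hm : Measurable h)
    (gm : Measurable G) : Measurable (nrC_B (d := d) γ b ε h G) := by
  have mw : Measurable fun p : Vec d × Vec d × Vec d => p.2.1 := measurable_fst.comp measurable_snd
  exact (measurable_kerB γ H.bm ε).mul (Zn_meas.mul ((hm.comp mw).mul (gm.comp measurable_fst)))

private theorem nrC_iA (H : Hyp d γ s b C Ca) {ε : ℝ} (hε : 0 < ε) {h G : Vec d → ℝ} (hh : RD h)
    (hm : Measurable h) (hG : RD G) (gm : Measurable G) :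
    Integrable (nrC_A (d := d) γ b ε h G) (mu3 d) := by
  have mpost' := (continuous_post' (d := d)).measurable
  exact DB_int H hε (P := fun p => Zn p * (h (post' p.1 p.2.1 p.2.2) * G p.1))
    (Zn_meas.mul ((hm.comp mpost').mul (gm.comp measurable_fst))) (DB_near hh hG)

private theorem nrC_iB (H : Hyp d γ s b C Ca) {ε : ℝ} (hε : 0 < ε) {h G : Vec d → ℝ} (hh : RD h)
    (hm : Measurable h) (hG : RD G) (gm : Measurable G) :
    Integrable (nrC_B (d := d) γ b ε h G) (mu3 d) := by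
  have mw : Measurable fun p : Vec d × Vec d × Vec d => p.2.1 := measurable_fst.comp measurable_snd
  refine DB_int H hε (P := fun p => Zn p * (h p.2.1 * G p.1))
    (Zn_meas.mul ((hm.comp mw).mul (gm.comp measurable_fst))) ?_
  intro N
  obtain ⟨A, hA0, hA⟩ := DB_mul (DB_pair hh hG) (PB_Zn (d := d)) N
  refine ⟨A, hA0, fun v w σ hσ => ?_⟩
  have h1 := hA v w σ hσ
  show |Zn (v, w, σ) * (h w * G v)| ≤ A * pw N v w
  rw [mul_comm (Zn (v, w, σ))]
  exact h1

private theorem nrC_iF (H : Hyp d γ s b C Ca) {ε : ℝ} (hε : 0 < ε) {h G : Vec d → ℝ} (hh : RD h)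
    (hm : Measurable h) (hG : RD G) (gm : Measurable G) :
    Integrable (nrC_F (d := d) γ b ε h G) (mu3 d) := by
  refine ((nrC_iA H hε hh hm hG gm).sub (nrC_iB H hε hh hm hG gm)).congr
    (Eventually.of_forall fun p => ?_)
  exact (nrC_split ε h G p).symm

private theorem nrC_mH (γ : ℝ) {h G : Vec d → ℝ} (hm : Measurable h) (gm : Measurable G) :
    Measurable fun q : Vec d × Vec d => |h q.2| * |G q.1| * len (q.1 - q.2) ^ γ := by
  have h1 : Measurable fun q : Vec d × Vec d => len (q.1 - q.2) :=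
    (continuous_len.comp (by fun_prop : Continuous fun q : Vec d × Vec d => q.1 - q.2)).measurable
  exact ((measurable_abs.comp (hm.comp measurable_snd)).mul
    (measurable_abs.comp (gm.comp measurable_fst))).mul (h1.pow_const γ)

private theorem nrC_iH (H : Hyp d γ s b C Ca) {h G : Vec d → ℝ} (hh : RD h)
    (hm : Measurable h) (hG : RD G) (gm : Measurable G) :
    Integrable (fun q : Vec d × Vec d => |h q.2| * |G q.1| * len (q.1 - q.2) ^ γ) := by
  obtain ⟨A, hA0, hA⟩ := hh.bound (d + 1 + (d + 5))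
  obtain ⟨B, hB0, hB⟩ := hG.bound (d + 1 + (d + 5))
  have hI : Integrable (fun q : Vec d × Vec d => A * B * (wt d q.1 * kg γ (q.1 - q.2)))
      (volume : Measure (Vec d × Vec d)) := (kg_pair H.hd H.g1 H.g2).const_mul _
  refine hI.mono' (nrC_mH γ hm gm).aestronglyMeasurable (Eventually.of_forall fun q => ?_)
  obtain ⟨v, w⟩ := q
  have hl := Real.rpow_nonneg (len_nonneg (v - w)) γ
  have hs := sq_nonneg' (v - w)
  have hp := pw_nonneg (d + 1 + (d + 5)) v w
  have h1 := kg_bound γ (d + 1) v w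
  have h2 : |h w| * |G v| ≤ A * B * pw (d + 1 + (d + 5)) v w := by
    have a1 := hA w
    have a2 := hB v
    rw [Real.norm_eq_abs] at a1 a2
    have e : A * B * pw (d + 1 + (d + 5)) v w =
        (A * ((1 + ‖w‖) ^ (d + 1 + (d + 5)))⁻¹) * (B * ((1 + ‖v‖) ^ (d + 1 + (d + 5)))⁻¹) := by
      unfold pw
      rw [mul_pow, mul_inv]
      ring
    rw [e]
    exact mul_le_mul a1 a2 (abs_nonneg _)
      (mul_nonneg hA0 (inv_nonneg.2 (pow_nonneg (w_pos w).le _)))
  simp only [Real.norm_eq_abs]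
  rw [abs_of_nonneg (mul_nonneg (mul_nonneg (abs_nonneg _) (abs_nonneg _)) hl)]
  calc |h w| * |G v| * len (v - w) ^ γ ≤ (A * B * pw (d + 1 + (d + 5)) v w) * len (v - w) ^ γ := by
        gcongr
    _ = A * B * (len (v - w) ^ γ * 1 * pw (d + 1 + (d + 5)) v w) := by ring
    _ ≤ A * B * (len (v - w) ^ γ * (1 + nsq (v - w)) * pw (d + 1 + (d + 5)) v w) := by
        gcongr
        linarith
    _ ≤ A * B * (wt d v * kg γ (v - w)) := by
        refine mul_le_mul_of_nonneg_left ?_ (mul_nonneg hA0 hB0)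
        exact h1

/-- the case of nonnegative functions -/
private theorem nrC_pos (H : Hyp d γ s b C Ca) : ∃ K : ℝ, 0 ≤ K ∧ ∀ ε : ℝ, 0 < ε →
    ∀ h G : Vec d → ℝ, RD h → Measurable h → RD G → Measurable G → (∀ v, 0 ≤ h v) → (∀ v, 0 ≤ G v) →
    |∫ p, nrC_F γ b ε h G p ∂(mu3 d)| ≤ K * HG γ h G := by
  obtain ⟨K, hK0, hK⟩ := canW H
  refine ⟨K, hK0, fun ε hε h G hh hm hG gm h0 G0 => ?_⟩
  have i1 := nrC_iA H hε hh hm hG gm
  have i2 := nrC_iB H hε hh hm hG gm
  have i3 := nrC_iH H hh hm hG gm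
  have nK : ∀ᵐ p ∂(mu3 d), 0 ≤ kerB γ b ε p.1 p.2.1 p.2.2 := by
    filter_upwards [ae_good H.hd1] with p hp
    exact kerB_nonneg H.bd hε hp.2
  have n1 : 0 ≤ᵐ[mu3 d] nrC_A γ b ε h G := by
    filter_upwards [nK] with p hp
    exact mul_nonneg hp (mul_nonneg (Zn_nonneg p) (mul_nonneg (h0 _) (G0 _)))
  have n2 : 0 ≤ᵐ[mu3 d] nrC_B γ b ε h G := by
    filter_upwards [nK] with p hp
    exact mul_nonneg hp (mul_nonneg (Zn_nonneg p) (mul_nonneg (h0 _) (G0 _)))
  have n3 : 0 ≤ᵐ[(volume : Measure (Vec d × Vec d))]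
      fun q : Vec d × Vec d => |h q.2| * |G q.1| * len (q.1 - q.2) ^ γ :=
    Eventually.of_forall fun q =>
      mul_nonneg (mul_nonneg (abs_nonneg _) (abs_nonneg _)) (Real.rpow_nonneg (len_nonneg _) _)
  have m1 := (nrC_mA H ε hm gm).ennreal_ofReal
  have m2 := (nrC_mB H ε hm gm).ennreal_ofReal
  have m3 := (nrC_mH γ hm gm).ennreal_ofReal
  have E1 : ∫⁻ p, ENNReal.ofReal (nrC_A γ b ε h G p) ∂(mu3 d) =
      ∫⁻ v, ∫⁻ y, ENNReal.ofReal (nrC_A γ b ε h G (v, y)) ∂((volume : Measure (Vec d)).prod (surf d)) :=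
    lintegral_prod _ m1.aemeasurable
  have E2 : ∫⁻ p, ENNReal.ofReal (nrC_B γ b ε h G p) ∂(mu3 d) =
      ∫⁻ v, ∫⁻ y, ENNReal.ofReal (nrC_B γ b ε h G (v, y)) ∂((volume : Measure (Vec d)).prod (surf d)) :=
    lintegral_prod _ m2.aemeasurable
  have E3 : ∫⁻ q : Vec d × Vec d, ENNReal.ofReal (|h q.2| * |G q.1| * len (q.1 - q.2) ^ γ) =
      ∫⁻ v, ∫⁻ w, ENNReal.ofReal (|h w| * |G v| * len (v - w) ^ γ) := by
    rw [Measure.volume_eq_prod]
    exact lintegral_prod _ m3.aemeasurable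
  have m3' : Measurable fun v : Vec d => ∫⁻ w, ENNReal.ofReal (|h w| * |G v| * len (v - w) ^ γ) :=
    m3.lintegral_prod_right'
  have mB' : Measurable fun v : Vec d => ∫⁻ y, ENNReal.ofReal (nrC_B γ b ε h G (v, y))
      ∂((volume : Measure (Vec d)).prod (surf d)) := m2.lintegral_prod_right'
  have mA' : Measurable fun v : Vec d => ∫⁻ y, ENNReal.ofReal (nrC_A γ b ε h G (v, y))
      ∂((volume : Measure (Vec d)).prod (surf d)) := m1.lintegral_prod_right'
  -- the fibres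
  have fA : ∀ v : Vec d, ∫⁻ y, ENNReal.ofReal (nrC_A γ b ε h G (v, y))
      ∂((volume : Measure (Vec d)).prod (surf d)) =
      ∫⁻ w, ∫⁻ σ, ENNReal.ofReal (kerB γ b ε v w σ * Zn (v, w, σ)) *
        ENNReal.ofReal (h (post' v w σ) * G v) ∂(surf d) := by
    intro v
    have m1' : Measurable fun y : Vec d × Vec d => ENNReal.ofReal (nrC_A γ b ε h G (v, y)) :=
      m1.comp measurable_prodMk_left
    rw [lintegral_prod _ m1'.aemeasurable]
    refine lintegral_congr fun w => lintegral_congr fun σ => ?_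
    rw [← ENNReal.ofReal_mul' (mul_nonneg (h0 _) (G0 _))]
    unfold nrC_A
    rw [mul_assoc]
  have fB : ∀ v : Vec d, ∫⁻ y, ENNReal.ofReal (nrC_B γ b ε h G (v, y))
      ∂((volume : Measure (Vec d)).prod (surf d)) =
      ∫⁻ w, ∫⁻ σ, ENNReal.ofReal (kerB γ b ε v w σ * Zn (v, w, σ)) *
        ENNReal.ofReal (h w * G v) ∂(surf d) := by
    intro v
    have m2' : Measurable fun y : Vec d × Vec d => ENNReal.ofReal (nrC_B γ b ε h G (v, y)) :=
      m2.comp measurable_prodMk_left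
    rw [lintegral_prod _ m2'.aemeasurable]
    refine lintegral_congr fun w => lintegral_congr fun σ => ?_
    rw [← ENNReal.ofReal_mul' (mul_nonneg (h0 _) (G0 _))]
    unfold nrC_B
    rw [mul_assoc]
  have fC : ∀ v : Vec d, ENNReal.ofReal K * ∫⁻ w, ENNReal.ofReal (len (v - w) ^ γ) *
        ENNReal.ofReal (h w * G v) =
      ENNReal.ofReal K * ∫⁻ w, ENNReal.ofReal (|h w| * |G v| * len (v - w) ^ γ) := by
    intro v
    congr 1
    refine lintegral_congr fun w => ?_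
    rw [← ENNReal.ofReal_mul (Real.rpow_nonneg (len_nonneg _) _), abs_of_nonneg (h0 w),
      abs_of_nonneg (G0 v), mul_comm]
  have mΨ : ∀ v : Vec d, Measurable fun u : Vec d => ENNReal.ofReal (h u * G v) := fun v =>
    (hm.mul_const _).ennreal_ofReal
  have key1 : ∫⁻ p, ENNReal.ofReal (nrC_A γ b ε h G p) ∂(mu3 d) ≤
      (∫⁻ p, ENNReal.ofReal (nrC_B γ b ε h G p) ∂(mu3 d)) +
      ENNReal.ofReal K * ∫⁻ q : Vec d × Vec d, ENNReal.ofReal
        (|h q.2| * |G q.1| * len (q.1 - q.2) ^ γ) := by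
    rw [E1, E2, E3, ← lintegral_const_mul _ m3', ← lintegral_add_right _ (m3'.const_mul _)]
    refine lintegral_mono fun v => ?_
    have k1 := (hK ε hε _ (mΨ v) v).1
    rw [fC v] at k1
    simp only [fA, fB]
    exact k1
  have key2 : ∫⁻ p, ENNReal.ofReal (nrC_B γ b ε h G p) ∂(mu3 d) ≤
      (∫⁻ p, ENNReal.ofReal (nrC_A γ b ε h G p) ∂(mu3 d)) +
      ENNReal.ofReal K * ∫⁻ q : Vec d × Vec d, ENNReal.ofReal
        (|h q.2| * |G q.1| * len (q.1 - q.2) ^ γ) := by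
    rw [E1, E2, E3, ← lintegral_const_mul _ m3', ← lintegral_add_right _ (m3'.const_mul _)]
    refine lintegral_mono fun v => ?_
    have k1 := (hK ε hε _ (mΨ v) v).2
    rw [fC v] at k1
    simp only [fA, fB]
    exact k1
  have f1 : ∫ p, nrC_A γ b ε h G p ∂(mu3 d) =
      (∫⁻ p, ENNReal.ofReal (nrC_A γ b ε h G p) ∂(mu3 d)).toReal :=
    integral_eq_lintegral_of_nonneg_ae n1 i1.1
  have f2 : ∫ p, nrC_B γ b ε h G p ∂(mu3 d) =
      (∫⁻ p, ENNReal.ofReal (nrC_B γ b ε h G p) ∂(mu3 d)).toReal :=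
    integral_eq_lintegral_of_nonneg_ae n2 i2.1
  have f3 : HG γ h G = (∫⁻ q : Vec d × Vec d, ENNReal.ofReal
      (|h q.2| * |G q.1| * len (q.1 - q.2) ^ γ)).toReal :=
    integral_eq_lintegral_of_nonneg_ae n3 i3.1
  have t1 : ∫⁻ p, ENNReal.ofReal (nrC_A γ b ε h G p) ∂(mu3 d) ≠ ⊤ :=
    ((hasFiniteIntegral_iff_ofReal n1).1 i1.2).ne
  have t2 : ∫⁻ p, ENNReal.ofReal (nrC_B γ b ε h G p) ∂(mu3 d) ≠ ⊤ :=
    ((hasFiniteIntegral_iff_ofReal n2).1 i2.2).ne
  have t3 : ∫⁻ q : Vec d × Vec d, ENNReal.ofReal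
      (|h q.2| * |G q.1| * len (q.1 - q.2) ^ γ) ≠ ⊤ :=
    ((hasFiniteIntegral_iff_ofReal n3).1 i3.2).ne
  have t4 : ENNReal.ofReal K * ∫⁻ q : Vec d × Vec d, ENNReal.ofReal
      (|h q.2| * |G q.1| * len (q.1 - q.2) ^ γ) ≠ ⊤ := ENNReal.mul_ne_top ENNReal.ofReal_ne_top t3
  have h5 := ENNReal.toReal_mono (ENNReal.add_ne_top.mpr ⟨t2, t4⟩) key1
  have h6 := ENNReal.toReal_mono (ENNReal.add_ne_top.mpr ⟨t1, t4⟩) key2
  rw [ENNReal.toReal_add t2 t4, ENNReal.toReal_mul, ENNReal.toReal_ofReal hK0, ← f1, ← f2, ← f3] at h5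
  rw [ENNReal.toReal_add t1 t4, ENNReal.toReal_mul, ENNReal.toReal_ofReal hK0, ← f1, ← f2, ← f3] at h6
  have e : ∫ p, nrC_F γ b ε h G p ∂(mu3 d) =
      (∫ p, nrC_A γ b ε h G p ∂(mu3 d)) - ∫ p, nrC_B γ b ε h G p ∂(mu3 d) := by
    rw [← integral_sub i1 i2]
    exact integral_congr_ae (Eventually.of_forall fun p => nrC_split ε h G p)
  rw [e, abs_le]
  constructor <;> linarith

private theorem nrC_max {h : Vec d → ℝ} (hh : RD h) : RD fun v => max (h v) 0 :=
  hh.mono 1 fun v => by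
    rw [one_mul, Real.norm_eq_abs, Real.norm_eq_abs, abs_of_nonneg (le_max_right _ _)]
    exact max_le (le_abs_self _) (abs_nonneg _)

theorem nrC (H : Hyp d γ s b C Ca) : ∃ K : ℝ, 0 ≤ K ∧ ∀ ε : ℝ, 0 < ε → ∀ h G : Vec d → ℝ, RD h →
    Continuous h → RD G → Measurable G →
    |∫ p, kerB γ b ε p.1 p.2.1 p.2.2 * (Zn p * ((h (post' p.1 p.2.1 p.2.2) - h p.2.1) * G p.1)) ∂(mu3 d)| ≤
      K * HG γ h G := by
  obtain ⟨K, hK0, hK⟩ := nrC_pos H
  refine ⟨K, hK0, fun ε hε h G hh hc hG gm => ?_⟩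
  have hm := hc.measurable
  set hp : Vec d → ℝ := fun v => max (h v) 0 with hhp
  set hn : Vec d → ℝ := fun v => max (-h v) 0 with hhn
  set gp : Vec d → ℝ := fun v => max (G v) 0 with hgp
  set gn : Vec d → ℝ := fun v => max (-G v) 0 with hgn
  have rp : RD hp := nrC_max hh
  have rn : RD hn := nrC_max hh.neg
  have sp : RD gp := nrC_max hG
  have sn : RD gn := nrC_max hG.neg
  have mp : Measurable hp := hm.max measurable_const
  have mn : Measurable hn := hm.neg.max measurable_const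
  have up : Measurable gp := gm.max measurable_const
  have un : Measurable gn := gm.neg.max measurable_const
  have p1 : ∀ v, 0 ≤ hp v := fun v => le_max_right _ _
  have p2 : ∀ v, 0 ≤ hn v := fun v => le_max_right _ _
  have p3 : ∀ v, 0 ≤ gp v := fun v => le_max_right _ _
  have p4 : ∀ v, 0 ≤ gn v := fun v => le_max_right _ _
  have d1 : ∀ v, h v = hp v - hn v := fun v => (max_zero_sub_max_neg_zero_eq_self (h v)).symm
  have d2 : ∀ v, G v = gp v - gn v := fun v => (max_zero_sub_max_neg_zero_eq_self (G v)).symm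
  have a1 : ∀ v, |h v| = hp v + hn v := fun v => (max_zero_add_max_neg_zero_eq_abs_self (h v)).symm
  have a2 : ∀ v, |G v| = gp v + gn v := fun v => (max_zero_add_max_neg_zero_eq_abs_self (G v)).symm
  have i1 := nrC_iF H hε rp mp sp up
  have i2 := nrC_iF H hε rp mp sn un
  have i3 := nrC_iF H hε rn mn sp up
  have i4 := nrC_iF H hε rn mn sn un
  have j1 := nrC_iH H rp mp sp up
  have j2 := nrC_iH H rp mp sn un
  have j3 := nrC_iH H rn mn sp up
  have j4 := nrC_iH H rn mn sn un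
  have k1 := hK ε hε hp gp rp mp sp up p1 p3
  have k2 := hK ε hε hp gn rp mp sn un p1 p4
  have k3 := hK ε hε hn gp rn mn sp up p2 p3
  have k4 := hK ε hε hn gn rn mn sn un p2 p4
  have e1 : ∫ p, kerB γ b ε p.1 p.2.1 p.2.2 *
      (Zn p * ((h (post' p.1 p.2.1 p.2.2) - h p.2.1) * G p.1)) ∂(mu3 d) =
      ((∫ p, nrC_F γ b ε hp gp p ∂(mu3 d)) - ∫ p, nrC_F γ b ε hp gn p ∂(mu3 d)) -
      ((∫ p, nrC_F γ b ε hn gp p ∂(mu3 d)) - ∫ p, nrC_F γ b ε hn gn p ∂(mu3 d)) := by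
    have i12 : Integrable (fun p => nrC_F γ b ε hp gp p - nrC_F γ b ε hp gn p) (mu3 d) := i1.sub i2
    have i34 : Integrable (fun p => nrC_F γ b ε hn gp p - nrC_F γ b ε hn gn p) (mu3 d) := i3.sub i4
    rw [← integral_sub i1 i2, ← integral_sub i3 i4, ← integral_sub i12 i34]
    refine integral_congr_ae (Eventually.of_forall fun p => ?_)
    simp only [nrC_F]
    rw [d1 (post' p.1 p.2.1 p.2.2), d1 p.2.1, d2 p.1]
    ring
  have e2 : HG γ h G = (HG γ hp gp + HG γ hp gn) + (HG γ hn gp + HG γ hn gn) := by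
    unfold HG
    have j12 : Integrable (fun q : Vec d × Vec d => |hp q.2| * |gp q.1| * len (q.1 - q.2) ^ γ +
      |hp q.2| * |gn q.1| * len (q.1 - q.2) ^ γ) := j1.add j2
    have j34 : Integrable (fun q : Vec d × Vec d => |hn q.2| * |gp q.1| * len (q.1 - q.2) ^ γ +
      |hn q.2| * |gn q.1| * len (q.1 - q.2) ^ γ) := j3.add j4
    rw [← integral_add j1 j2, ← integral_add j3 j4, ← integral_add j12 j34]
    refine integral_congr_ae (Eventually.of_forall fun q => ?_)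
    simp only
    rw [a1 q.2, a2 q.1, abs_of_nonneg (p1 q.2), abs_of_nonneg (p2 q.2), abs_of_nonneg (p3 q.1),
      abs_of_nonneg (p4 q.1)]
    ring
  rw [e1, e2]
  rw [abs_le] at k1 k2 k3 k4 ⊢
  constructor <;> nlinarith [k1.1, k1.2, k2.1, k2.2, k3.1, k3.2, k4.1, k4.2]

/-- the bound by the moments -/
private theorem nrC_mom (H : Hyp d γ s b C Ca) (h0 : 0 ≤ γ) (Cl : ℕ → ℝ) : ∃ K : ℝ, 0 ≤ K ∧
    ∀ f g : Vec d → ℝ, FB Cl f → FB Cl g →
    HG γ (fun u => f u - g u) (fun u => g u * sj (fun u => f u - g u) u) ≤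
      K * N2 fun u => f u - g u := by
  obtain ⟨K4, hK4, hk4⟩ := mom_le d Cl 4
  obtain ⟨K2, hK2, hk2⟩ := mom_le d Cl 2
  refine ⟨2 * K4, by positivity, fun f g hf hg => ?_⟩
  have hfc := hf.nice.cont
  have hgc := hg.nice.cont
  have hrd : RD fun u => f u - g u := hf.nice.rd.sub hg.nice.rd
  have hmm : Measurable fun u => f u - g u := (hfc.sub hgc).measurable
  have hG : RD fun u => g u * sj (fun u => f u - g u) u := hg.nice.rd.mul_PG (sj_PG _)
  have gm : Measurable fun u => g u * sj (fun u => f u - g u) u := hgc.measurable.mul (sj_meas hmm)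
  have i3 := nrC_iH (γ := γ) H hrd hmm hG gm
  have mjb : Measurable (jb (d := d)) := by
    unfold jb
    exact (continuous_const.add continuous_sq).sqrt.measurable
  have iN : Integrable fun u => |f u - g u| * jb u ^ 2 := by
    refine ((hk2 f hf).1.add (hk2 g hg).1).mono' ?_ (Eventually.of_forall fun u => ?_)
    · exact ((measurable_abs.comp hmm).mul (mjb.pow_const 2)).aestronglyMeasurable
    · rw [Real.norm_eq_abs, abs_of_nonneg (mul_nonneg (abs_nonneg _) (sq_nonneg _))]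
      have h1 : |f u - g u| ≤ f u + g u := by
        rw [abs_le]
        constructor
        · linarith [hf.nonneg u, hg.nonneg u]
        · linarith [hf.nonneg u, hg.nonneg u]
      calc |f u - g u| * jb u ^ 2 ≤ (f u + g u) * jb u ^ 2 := by gcongr
        _ = f u * jb u ^ 2 + g u * jb u ^ 2 := by ring
  have iP : Integrable (fun q : Vec d × Vec d => (g q.1 * jb q.1 ^ 4) *
      (|f q.2 - g q.2| * jb q.2 ^ 2)) := by
    rw [Measure.volume_eq_prod]
    exact (hk4 g hg).1.mul_prod iN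
  have hN0 : 0 ≤ N2 fun u => f u - g u :=
    integral_nonneg fun u => mul_nonneg (abs_nonneg _) (sq_nonneg _)
  have eP : ∫ q : Vec d × Vec d, (g q.1 * jb q.1 ^ 4) * (|f q.2 - g q.2| * jb q.2 ^ 2) =
      (∫ v, g v * jb v ^ 4) * N2 fun u => f u - g u := by
    rw [Measure.volume_eq_prod]
    exact integral_prod_mul (fun v => g v * jb v ^ 4) (fun w => |f w - g w| * jb w ^ 2)
  have hle : HG γ (fun u => f u - g u) (fun u => g u * sj (fun u => f u - g u) u) ≤
      ∫ q : Vec d × Vec d, 2 * ((g q.1 * jb q.1 ^ 4) * (|f q.2 - g q.2| * jb q.2 ^ 2)) := by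
    refine integral_mono i3 (iP.const_mul 2) fun q => ?_
    obtain ⟨v, w⟩ := q
    have h1 : |g v * sj (fun u => f u - g u) v| ≤ g v * jb v ^ 2 := by
      rw [abs_mul, abs_of_nonneg (hg.nonneg v)]
      exact mul_le_mul_of_nonneg_left (abs_sj_le _ v) (hg.nonneg v)
    have h2 : len (v - w) ^ γ ≤ 2 * (jb v ^ 2 * jb w ^ 2) := by
      refine le_trans ?_ (one_add_nsq_sub v w)
      have hl := len_nonneg (v - w)
      have hsq := len_sq (v - w)
      have hn := sq_nonneg' (v - w)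
      rcases le_total (len (v - w)) 1 with h | h
      · have := Real.rpow_le_one hl h h0
        linarith
      · have h3 : len (v - w) ^ γ ≤ len (v - w) ^ (2 : ℝ) := Real.rpow_le_rpow_of_exponent_le h H.g2
        rw [Real.rpow_two, hsq] at h3
        linarith
    simp only
    calc |f w - g w| * |g v * sj (fun u => f u - g u) v| * len (v - w) ^ γ
        ≤ |f w - g w| * (g v * jb v ^ 2) * (2 * (jb v ^ 2 * jb w ^ 2)) := by
          have h3 := Real.rpow_nonneg (len_nonneg (v - w)) γ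
          have h4 : 0 ≤ g v * jb v ^ 2 := mul_nonneg (hg.nonneg v) (sq_nonneg _)
          have h5 := abs_nonneg (f w - g w)
          exact mul_le_mul (mul_le_mul_of_nonneg_left h1 h5) h2 h3 (mul_nonneg h5 h4)
      _ = 2 * ((g v * jb v ^ 4) * (|f w - g w| * jb w ^ 2)) := by ring
  refine hle.trans ?_
  rw [integral_const_mul, eP, ← mul_assoc]
  exact mul_le_mul_of_nonneg_right (mul_le_mul_of_nonneg_left (hk4 g hg).2 (by norm_num)) hN0


theorem nrC_le (H : Hyp d γ s b C Ca) (h0 : 0 ≤ γ) (Cl : ℕ → ℝ) : ∃ K : ℝ, 0 ≤ K ∧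
    ∀ ε : ℝ, 0 < ε → ∀ f g : Vec d → ℝ, FB Cl f → FB Cl g →
    |∫ p, kerB γ b ε p.1 p.2.1 p.2.2 * (Zn p *
      (((f (post' p.1 p.2.1 p.2.2) - g (post' p.1 p.2.1 p.2.2)) - (f p.2.1 - g p.2.1)) *
        (g p.1 * sj (fun u => f u - g u) p.1))) ∂(mu3 d)| ≤
      K * N2 fun u => f u - g u := by
  obtain ⟨K, hK0, hK⟩ := nrC H
  obtain ⟨K', hK0', hK'⟩ := nrC_mom H h0 Cl
  refine ⟨K * K', mul_nonneg hK0 hK0', fun ε hε f g hf hg => ?_⟩
  have hfc := hf.nice.cont
  have hgc := hg.nice.cont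
  have hmm : Measurable fun u => f u - g u := (hfc.sub hgc).measurable
  have h1 := hK ε hε (fun u => f u - g u) (fun u => g u * sj (fun u => f u - g u) u)
    (hf.nice.rd.sub hg.nice.rd) (hfc.sub hgc) (hg.nice.rd.mul_PG (sj_PG _))
    (hgc.measurable.mul (sj_meas hmm))
  refine h1.trans ?_
  rw [mul_assoc]
  exact mul_le_mul_of_nonneg_left (hK' f g hf hg) hK0

end Pool.Agent.H48.PD
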