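import Pool.Agent.H48.PD.Defs

/-!
# Module Bta: `√(h² + δ²) - δ` is a classical solution

`h = f - g`, `f`, `g` classical solutions with sources `Q`, `R` on the same interval. `F = √(h² + δ²) - δ ≥ 0`. Fields: `nonneg`; `periodic`; `isCont`; `isC2` (`h² + δ² > 0`, `ContDiffAt` of `Real.sqrt` off `0`);
`decay`: `0 ≤ F ≤ |h| ≤ f + g`. `decay12`: `B(r) = √(r²+δ²) - δ`, `|B'| ≤ 1`, `0 ≤ B'' = δ²/(r²+δ²)^(3/2) ≤ 1/δ`, so `derivs F ≤ derivs h + (1/δ) (derivs h)²`, `derivs h ≤ derivs f + derivs g`: see H48/PI/BetS.lean for the same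
argument with another function (`betS_derivs`). `solves`: `transport F = h/√(h²+δ²) (transport f - transport g)`.
-/

set_option autoImplicit false

open MeasureTheory Set Filter Topology Pool.Agent.H25.Kin Pool.Agent.H48.PL

namespace Pool.Agent.H48.PD

variable {d : ℕ} {T δ : ℝ} {Q R f g : ℝ → Vec d → Vec d → ℝ}

private lemma bta_pos (hδ : 0 < δ) (r : ℝ) : 0 < r ^ 2 + δ ^ 2 := by positivity

private lemma bta_d1 (hδ : 0 < δ) (r : ℝ) :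
    HasDerivAt (fun r : ℝ => Real.sqrt (r ^ 2 + δ ^ 2) - δ) (r / Real.sqrt (r ^ 2 + δ ^ 2)) r := by
  have h1 : HasDerivAt (fun r : ℝ => r ^ 2 + δ ^ 2) (2 * r) r := by
    have := (hasDerivAt_pow 2 r).add_const (δ ^ 2)
    simpa using this
  have h2 := h1.sqrt (bta_pos hδ r).ne'
  have h3 := h2.sub_const δ
  have e : r / Real.sqrt (r ^ 2 + δ ^ 2) = 2 * r / (2 * Real.sqrt (r ^ 2 + δ ^ 2)) := by
    rw [mul_div_mul_left _ _ (two_ne_zero)]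
  rw [e]
  exact h3

private lemma bta_d2 (hδ : 0 < δ) (r : ℝ) :
    HasDerivAt (fun r : ℝ => r / Real.sqrt (r ^ 2 + δ ^ 2)) (δ ^ 2 / Real.sqrt (r ^ 2 + δ ^ 2) ^ 3) r := by
  have h1 : HasDerivAt (fun r : ℝ => r ^ 2 + δ ^ 2) (2 * r) r := by
    have := (hasDerivAt_pow 2 r).add_const (δ ^ 2)
    simpa using this
  have h2 := h1.sqrt (bta_pos hδ r).ne'
  have hs : 0 < Real.sqrt (r ^ 2 + δ ^ 2) := Real.sqrt_pos.2 (bta_pos hδ r)
  have h3 := (hasDerivAt_id r).div h2 hs.ne'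
  have hq : Real.sqrt (r ^ 2 + δ ^ 2) ^ 2 = r ^ 2 + δ ^ 2 := Real.sq_sqrt (bta_pos hδ r).le
  have e : δ ^ 2 / Real.sqrt (r ^ 2 + δ ^ 2) ^ 3 =
      (1 * Real.sqrt (r ^ 2 + δ ^ 2) - id r * (2 * r / (2 * Real.sqrt (r ^ 2 + δ ^ 2)))) /
        Real.sqrt (r ^ 2 + δ ^ 2) ^ 2 := by
    have hd : δ ^ 2 = Real.sqrt (r ^ 2 + δ ^ 2) ^ 2 - r ^ 2 := by rw [hq]; ring
    rw [id]
    generalize Real.sqrt (r ^ 2 + δ ^ 2) = s at hs hd
    rw [hd]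
    field_simp
  rw [e]
  exact h3

private lemma bta_le1 (hδ : 0 < δ) (r : ℝ) : |r / Real.sqrt (r ^ 2 + δ ^ 2)| ≤ 1 := by
  have hs : 0 < Real.sqrt (r ^ 2 + δ ^ 2) := Real.sqrt_pos.2 (bta_pos hδ r)
  rw [abs_div, abs_of_pos hs, div_le_one hs]
  apply Real.abs_le_sqrt
  nlinarith [sq_nonneg δ]

private lemma bta_geδ (hδ : 0 < δ) (r : ℝ) : δ ≤ Real.sqrt (r ^ 2 + δ ^ 2) := by
  apply Real.le_sqrt_of_sq_le
  nlinarith [sq_nonneg r]

private lemma bta_le2 (hδ : 0 < δ) (r : ℝ) : |δ ^ 2 / Real.sqrt (r ^ 2 + δ ^ 2) ^ 3| ≤ 1 / δ := by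
  have h1 := bta_geδ hδ r
  have h2 : δ ^ 3 ≤ Real.sqrt (r ^ 2 + δ ^ 2) ^ 3 := pow_le_pow_left₀ hδ.le h1 3
  have hs : 0 < Real.sqrt (r ^ 2 + δ ^ 2) := lt_of_lt_of_le hδ h1
  rw [abs_of_nonneg (by positivity), div_le_div_iff₀ (by positivity) hδ]
  nlinarith

private lemma bta_nonneg (hδ : 0 < δ) (r : ℝ) : 0 ≤ Real.sqrt (r ^ 2 + δ ^ 2) - δ :=
  sub_nonneg.2 (bta_geδ hδ r)

private lemma bta_le_abs (hδ : 0 < δ) (r : ℝ) : Real.sqrt (r ^ 2 + δ ^ 2) - δ ≤ |r| := by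
  have h1 : Real.sqrt (r ^ 2 + δ ^ 2) ≤ |r| + δ := by
    apply Real.sqrt_le_iff.2
    refine ⟨by positivity, ?_⟩
    have h2 : |r| ^ 2 = r ^ 2 := sq_abs r
    nlinarith [mul_nonneg (abs_nonneg r) hδ.le]
  linarith

private lemma bta_cd (hδ : 0 < δ) : ContDiff ℝ 2 (fun r : ℝ => Real.sqrt (r ^ 2 + δ ^ 2) - δ) :=
  (((contDiff_id.pow 2).add contDiff_const).sqrt (fun r => (bta_pos hδ r).ne')).sub contDiff_const

private lemma bta_derivs {E : Type*} [NormedAddCommGroup E] [NormedSpace ℝ E] (hδ : 0 < δ)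
    {F : E → ℝ} {s : Set E} (hs : IsOpen s) (hF : ContDiffOn ℝ 2 F s) {p : E} (hp : p ∈ s) :
    fderiv ℝ (fun q => Real.sqrt (F q ^ 2 + δ ^ 2) - δ) p =
        (F p / Real.sqrt (F p ^ 2 + δ ^ 2)) • fderiv ℝ F p ∧
      derivs (fun q => Real.sqrt (F q ^ 2 + δ ^ 2) - δ) p ≤ derivs F p + 1 / δ * derivs F p ^ 2 := by
  have hd : ∀ q ∈ s, HasFDerivAt (fun q => Real.sqrt (F q ^ 2 + δ ^ 2) - δ)
      ((F q / Real.sqrt (F q ^ 2 + δ ^ 2)) • fderiv ℝ F q) q := by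
    intro q hq
    have h1 : ContDiffAt ℝ 2 F q := (hF q hq).contDiffAt (hs.mem_nhds hq)
    have h2 : HasFDerivAt F (fderiv ℝ F q) q := (h1.differentiableAt (by norm_num)).hasFDerivAt
    exact (bta_d1 hδ (F q)).comp_hasFDerivAt q h2
  have e1 := (hd p hp).fderiv
  refine ⟨e1, ?_⟩
  have hev : fderiv ℝ (fun q => Real.sqrt (F q ^ 2 + δ ^ 2) - δ) =ᶠ[𝓝 p]
      fun q => (F q / Real.sqrt (F q ^ 2 + δ ^ 2)) • fderiv ℝ F q := by
    filter_upwards [hs.mem_nhds hp] with q hq using (hd q hq).fderiv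
  have h1 : ContDiffAt ℝ 2 F p := (hF p hp).contDiffAt (hs.mem_nhds hp)
  have h2 : HasFDerivAt F (fderiv ℝ F p) p := (h1.differentiableAt (by norm_num)).hasFDerivAt
  have h3 : HasFDerivAt (fderiv ℝ F) (fderiv ℝ (fderiv ℝ F) p) p := by
    have h4 : ContDiffAt ℝ 1 (fderiv ℝ F) p := h1.fderiv_right (by norm_num)
    exact (h4.differentiableAt (by norm_num)).hasFDerivAt
  have h5 : HasFDerivAt (fun q => F q / Real.sqrt (F q ^ 2 + δ ^ 2))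
      ((δ ^ 2 / Real.sqrt (F p ^ 2 + δ ^ 2) ^ 3) • fderiv ℝ F p) p :=
    (bta_d2 hδ (F p)).comp_hasFDerivAt p h2
  have h6 := h5.smul h3
  have e2 : fderiv ℝ (fderiv ℝ (fun q => Real.sqrt (F q ^ 2 + δ ^ 2) - δ)) p =
      (F p / Real.sqrt (F p ^ 2 + δ ^ 2)) • fderiv ℝ (fderiv ℝ F) p +
        ((δ ^ 2 / Real.sqrt (F p ^ 2 + δ ^ 2) ^ 3) • fderiv ℝ F p).smulRight (fderiv ℝ F p) := by
    rw [hev.fderiv_eq]
    exact h6.fderiv
  have b1 : ‖F p / Real.sqrt (F p ^ 2 + δ ^ 2)‖ ≤ 1 := by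
    rw [Real.norm_eq_abs]
    exact bta_le1 hδ (F p)
  have b2 := bta_le2 hδ (F p)
  have n1 : 0 ≤ ‖fderiv ℝ F p‖ := norm_nonneg _
  have n2 : 0 ≤ ‖fderiv ℝ (fderiv ℝ F) p‖ := norm_nonneg (fderiv ℝ (fderiv ℝ F) p)
  have c1 : ‖(F p / Real.sqrt (F p ^ 2 + δ ^ 2)) • fderiv ℝ F p‖ ≤ ‖fderiv ℝ F p‖ := by
    rw [norm_smul]
    exact mul_le_of_le_one_left n1 b1
  have c2 : ‖(F p / Real.sqrt (F p ^ 2 + δ ^ 2)) • fderiv ℝ (fderiv ℝ F) p‖ ≤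
      ‖fderiv ℝ (fderiv ℝ F) p‖ :=
    (ContinuousLinearMap.opNorm_smul_le _ _).trans (mul_le_of_le_one_left n2 b1)
  have c3 : ‖((δ ^ 2 / Real.sqrt (F p ^ 2 + δ ^ 2) ^ 3) • fderiv ℝ F p).smulRight (fderiv ℝ F p)‖ ≤
      1 / δ * ‖fderiv ℝ F p‖ * ‖fderiv ℝ F p‖ := by
    rw [ContinuousLinearMap.norm_smulRight_apply, norm_smul, Real.norm_eq_abs]
    gcongr
  have c4 := norm_add_le ((F p / Real.sqrt (F p ^ 2 + δ ^ 2)) • fderiv ℝ (fderiv ℝ F) p)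
    (((δ ^ 2 / Real.sqrt (F p ^ 2 + δ ^ 2) ^ 3) • fderiv ℝ F p).smulRight (fderiv ℝ F p))
  have hk : (0 : ℝ) ≤ 1 / δ := by positivity
  have c5 : 1 / δ * ‖fderiv ℝ F p‖ * ‖fderiv ℝ F p‖ ≤
      1 / δ * (‖fderiv ℝ F p‖ + ‖fderiv ℝ (fderiv ℝ F) p‖) ^ 2 := by
    rw [mul_assoc, ← pow_two]
    gcongr
    linarith
  unfold derivs
  rw [e1, e2]
  linarith

private lemma bta_sub {E : Type*} [NormedAddCommGroup E] [NormedSpace ℝ E] {F H : E → ℝ} {s : Set E}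
    (hs : IsOpen s) (hF : ContDiffOn ℝ 2 F s) (hH : ContDiffOn ℝ 2 H s) {p : E} (hp : p ∈ s) :
    fderiv ℝ (fun q => F q - H q) p = fderiv ℝ F p - fderiv ℝ H p ∧
      derivs (fun q => F q - H q) p ≤ derivs F p + derivs H p := by
  have hd : ∀ q ∈ s, HasFDerivAt (fun q => F q - H q) (fderiv ℝ F q - fderiv ℝ H q) q := by
    intro q hq
    have h1 : ContDiffAt ℝ 2 F q := (hF q hq).contDiffAt (hs.mem_nhds hq)
    have h2 : HasFDerivAt F (fderiv ℝ F q) q := (h1.differentiableAt (by norm_num)).hasFDerivAt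
    have h3 : ContDiffAt ℝ 2 H q := (hH q hq).contDiffAt (hs.mem_nhds hq)
    have h4 : HasFDerivAt H (fderiv ℝ H q) q := (h3.differentiableAt (by norm_num)).hasFDerivAt
    exact h2.sub h4
  have e1 := (hd p hp).fderiv
  refine ⟨e1, ?_⟩
  have hev : fderiv ℝ (fun q => F q - H q) =ᶠ[𝓝 p] fun q => fderiv ℝ F q - fderiv ℝ H q := by
    filter_upwards [hs.mem_nhds hp] with q hq using (hd q hq).fderiv
  have hd2 : ∀ K : E → ℝ, ContDiffOn ℝ 2 K s →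
      HasFDerivAt (fderiv ℝ K) (fderiv ℝ (fderiv ℝ K) p) p := by
    intro K hK
    have h1 : ContDiffAt ℝ 2 K p := (hK p hp).contDiffAt (hs.mem_nhds hp)
    have h4 : ContDiffAt ℝ 1 (fderiv ℝ K) p := h1.fderiv_right (by norm_num)
    exact (h4.differentiableAt (by norm_num)).hasFDerivAt
  have e2 : fderiv ℝ (fderiv ℝ (fun q => F q - H q)) p =
      fderiv ℝ (fderiv ℝ F) p - fderiv ℝ (fderiv ℝ H) p := by
    rw [hev.fderiv_eq]
    exact ((hd2 F hF).sub (hd2 H hH)).fderiv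
  have c1 := norm_sub_le (fderiv ℝ F p) (fderiv ℝ H p)
  have c2 := norm_sub_le (fderiv ℝ (fderiv ℝ F) p) (fderiv ℝ (fderiv ℝ H) p)
  unfold derivs
  rw [e1, e2]
  linarith

theorem bta_sol (hδ : 0 < δ) (hf : IsClassicalSol T Q f) (hg : IsClassicalSol T R g) :
    IsClassicalSol T
      (fun t x v => (f t x v - g t x v) / Real.sqrt ((f t x v - g t x v) ^ 2 + δ ^ 2) *
        (Q t x v - R t x v))
      (fun t x v => Real.sqrt ((f t x v - g t x v) ^ 2 + δ ^ 2) - δ) := by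
  have hs : IsOpen (Ioo (0 : ℝ) T ×ˢ (univ : Set (Vec d × Vec d))) := isOpen_Ioo.prod isOpen_univ
  have hC2 : ContDiffOn ℝ 2 (fun q => unc f q - unc g q) (Ioo 0 T ×ˢ univ) := hf.isC2.sub hg.isC2
  refine ⟨fun t ht x v => bta_nonneg hδ _, fun t ht x v i => ?_, ?_, ?_, ?_, ?_,
    fun t ht x v => ?_⟩
  · show Real.sqrt ((f t (x + Pi.single i 1) v - g t (x + Pi.single i 1) v) ^ 2 + δ ^ 2) - δ =
      Real.sqrt ((f t x v - g t x v) ^ 2 + δ ^ 2) - δ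
    rw [hf.periodic t ht x v i, hg.periodic t ht x v i]
  · exact (bta_cd hδ).continuous.comp_continuousOn (hf.isCont.sub hg.isCont)
  · exact (bta_cd hδ).comp_contDiffOn hC2
  · intro T₁ hT N
    obtain ⟨C, hCb⟩ := hf.decay T₁ hT N
    obtain ⟨D, hDb⟩ := hg.decay T₁ hT N
    refine ⟨C + D, fun t ht x v => ?_⟩
    have h1 : 0 ≤ f t x v := hf.nonneg t ⟨ht.1, lt_of_le_of_lt ht.2 hT⟩ x v
    have h2 : 0 ≤ g t x v := hg.nonneg t ⟨ht.1, lt_of_le_of_lt ht.2 hT⟩ x v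
    have h3 : Real.sqrt ((f t x v - g t x v) ^ 2 + δ ^ 2) - δ ≤ f t x v + g t x v := by
      refine (bta_le_abs hδ _).trans ?_
      rw [abs_le]
      constructor <;> linarith
    have hw : (0 : ℝ) ≤ (1 + ‖v‖) ^ N := by positivity
    calc (1 + ‖v‖) ^ N * (Real.sqrt ((f t x v - g t x v) ^ 2 + δ ^ 2) - δ)
        ≤ (1 + ‖v‖) ^ N * (f t x v + g t x v) := mul_le_mul_of_nonneg_left h3 hw
      _ = (1 + ‖v‖) ^ N * f t x v + (1 + ‖v‖) ^ N * g t x v := by ring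
      _ ≤ C + D := add_le_add (hCb t ht x v) (hDb t ht x v)
  · intro T₀ hT0 T₁ hT N
    obtain ⟨C, hCb⟩ := hf.decay12 T₀ hT0 T₁ hT N
    obtain ⟨D, hD⟩ := hf.decay12 T₀ hT0 T₁ hT 0
    obtain ⟨C', hCb'⟩ := hg.decay12 T₀ hT0 T₁ hT N
    obtain ⟨D', hD'⟩ := hg.decay12 T₀ hT0 T₁ hT 0
    refine ⟨(C + C') + 1 / δ * ((C + C') * (D + D')), fun t ht x v => ?_⟩
    have hp : (t, x, v) ∈ Ioo (0 : ℝ) T ×ˢ (univ : Set (Vec d × Vec d)) :=
      ⟨⟨lt_of_lt_of_le hT0 ht.1, lt_of_le_of_lt ht.2 hT⟩, mem_univ _⟩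
    have h1 := (bta_derivs hδ hs hC2 hp).2
    have hsub := (bta_sub hs hf.isC2 hg.isC2 hp).2
    have h2 := hCb t ht x v
    have h3 := hD t ht x v
    have h2' := hCb' t ht x v
    have h3' := hD' t ht x v
    rw [pow_zero, one_mul] at h3 h3'
    have h4 : ∀ K : ℝ × Vec d × Vec d → ℝ, 0 ≤ derivs K (t, x, v) := fun K =>
      add_nonneg (norm_nonneg _) (norm_nonneg (fderiv ℝ (fderiv ℝ K) (t, x, v)))
    have h5 : derivs12 f t x v = derivs (unc f) (t, x, v) := rfl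
    have h5' : derivs12 g t x v = derivs (unc g) (t, x, v) := rfl
    rw [h5] at h2 h3
    rw [h5'] at h2' h3'
    have hw : (0 : ℝ) ≤ (1 + ‖v‖) ^ N := by positivity
    set A := derivs (fun q => unc f q - unc g q) (t, x, v) with hA
    have hA0 : 0 ≤ A := h4 _
    have k1 : (1 + ‖v‖) ^ N * A ≤ C + C' := by
      calc (1 + ‖v‖) ^ N * A
          ≤ (1 + ‖v‖) ^ N * (derivs (unc f) (t, x, v) + derivs (unc g) (t, x, v)) :=
            mul_le_mul_of_nonneg_left hsub hw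
        _ = (1 + ‖v‖) ^ N * derivs (unc f) (t, x, v) + (1 + ‖v‖) ^ N * derivs (unc g) (t, x, v) := by
            ring
        _ ≤ C + C' := add_le_add h2 h2'
    have k2 : A ≤ D + D' := hsub.trans (add_le_add h3 h3')
    have k3 : 0 ≤ C + C' := (mul_nonneg hw hA0).trans k1
    have h7 : (1 + ‖v‖) ^ N * A * A ≤ (C + C') * (D + D') := mul_le_mul k1 k2 hA0 k3
    have hk : (0 : ℝ) ≤ 1 / δ := by positivity
    calc (1 + ‖v‖) ^ N * derivs12 (fun t x v => Real.sqrt ((f t x v - g t x v) ^ 2 + δ ^ 2) - δ) t x v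
        ≤ (1 + ‖v‖) ^ N * (A + 1 / δ * A ^ 2) := mul_le_mul_of_nonneg_left h1 hw
      _ = (1 + ‖v‖) ^ N * A + 1 / δ * ((1 + ‖v‖) ^ N * A * A) := by ring
      _ ≤ (C + C') + 1 / δ * ((C + C') * (D + D')) :=
          add_le_add k1 (mul_le_mul_of_nonneg_left h7 hk)
  · have hp : (t, x, v) ∈ Ioo (0 : ℝ) T ×ˢ (univ : Set (Vec d × Vec d)) := ⟨ht, mem_univ _⟩
    have h1 := (bta_derivs hδ hs hC2 hp).1
    have h2 := (bta_sub hs hf.isC2 hg.isC2 hp).1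
    show fderiv ℝ (fun q => Real.sqrt ((unc f q - unc g q) ^ 2 + δ ^ 2) - δ) (t, x, v) (1, v, 0) =
      (f t x v - g t x v) / Real.sqrt ((f t x v - g t x v) ^ 2 + δ ^ 2) * (Q t x v - R t x v)
    rw [h1, ← hf.solves t ht x v, ← hg.solves t ht x v, h2]
    rfl

end Pool.Agent.H48.PD
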