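import Pool.Agent.H48.PD.Zet

/-!
# Module CanZ: the angular defect of the cancellation, near part

`β = bp b ε`, `c = co m σ = dot (dir m) σ > 0`, `x = 2c² - 1`; `Kn d γ β c = 2^(d-1) c^(d-2) · c^(-d-γ) β x`, `β x ≠ 0` only for `x ≥ 0`, i.e. `c² ≥ 1/2`, where `1 ≤ c^(-(d+γ)) ≤ 1 + κ (1 - x)` (`CanA_pow` of H87/PE/CanA, private: copy it).
`len (hh σ m) = len m √(1-c²)/c = len m √((1-x)/(1+x))` (`nsq_hh` in BK: `nsq (hh σ m) = nsq m (1-c²)/c²`), compared with `r = len m √((1-x)/2)`: `r ≤ len (hh)` and, when one of the two cut-offs is not `0`, `r ≤ 2` and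
`len (hh) - r = r (√(2/(1+x)) - 1) ≤ r (1 - x) ≤ 2 (1 - x)` for `0 ≤ x ≤ 1`. So `|ct (len hh) - ct r| ≤ 2 (1 - x)` (`ct_lip`; if `r ≥ 2` both vanish).
Hence `|Kn ct(len hh) - 2^(d-1) c^(d-2) β x ct(r)| ≤ 2^(d-1) c^(d-2) (κ + 2(1 + κ)) β x (1 - x)`. Integrate over `{0 < dot m σ}` with `half_angle` (BK/HA), once with `x ↦ ofReal (β x · ct (len m √((1-x)/2)))`, once with `x ↦ ofReal (β x (1 - x))`
(both vanish at `x = -1`); the last integral is bounded by `ang_small` (`τ = 1`, `u = 2`) exactly as in `can_ang` (H87/PE/CanA).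
-/

set_option autoImplicit false

open MeasureTheory Set Filter Topology Pool.Agent.H25.Kin Pool.Agent.H48.PL Pool.Agent.H87.PE
open Pool.Agent.H82.BK (bcut Kn hh co dir)
open scoped ENNReal

namespace Pool.Agent.H48.PD

variable {d : ℕ} {γ s C Ca : ℝ} {b : ℝ → ℝ}

/-- the factor for the half angle -/
private lemma CanZ_pow {c p : ℝ} (hc : 0 < c) (hc1 : c ≤ 1) (hc2 : 1 / 2 ≤ c ^ 2) (hp : 0 ≤ p) :
    c ^ (-p) ≤ 1 + 2 ^ (p / 2) * (p + 1) / 2 * (1 - (2 * c ^ 2 - 1)) := by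
  have h1 : c ^ (-p) ≤ 2 ^ (p / 2) := by
    have e1 : c ^ (-p) = (c ^ 2) ^ (-(p / 2)) := by
      rw [← Real.rpow_natCast c 2, ← Real.rpow_mul hc.le]
      congr 1
      push_cast
      ring
    have e2 : (2 : ℝ) ^ (p / 2) = (1 / 2 : ℝ) ^ (-(p / 2)) := by
      rw [Real.rpow_neg (by norm_num), one_div, Real.inv_rpow (by norm_num), inv_inv]
    rw [e1, e2]
    exact Real.rpow_le_rpow_of_nonpos (by norm_num) hc2 (by linarith)
  have h2 := Pool.Agent.H82.BK.bernoulli_ineq hc hc1 hp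
  have h3 : c ^ (-p) * c ^ p = 1 := by
    rw [← Real.rpow_add hc, neg_add_cancel, Real.rpow_zero]
  have h4 : 0 < c ^ (-p) := Real.rpow_pos_of_pos hc _
  have h5 : c ^ p ≤ 1 := Real.rpow_le_one hc.le hc1 hp
  have h6 : 1 - c ≤ 1 - c ^ 2 := by nlinarith
  have h7 : 1 - c ^ p ≤ (p + 1) * (1 - c ^ 2) :=
    h2.trans (mul_le_mul_of_nonneg_left h6 (by linarith))
  calc c ^ (-p) = 1 + c ^ (-p) * (1 - c ^ p) := by rw [mul_sub, h3]; ring
    _ ≤ 1 + 2 ^ (p / 2) * ((p + 1) * (1 - c ^ 2)) := by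
        have h8 : c ^ (-p) * (1 - c ^ p) ≤ 2 ^ (p / 2) * ((p + 1) * (1 - c ^ 2)) :=
          mul_le_mul h1 h7 (by linarith) (by positivity)
        linarith
    _ = _ := by ring

private lemma CanZ_ct {r c : ℝ} (hr : 0 ≤ r) (hc : 0 < c) (hc1 : c ≤ 1) (hc2 : 1 / 2 ≤ c ^ 2) :
    |ct (r / c) - ct r| ≤ 2 * (1 - (2 * c ^ 2 - 1)) := by
  have h1 : r ≤ r / c := by
    rw [le_div_iff₀ hc]
    nlinarith
  have h0 : 0 ≤ 1 - (2 * c ^ 2 - 1) := by nlinarith
  by_cases h2 : 2 ≤ r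
  · rw [ct_zero h2, ct_zero (h2.trans h1), sub_zero, abs_zero]
    linarith
  · have h2' : r < 2 := not_le.1 h2
    refine (ct_lip _ _).trans ?_
    rw [abs_of_nonneg (by linarith)]
    have h3 : r / c - r = r * ((1 - c) / c) := by
      field_simp
    have h4 : (1 - c) / c ≤ 1 - (2 * c ^ 2 - 1) := by
      rw [div_le_iff₀ hc]
      nlinarith [mul_nonneg (sub_nonneg.2 hc1) hc.le, mul_nonneg (sub_nonneg.2 hc1) (by linarith : (0:ℝ) ≤ 2 * c ^ 2 - 1)]
    have h5 : 0 ≤ (1 - c) / c := div_nonneg (by linarith) hc.le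
    rw [h3]
    calc r * ((1 - c) / c) ≤ 2 * ((1 - c) / c) := mul_le_mul_of_nonneg_right h2'.le h5
      _ ≤ _ := mul_le_mul_of_nonneg_left h4 (by norm_num)

/-- pointwise comparison -/
private lemma CanZ_pt (H : Hyp d γ s b C Ca) {ε : ℝ} {c r : ℝ} (hc : 0 < c) (hc1 : c ≤ 1) (hr : 0 ≤ r)
    (hε : 0 < ε) :
    |Kn d γ (bp b ε) c * ct (r / c) - 2 ^ (d - 1) * c ^ (d - 2) * (bp b ε (2 * c ^ 2 - 1) * ct r)| ≤
      2 ^ (d - 1) * c ^ (d - 2) * ((2 ^ (((d : ℝ) + γ) / 2) * ((d : ℝ) + γ + 1) / 2 + 2) *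
        (bp b ε (2 * c ^ 2 - 1) * (1 - (2 * c ^ 2 - 1)))) := by
  unfold Kn
  by_cases h0 : 0 ≤ 2 * c ^ 2 - 1
  · by_cases h1 : 2 * c ^ 2 - 1 ≤ 1 - ε
    · have hb : bp b ε (2 * c ^ 2 - 1) = b (2 * c ^ 2 - 1) := by
        unfold Pool.Agent.H87.PE.bp bcut
        rw [if_pos h0, if_pos h1]
      have hb0 : 0 ≤ b (2 * c ^ 2 - 1) := (H.bd.2 _ (by linarith) (by linarith)).1
      have hd2 : (2 : ℝ) ≤ d := by exact_mod_cast H.hd
      have hp : 0 ≤ (d : ℝ) + γ := by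
        have := H.g1
        linarith
      have h2 := CanZ_pow hc hc1 (by linarith) hp
      have h3 : c ^ (-2 - γ) = c ^ (d - 2) * c ^ (-((d : ℝ) + γ)) := by
        rw [← Real.rpow_natCast c (d - 2), ← Real.rpow_add hc]
        congr 1
        rw [Nat.cast_sub H.hd]
        push_cast
        ring
      rw [hb, h3]
      have h4 : 0 ≤ 2 ^ (d - 1) * c ^ (d - 2) * b (2 * c ^ 2 - 1) := by positivity
      have h5 : 1 ≤ c ^ (-((d : ℝ) + γ)) :=
        Real.one_le_rpow_of_pos_of_le_one_of_nonpos hc hc1 (by linarith)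
      have h6 := CanZ_ct hr hc hc1 (by linarith)
      have h7 := ct_nonneg (r / c)
      have h8 := ct_le_one (r / c)
      set q := c ^ (-((d : ℝ) + γ)) with hq
      set κ := 2 ^ (((d : ℝ) + γ) / 2) * ((d : ℝ) + γ + 1) / 2 with hκ
      have h9 : |q * ct (r / c) - ct r| ≤ (κ + 2) * (1 - (2 * c ^ 2 - 1)) := by
        have e1 : q * ct (r / c) - ct r = (q - 1) * ct (r / c) + (ct (r / c) - ct r) := by ring
        rw [e1]
        refine (abs_add_le _ _).trans ?_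
        have h10 : |(q - 1) * ct (r / c)| ≤ κ * (1 - (2 * c ^ 2 - 1)) := by
          rw [abs_of_nonneg (mul_nonneg (by linarith) h7)]
          calc (q - 1) * ct (r / c) ≤ (q - 1) * 1 := mul_le_mul_of_nonneg_left h8 (by linarith)
            _ ≤ κ * (1 - (2 * c ^ 2 - 1)) := by linarith
        linarith
      have e2 : 2 ^ (d - 1) * (c ^ (d - 2) * q) * b (2 * c ^ 2 - 1) * ct (r / c) -
          2 ^ (d - 1) * c ^ (d - 2) * (b (2 * c ^ 2 - 1) * ct r) =
          2 ^ (d - 1) * c ^ (d - 2) * b (2 * c ^ 2 - 1) * (q * ct (r / c) - ct r) := by ring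
      rw [e2, abs_mul, abs_of_nonneg h4]
      calc 2 ^ (d - 1) * c ^ (d - 2) * b (2 * c ^ 2 - 1) * |q * ct (r / c) - ct r|
          ≤ 2 ^ (d - 1) * c ^ (d - 2) * b (2 * c ^ 2 - 1) * ((κ + 2) * (1 - (2 * c ^ 2 - 1))) :=
            mul_le_mul_of_nonneg_left h9 h4
        _ = _ := by ring
    · have hb : bp b ε (2 * c ^ 2 - 1) = 0 := by
        unfold Pool.Agent.H87.PE.bp bcut
        rw [if_pos h0, if_neg h1]
      rw [hb]
      simp
  · have hb : bp b ε (2 * c ^ 2 - 1) = 0 := by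
      unfold Pool.Agent.H87.PE.bp
      rw [if_neg h0]
    rw [hb]
    simp

private lemma CanZ_bp_nonneg (H : Hyp d γ s b C Ca) {ε : ℝ} (hε : 0 < ε) {x : ℝ} (hx : -1 ≤ x) :
    0 ≤ bp b ε x := by
  unfold Pool.Agent.H87.PE.bp bcut
  split_ifs with h4 h5
  · exact (H.bd.2 _ (by linarith) (by linarith)).1
  · exact le_rfl
  · exact le_rfl

private lemma CanZ_small (H : Hyp d γ s b C Ca) {κ : ℝ} (hκ0 : 0 ≤ κ) : ∃ K : ℝ, 0 ≤ K ∧
    ∀ ε : ℝ, 0 < ε → ∀ e : Vec d, nsq e = 1 →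
    ∫⁻ σ, ENNReal.ofReal (κ * (bp b ε (dot e σ) * (1 - dot e σ))) ∂(surf d) ≤ ENNReal.ofReal K := by
  obtain ⟨A, hA, hang⟩ := ang_small H H.hs1 le_rfl
  have hC := H.bd.1
  refine ⟨κ * C * (A * 2 ^ (1 - s)), by positivity, fun ε hε e hne => ?_⟩
  have hS : MeasurableSet {σ : Vec d | 1 - dot e σ ≤ 2} :=
    (isClosed_le (continuous_const.sub (Pool.Agent.H25.Kin.dot_cont e)) continuous_const).measurableSet
  have hm3 : Measurable fun σ : Vec d => ENNReal.ofReal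
      ((1 - dot e σ) ^ (-(((d : ℝ) - 1) / 2 + s)) * (1 - dot e σ) ^ (1 : ℝ)) := by
    have h0 : Measurable fun σ : Vec d => 1 - dot e σ :=
      (continuous_const.sub (Pool.Agent.H25.Kin.dot_cont e)).measurable
    exact ((h0.pow_const _).mul (h0.pow_const _)).ennreal_ofReal
  calc ∫⁻ σ, ENNReal.ofReal (κ * (bp b ε (dot e σ) * (1 - dot e σ))) ∂(surf d)
      ≤ ∫⁻ σ, {σ : Vec d | 1 - dot e σ ≤ 2}.indicator (fun σ => ENNReal.ofReal (κ * C) *
          ENNReal.ofReal ((1 - dot e σ) ^ (-(((d : ℝ) - 1) / 2 + s)) *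
            (1 - dot e σ) ^ (1 : ℝ))) σ ∂(surf d) := by
        refine lintegral_mono_ae ?_
        filter_upwards [surf_ae] with σ hσ
        have h1 := abs_le.1 (dot_le_one hne hσ)
        rw [indicator_of_mem (show σ ∈ {σ : Vec d | 1 - dot e σ ≤ 2} from by
          show 1 - dot e σ ≤ 2
          linarith [h1.1])]
        rw [← ENNReal.ofReal_mul (by positivity)]
        refine ENNReal.ofReal_le_ofReal ?_
        rw [mul_assoc]
        refine mul_le_mul_of_nonneg_left ?_ hκ0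
        rw [Real.rpow_one, ← mul_assoc]
        have h2 : 0 ≤ 1 - dot e σ := by linarith [h1.2]
        refine mul_le_mul_of_nonneg_right ?_ h2
        have h3 : 0 ≤ (1 - dot e σ) ^ (-(((d : ℝ) - 1) / 2 + s)) := Real.rpow_nonneg h2 _
        unfold Pool.Agent.H87.PE.bp bcut
        split_ifs with h4 h5
        · exact (H.bd.2 _ (by linarith) (by linarith)).2
        · positivity
        · positivity
    _ = ENNReal.ofReal (κ * C) * ∫⁻ σ in {σ : Vec d | 1 - dot e σ ≤ 2}, ENNReal.ofReal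
          ((1 - dot e σ) ^ (-(((d : ℝ) - 1) / 2 + s)) * (1 - dot e σ) ^ (1 : ℝ)) ∂(surf d) := by
        rw [lintegral_indicator hS, lintegral_const_mul _ hm3]
    _ ≤ ENNReal.ofReal (κ * C) * ENNReal.ofReal (A * 2 ^ (1 - s)) :=
        mul_le_mul_right (hang e hne 2 (by norm_num)) _
    _ = ENNReal.ofReal (κ * C * (A * 2 ^ (1 - s))) := by
        rw [← ENNReal.ofReal_mul (by positivity)]

private lemma CanZ_len {m σ : Vec d} (hσ : nsq σ = 1) (h : 0 < dot m σ) (hc1 : co m σ ≤ 1)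
    (hc : 0 < co m σ) :
    len (hh σ m) = len m * Real.sqrt ((1 - (2 * co m σ ^ 2 - 1)) / 2) / co m σ := by
  have h1 := Pool.Agent.H82.BK.nsq_hh hσ h
  have h2 : len (hh σ m) = Real.sqrt (nsq (hh σ m)) := rfl
  have h3 : (1 - (2 * co m σ ^ 2 - 1)) / 2 = 1 - co m σ ^ 2 := by ring
  rw [h2, h1, h3, Real.sqrt_mul (sq_nonneg' _), Real.sqrt_div (by nlinarith), Real.sqrt_sq hc.le]
  unfold len
  ring

theorem canZ (H : Hyp d γ s b C Ca) : ∃ K : ℝ, 0 ≤ K ∧ ∀ ε : ℝ, 0 < ε → ∀ m : Vec d, m ≠ 0 →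
    (∫⁻ σ in {σ : Vec d | 0 < dot m σ}, ENNReal.ofReal (Kn d γ (bp b ε) (co m σ) * ct (len (hh σ m))) ∂(surf d) ≤
      (∫⁻ σ, ENNReal.ofReal (bp b ε (dot (dir m) σ) * ct (len m * Real.sqrt ((1 - dot (dir m) σ) / 2))) ∂(surf d)) +
        ENNReal.ofReal K) ∧
    (∫⁻ σ, ENNReal.ofReal (bp b ε (dot (dir m) σ) * ct (len m * Real.sqrt ((1 - dot (dir m) σ) / 2))) ∂(surf d) ≤
      (∫⁻ σ in {σ : Vec d | 0 < dot m σ}, ENNReal.ofReal (Kn d γ (bp b ε) (co m σ) * ct (len (hh σ m))) ∂(surf d)) +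
        ENNReal.ofReal K) := by
  have hd2 : (2 : ℝ) ≤ d := by exact_mod_cast H.hd
  have hp : 0 ≤ (d : ℝ) + γ := by
    have := H.g1
    linarith
  set κ : ℝ := 2 ^ (((d : ℝ) + γ) / 2) * ((d : ℝ) + γ + 1) / 2 + 2 with hκ
  have hκ0 : 0 ≤ κ := by positivity
  obtain ⟨K, hK, hsm⟩ := CanZ_small H hκ0
  refine ⟨K, hK, fun ε hε m hm => ?_⟩
  set e := dir m with he
  have hne : nsq e = 1 := Pool.Agent.H82.BK.nsq_dir hm
  have hset : {σ : Vec d | 0 < dot m σ} = {σ : Vec d | 0 < dot e σ} := by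
    ext σ
    show 0 < dot m σ ↔ 0 < dot e σ
    rw [he, ← Pool.Agent.H82.BK.co_eq]
    unfold co
    exact ⟨fun h => div_pos h (len_pos hm), fun h => by
      have := mul_pos h (len_pos hm)
      rwa [div_mul_cancel₀ _ (len_pos hm).ne'] at this⟩
  have hbm := bp_meas H.bm ε
  have hctm : Measurable fun x : ℝ => ct (len m * Real.sqrt ((1 - x) / 2)) := by
    refine (ct_cont.comp ?_).measurable
    fun_prop
  have hβ1 : Measurable fun x : ℝ => ENNReal.ofReal (bp b ε x * ct (len m * Real.sqrt ((1 - x) / 2))) :=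
    (hbm.mul hctm).ennreal_ofReal
  have hβ2 : Measurable fun x : ℝ => ENNReal.ofReal (κ * (bp b ε x * (1 - x))) :=
    ((hbm.mul (measurable_const.sub measurable_id)).const_mul κ).ennreal_ofReal
  have hbneg : bp b ε (-1) = 0 := by
    unfold Pool.Agent.H87.PE.bp
    rw [if_neg (by norm_num)]
  have hhalf1 := Pool.Agent.H82.BK.half_angle H.hd hne hβ1 (by rw [hbneg]; simp)
  have hhalf2 := Pool.Agent.H82.BK.half_angle H.hd hne hβ2 (by rw [hbneg]; simp)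
  have hm1 : Measurable fun σ : Vec d => ENNReal.ofReal (2 ^ (d - 1) * dot e σ ^ (d - 2)) :=
    (((Pool.Agent.H25.Kin.dot_cont e).measurable.pow_const _).const_mul _).ennreal_ofReal
  have hx : Measurable fun σ : Vec d => 2 * dot e σ ^ 2 - 1 :=
    (((Pool.Agent.H25.Kin.dot_cont e).measurable.pow_const _).const_mul _).sub_const _
  have hms : MeasurableSet {σ : Vec d | 0 < dot e σ} :=
    measurableSet_lt measurable_const (Pool.Agent.H25.Kin.dot_cont e).measurable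
  have hm4 : Measurable fun σ : Vec d => ENNReal.ofReal (2 ^ (d - 1) * dot e σ ^ (d - 2)) *
      ENNReal.ofReal (bp b ε (2 * dot e σ ^ 2 - 1) *
        ct (len m * Real.sqrt ((1 - (2 * dot e σ ^ 2 - 1)) / 2))) := hm1.mul (hβ1.comp hx)
  have hm5 : Measurable fun σ : Vec d => ENNReal.ofReal (2 ^ (d - 1) * dot e σ ^ (d - 2)) *
      ENNReal.ofReal (κ * (bp b ε (2 * dot e σ ^ 2 - 1) * (1 - (2 * dot e σ ^ 2 - 1)))) :=
    hm1.mul (hβ2.comp hx)
  have hpt : ∀ σ : Vec d, nsq σ = 1 → 0 < dot e σ →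
      |Kn d γ (bp b ε) (co m σ) * ct (len (hh σ m)) - 2 ^ (d - 1) * dot e σ ^ (d - 2) *
        (bp b ε (2 * dot e σ ^ 2 - 1) * ct (len m * Real.sqrt ((1 - (2 * dot e σ ^ 2 - 1)) / 2)))| ≤
      2 ^ (d - 1) * dot e σ ^ (d - 2) *
        (κ * (bp b ε (2 * dot e σ ^ 2 - 1) * (1 - (2 * dot e σ ^ 2 - 1)))) := by
    intro σ hσ hpos
    have hc1 : dot e σ ≤ 1 := (abs_le.1 (dot_le_one hne hσ)).2
    have hco : co m σ = dot e σ := by rw [Pool.Agent.H82.BK.co_eq, ← he]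
    have hmem : σ ∈ {σ : Vec d | 0 < dot m σ} := by
      rw [hset]
      exact hpos
    have hl := CanZ_len hσ hmem (by rw [hco]; exact hc1) (by rw [hco]; exact hpos)
    rw [hl, hco]
    exact CanZ_pt H hpos hc1 (mul_nonneg (len_nonneg m) (Real.sqrt_nonneg _)) hε
  have hsmall := hsm ε hε e hne
  have hnn : ∀ σ : Vec d, 0 < dot e σ → (0 : ℝ) ≤ 2 ^ (d - 1) * dot e σ ^ (d - 2) := fun σ h => by
    positivity
  refine ⟨?_, ?_⟩
  · refine le_trans ?_ (add_le_add le_rfl hsmall)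
    rw [← hhalf1, ← hhalf2, ← lintegral_add_left hm4, hset]
    refine lintegral_mono_ae ?_
    filter_upwards [ae_restrict_of_ae surf_ae, ae_restrict_mem hms] with σ hσ hpos
    have h1 := (abs_le.1 (hpt σ hσ hpos)).2
    have h2 := hnn σ hpos
    rw [← ENNReal.ofReal_mul h2, ← ENNReal.ofReal_mul h2]
    refine le_trans (ENNReal.ofReal_le_ofReal ?_) ENNReal.ofReal_add_le
    linarith
  · refine le_trans ?_ (add_le_add le_rfl hsmall)
    rw [← hhalf1, ← hhalf2, hset, ← lintegral_add_right _ hm5]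
    refine lintegral_mono_ae ?_
    filter_upwards [ae_restrict_of_ae surf_ae, ae_restrict_mem hms] with σ hσ hpos
    have h1 := (abs_le.1 (hpt σ hσ hpos)).1
    have h2 := hnn σ hpos
    rw [← ENNReal.ofReal_mul h2, ← ENNReal.ofReal_mul h2]
    refine le_trans (ENNReal.ofReal_le_ofReal ?_) ENNReal.ofReal_add_le
    linarith

end Pool.Agent.H48.PD
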