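import Pool.Agent.H87.PE.CanB
import Pool.Agent.H48.PI.Shift
import Pool.Agent.H25.PN.Defs

/-!
# Plane symmetric data (MP_c15324_an): definitions

THEOREM U (weak-strong uniqueness). `0 ≤ γ`, `2s < 1`, `γ + 2s ≤ 2`. Let `f`, `g` be classical solutions on `[0,T)` with the same initial value, and let the gradient of `g` in `v`
decay rapidly uniformly up to `t = 0` (`RegZero`). Then `f = g`.

Consequence (Dat.lean). If `F₀` depends on `x` only through `ν · x` and some classical solution on a short interval with value `F₀` satisfies `RegZero`, then EVERY classical solution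
with value `F₀` depends on `x` only through `ν · x`.

PROOF OF THEOREM U. `h = f - g`, `φ = sgn(h) ⟨v⟩²` (`sj`), `h' = h(v')` etc., `w' = post'`, `v' = post`. Cut-off level, uniformly in `ε`:
  `∫ (Q_ε(f) - Q_ε(g)) φ dv = ∫ B [f_w h_v + h_w g_v] (φ(v') - φ(v))`                                        (module WkD)
Split `1 = Zn + (1 - Zn)`, `Zn = 1[cos θ ≥ 0] ct(|v' - v|)`, `ct` the Lipschitz cut-off `1` on `[0,1]`, `0` on `[2,∞)`; `Zn` is invariant under `coll` and `exch` (module Zet).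
* Far part (FarA): `f_w h_v (φ(v')-φ(v)) ≤ f_w |h_v| (⟨v'⟩² - ⟨v⟩²)` (here `f ≥ 0`), `h_w g_v (φ(v')-φ(v)) ≤ |h_w| g_v (⟨v'⟩² + ⟨v⟩²)`, which after `exch` is `|h_v| g_w (⟨w'⟩² + ⟨w⟩²)`; with `f_w = g_w + h_w`
  and `⟨v'⟩² + ⟨w'⟩² = ⟨v⟩² + ⟨w⟩²` the sum is `≤ |h_v| [2 g_w ⟨w⟩² + |h_w| (⟨v⟩² + ⟨w⟩²)]`. `∫ B (1 - Zn) dσ ≤ K (1 + |v-w|²)` (FarK).
* Near part of the first term (NrA): `∫ B Zn (⟨v'⟩² - ⟨v⟩²) dσ = (1/2)(|w|² - |v|²) ∫ B Zn (1 - cos θ) dσ ≤ (1/2)|w|² K |v-w|^γ` (average over the azimuth: reflection `refl (dirk v w)`).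
* Near part of the second term: `∫ B Zn h_w g_v (φ(v') - φ(v)) = ∫ B Zn h_w (g_v - g(v')) φ(v') + ∫ B Zn (h(w') - h_w) g_v φ(v)` by `coll`.
  First (NrB): `|g_v - g(v')| ≤ C_N (1+|v|)^(-N) |v'-v|`, `∫ B Zn |v'-v| dσ ≤ K (1 + |v-w|²)` (`2s < 1`). Second (CanZ, CanW, NrC): cancellation, `≤ K ∫∫ |h_w| |g_v φ_v| |v-w|^γ`.
All terms are `≤ K ∫ |h| ⟨v⟩²` with `K` depending on the bounds of `f, g, ∇g` only. Let `ε → 0` (FibQ). In time: `√(h²+δ²) - δ` is a classical solution with source `h/√(h²+δ²) (Q(f)-Q(g))` (Bta),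
`csol_mom` with `⟨v⟩²`, `δ → 0` (Tim), Gronwall (Uni).
-/

set_option autoImplicit false

open MeasureTheory Set Filter Topology Pool.Agent.H25.Kin Pool.Agent.H48.PL

namespace Pool.Agent.H48.PD

variable {d : ℕ}

/-- the gradient in `v` decays rapidly, uniformly up to `t = 0` -/
def RegZero (T : ℝ) (g : ℝ → Vec d → Vec d → ℝ) : Prop :=
  ∀ T₁ < T, ∀ N : ℕ, ∃ C : ℝ, ∀ t ∈ Ioc 0 T₁, ∀ x v, (1 + ‖v‖) ^ N * ‖fderiv ℝ (g t x) v‖ ≤ C

/-- nonnegative functions of the class `Nice` with given bounds of the values -/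
structure FB (Cl : ℕ → ℝ) (f : Vec d → ℝ) : Prop where
  nice : Nice f
  nonneg : ∀ v, 0 ≤ f v
  le : ∀ (N : ℕ) (v : Vec d), (1 + ‖v‖) ^ N * f v ≤ Cl N

/-- bounds of the gradient -/
def LB (Cl : ℕ → ℝ) (g : Vec d → ℝ) : Prop :=
  ∀ (N : ℕ) (v : Vec d), (1 + ‖v‖) ^ N * ‖fderiv ℝ g v‖ ≤ Cl N

/-- Lipschitz cut-off: `1` on `[0,1]`, `0` on `[2,∞)` -/
noncomputable def ct (r : ℝ) : ℝ := max 0 (min 1 (2 - r))

/-- the near part of the collisions: `cos θ ≥ 0` and `|v' - v|` at most about `1` -/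
noncomputable def Zn (p : Vec d × Vec d × Vec d) : ℝ :=
  if 0 ≤ cosTh p.1 p.2.1 p.2.2 then ct (len (post p.1 p.2.1 p.2.2 - p.1)) else 0

/-- the test function `sgn(h) ⟨v⟩²` -/
noncomputable def sj (h : Vec d → ℝ) (v : Vec d) : ℝ := Real.sign (h v) * jb v ^ 2

/-- `∫ |h| ⟨v⟩²` -/
noncomputable def N2 (h : Vec d → ℝ) : ℝ := ∫ v, |h v| * jb v ^ 2

/-- `∫∫ |h(w)| |G(v)| |v-w|^γ` -/
noncomputable def HG (γ : ℝ) (h G : Vec d → ℝ) : ℝ :=
  ∫ q : Vec d × Vec d, |h q.2| * |G q.1| * len (q.1 - q.2) ^ γ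

end Pool.Agent.H48.PD
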