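import Pool.Agent.H48.PD.WkD
import Pool.Agent.H48.PD.Far
import Pool.Agent.H48.PD.NrA
import Pool.Agent.H48.PD.NrB
import Pool.Agent.H48.PD.NrC

/-!
# Module Fib: the inequality for the difference of two collision operators

`fib_cut`: `cut_diff` with `φ = sj (f - g)`; `1 = (1 - Zn) + Zn`; far part `far_le`; near part of `f_w h_v`: `nrA_le`; near part of `h_w g_v`: `h_w g_v (φ(v') - φ(v)) = h_w (g_v - g(v')) φ(v') + [h_w g(v') φ(v') - h_w g_v φ(v)]` and by `coll_int`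
(`F p = Zn p (h_w g(v') φ(v'))`, `F (coll p) = Zn p (h(w') g_v φ_v)`, `post_post`) the bracket has the integral `∫ kerB Zn (h(w') - h_w) g_v φ_v`: `nrB_le`, `nrC_le`. Integrability: `DB_int`, `DB_mul`, `DB_pair`, `DB_near`.
`fib_bound`: `boltz_weak_tendsto` (BLim) for `f` and for `g` with `φ = sj (f - g)`, `le_of_tendsto`; `∫ (boltzCut f - boltzCut g) φ` is the difference of the integrals (integrable: `boltzCut_decay`, `boltzCut_meas`; `boltzQ_decay`).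
-/

set_option autoImplicit false

open MeasureTheory Set Filter Topology Pool.Agent.H25.Kin Pool.Agent.H48.PL Pool.Agent.H87.PE

namespace Pool.Agent.H48.PD

variable {d : ℕ} {γ s C Ca : ℝ} {b : ℝ → ℝ}

private theorem fib_DB_add {P Q : Vec d × Vec d × Vec d → ℝ} (hP : DB P) (hQ : DB Q) :
    DB fun p => P p + Q p := by
  intro N
  obtain ⟨A, hA0, hA⟩ := hP N
  obtain ⟨B, hB0, hB⟩ := hQ N
  refine ⟨A + B, by positivity, fun v w σ hσ => ?_⟩
  calc |P (v, w, σ) + Q (v, w, σ)| ≤ |P (v, w, σ)| + |Q (v, w, σ)| := abs_add_le _ _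
    _ ≤ A * pw N v w + B * pw N v w := add_le_add (hA v w σ hσ) (hB v w σ hσ)
    _ = _ := by ring

private theorem fib_Zint (H : Hyp d γ s b C Ca) {ε : ℝ} (hε : 0 < ε) {P : Vec d × Vec d × Vec d → ℝ}
    (hP : Measurable P) (hB : DB P) :
    Integrable (fun p => kerB γ b ε p.1 p.2.1 p.2.2 * (Zn p * P p)) (mu3 d) := by
  refine (DB_int H hε (hP.mul Zn_meas) (DB_mul hB PB_Zn)).congr (Eventually.of_forall fun p => ?_)
  change kerB γ b ε p.1 p.2.1 p.2.2 * (P p * Zn p) = kerB γ b ε p.1 p.2.1 p.2.2 * (Zn p * P p)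
  ring

private theorem fib_dec (H : Hyp d γ s b C Ca) {ε : ℝ} (hε : 0 < ε) {f g h : Vec d → ℝ} (hf : RD f)
    (hfm : Measurable f) (hg : RD g) (hgm : Measurable g) (hh : RD h) (hhm : Measurable h)
    {φ : Vec d → ℝ} (hφ : PG φ) (hφm : Measurable φ) :
    ∫ p, kerB γ b ε p.1 p.2.1 p.2.2 * ((f p.2.1 * h p.1 + h p.2.1 * g p.1) *
        (φ (post p.1 p.2.1 p.2.2) - φ p.1)) ∂(mu3 d) =
      (∫ p, kerB γ b ε p.1 p.2.1 p.2.2 * ((1 - Zn p) * ((f p.2.1 * h p.1 + h p.2.1 * g p.1) *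
        (φ (post p.1 p.2.1 p.2.2) - φ p.1))) ∂(mu3 d)) +
      (∫ p, kerB γ b ε p.1 p.2.1 p.2.2 * (Zn p * (f p.2.1 * h p.1 *
        (φ (post p.1 p.2.1 p.2.2) - φ p.1))) ∂(mu3 d)) +
      (∫ p, kerB γ b ε p.1 p.2.1 p.2.2 * (Zn p * (h p.2.1 *
        (g p.1 - g (post p.1 p.2.1 p.2.2)) * φ (post p.1 p.2.1 p.2.2))) ∂(mu3 d)) +
      (∫ p, kerB γ b ε p.1 p.2.1 p.2.2 * (Zn p * ((h (post' p.1 p.2.1 p.2.2) - h p.2.1) *
        (g p.1 * φ p.1))) ∂(mu3 d)) := by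
  have mv : Measurable fun p : Vec d × Vec d × Vec d => p.1 := measurable_fst
  have mw : Measurable fun p : Vec d × Vec d × Vec d => p.2.1 := measurable_fst.comp measurable_snd
  have mp : Measurable fun p : Vec d × Vec d × Vec d => post p.1 p.2.1 p.2.2 :=
    (continuous_post (d := d)).measurable
  have mp' : Measurable fun p : Vec d × Vec d × Vec d => post' p.1 p.2.1 p.2.2 :=
    (continuous_post' (d := d)).measurable
  have mk : Measurable fun p : Vec d × Vec d × Vec d => kerB γ b ε p.1 p.2.1 p.2.2 :=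
    measurable_kerB (d := d) γ H.bm ε
  have mΔ : Measurable fun p : Vec d × Vec d × Vec d => φ (post p.1 p.2.1 p.2.2) - φ p.1 :=
    (hφm.comp mp).sub (hφm.comp mv)
  have PΔ : PB fun p : Vec d × Vec d × Vec d => φ (post p.1 p.2.1 p.2.2) - φ p.1 :=
    PB_sub (PB_post hφ) (PB_v hφ)
  have m1 : Measurable fun p : Vec d × Vec d × Vec d => f p.2.1 * h p.1 * (φ (post p.1 p.2.1 p.2.2) - φ p.1) :=
    ((hfm.comp mw).mul (hhm.comp mv)).mul mΔ
  have m2 : Measurable fun p : Vec d × Vec d × Vec d => h p.2.1 * g p.1 * (φ (post p.1 p.2.1 p.2.2) - φ p.1) :=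
    ((hhm.comp mw).mul (hgm.comp mv)).mul mΔ
  have d1 : DB fun p : Vec d × Vec d × Vec d => f p.2.1 * h p.1 * (φ (post p.1 p.2.1 p.2.2) - φ p.1) :=
    DB_mul (DB_pair hf hh) PΔ
  have d2 : DB fun p : Vec d × Vec d × Vec d => h p.2.1 * g p.1 * (φ (post p.1 p.2.1 p.2.2) - φ p.1) :=
    DB_mul (DB_pair hh hg) PΔ
  have i1 := DB_int H hε m1 d1
  have i2 := DB_int H hε m2 d2
  have j1 := fib_Zint H hε m1 d1
  have j2 := fib_Zint H hε m2 d2
  have ja : Integrable (fun p => kerB γ b ε p.1 p.2.1 p.2.2 * (Zn p * (h p.2.1 * g p.1 *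
      φ (post p.1 p.2.1 p.2.2)))) (mu3 d) :=
    fib_Zint H hε (((hhm.comp mw).mul (hgm.comp mv)).mul (hφm.comp mp))
      (DB_mul (DB_pair hh hg) (PB_post hφ))
  have jb : Integrable (fun p => kerB γ b ε p.1 p.2.1 p.2.2 * (Zn p * (h p.2.1 * g p.1 * φ p.1)))
      (mu3 d) :=
    fib_Zint H hε (((hhm.comp mw).mul (hgm.comp mv)).mul (hφm.comp mv))
      (DB_mul (DB_pair hh hg) (PB_v hφ))
  have jc : Integrable (fun p => kerB γ b ε p.1 p.2.1 p.2.2 *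
      (Zn p * (h (post' p.1 p.2.1 p.2.2) * g p.1) * φ p.1)) (mu3 d) :=
    DB_int H hε ((Zn_meas.mul ((hhm.comp mp').mul (hgm.comp mv))).mul (hφm.comp mv))
      (DB_mul (DB_near hh hg) (PB_v hφ))
  have mF : Measurable fun p : Vec d × Vec d × Vec d => kerB γ b ε p.1 p.2.1 p.2.2 *
      (Zn p * (h p.2.1 * g (post p.1 p.2.1 p.2.2) * φ (post p.1 p.2.1 p.2.2))) :=
    mk.mul (Zn_meas.mul (((hhm.comp mw).mul (hgm.comp mp)).mul (hφm.comp mp)))
  have hco : (fun p : Vec d × Vec d × Vec d => kerB γ b ε (coll p).1 (coll p).2.1 (coll p).2.2 *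
      (Zn (coll p) * (h (coll p).2.1 * g (post (coll p).1 (coll p).2.1 (coll p).2.2) *
        φ (post (coll p).1 (coll p).2.1 (coll p).2.2)))) =ᵐ[mu3 d]
      fun p => kerB γ b ε p.1 p.2.1 p.2.2 *
        (Zn p * (h (post' p.1 p.2.1 p.2.2) * g p.1) * φ p.1) := by
    filter_upwards [ae_good H.hd1] with p hp
    obtain ⟨v, w, σ⟩ := p
    have hp1 : v ≠ w := hp.1
    have hp2 : nsq σ = 1 := hp.2
    change kerB γ b ε (post v w σ) (post' v w σ) (dirk v w) *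
      (Zn (coll (v, w, σ)) * (h (post' v w σ) * g (post (post v w σ) (post' v w σ) (dirk v w)) *
        φ (post (post v w σ) (post' v w σ) (dirk v w)))) =
      kerB γ b ε v w σ * (Zn (v, w, σ) * (h (post' v w σ) * g v) * φ v)
    rw [kerB_post γ b ε hp1 hp2, Zn_coll hp1 hp2, post_post hp1 hp2]
    ring
  have jF : Integrable (fun p => kerB γ b ε p.1 p.2.1 p.2.2 *
      (Zn p * (h p.2.1 * g (post p.1 p.2.1 p.2.2) * φ (post p.1 p.2.1 p.2.2)))) (mu3 d) :=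
    ((coll_preserving H.hd1).integrable_comp mF.aestronglyMeasurable).1 (jc.congr hco.symm)
  have eF : ∫ p, kerB γ b ε p.1 p.2.1 p.2.2 *
      (Zn p * (h p.2.1 * g (post p.1 p.2.1 p.2.2) * φ (post p.1 p.2.1 p.2.2))) ∂(mu3 d) =
      ∫ p, kerB γ b ε p.1 p.2.1 p.2.2 *
        (Zn p * (h (post' p.1 p.2.1 p.2.2) * g p.1) * φ p.1) ∂(mu3 d) := by
    rw [← integral_comp_mp (coll_preserving H.hd1) mF]
    exact integral_congr_ae hco
  have e0 : ∫ p, kerB γ b ε p.1 p.2.1 p.2.2 * ((f p.2.1 * h p.1 + h p.2.1 * g p.1) *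
        (φ (post p.1 p.2.1 p.2.2) - φ p.1)) ∂(mu3 d) =
      (∫ p, kerB γ b ε p.1 p.2.1 p.2.2 * (f p.2.1 * h p.1 * (φ (post p.1 p.2.1 p.2.2) - φ p.1)) ∂(mu3 d)) +
      ∫ p, kerB γ b ε p.1 p.2.1 p.2.2 * (h p.2.1 * g p.1 * (φ (post p.1 p.2.1 p.2.2) - φ p.1)) ∂(mu3 d) := by
    rw [← integral_add i1 i2]
    refine integral_congr_ae (Eventually.of_forall fun p => ?_)
    change _ = _ + _
    ring
  have e1 : ∫ p, kerB γ b ε p.1 p.2.1 p.2.2 * ((1 - Zn p) * ((f p.2.1 * h p.1 + h p.2.1 * g p.1) *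
        (φ (post p.1 p.2.1 p.2.2) - φ p.1))) ∂(mu3 d) =
      ((∫ p, kerB γ b ε p.1 p.2.1 p.2.2 * (f p.2.1 * h p.1 * (φ (post p.1 p.2.1 p.2.2) - φ p.1)) ∂(mu3 d)) +
      ∫ p, kerB γ b ε p.1 p.2.1 p.2.2 * (h p.2.1 * g p.1 * (φ (post p.1 p.2.1 p.2.2) - φ p.1)) ∂(mu3 d)) -
      ((∫ p, kerB γ b ε p.1 p.2.1 p.2.2 * (Zn p * (f p.2.1 * h p.1 *
        (φ (post p.1 p.2.1 p.2.2) - φ p.1))) ∂(mu3 d)) +
      ∫ p, kerB γ b ε p.1 p.2.1 p.2.2 * (Zn p * (h p.2.1 * g p.1 *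
        (φ (post p.1 p.2.1 p.2.2) - φ p.1))) ∂(mu3 d)) := by
    rw [← integral_add i1 i2, ← integral_add j1 j2]
    refine Eq.trans ?_ (integral_sub (i1.add i2) (j1.add j2))
    refine integral_congr_ae (Eventually.of_forall fun p => ?_)
    change _ = (kerB γ b ε p.1 p.2.1 p.2.2 * (f p.2.1 * h p.1 * (φ (post p.1 p.2.1 p.2.2) - φ p.1)) +
      kerB γ b ε p.1 p.2.1 p.2.2 * (h p.2.1 * g p.1 * (φ (post p.1 p.2.1 p.2.2) - φ p.1))) -
      (kerB γ b ε p.1 p.2.1 p.2.2 * (Zn p * (f p.2.1 * h p.1 * (φ (post p.1 p.2.1 p.2.2) - φ p.1))) +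
      kerB γ b ε p.1 p.2.1 p.2.2 * (Zn p * (h p.2.1 * g p.1 * (φ (post p.1 p.2.1 p.2.2) - φ p.1))))
    ring
  have e2 : ∫ p, kerB γ b ε p.1 p.2.1 p.2.2 * (Zn p * (h p.2.1 * g p.1 *
        (φ (post p.1 p.2.1 p.2.2) - φ p.1))) ∂(mu3 d) =
      (∫ p, kerB γ b ε p.1 p.2.1 p.2.2 * (Zn p * (h p.2.1 * g p.1 *
        φ (post p.1 p.2.1 p.2.2))) ∂(mu3 d)) -
      ∫ p, kerB γ b ε p.1 p.2.1 p.2.2 * (Zn p * (h p.2.1 * g p.1 * φ p.1)) ∂(mu3 d) := by
    rw [← integral_sub ja jb]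
    refine integral_congr_ae (Eventually.of_forall fun p => ?_)
    change _ = _ - _
    ring
  have e3 : ∫ p, kerB γ b ε p.1 p.2.1 p.2.2 * (Zn p * (h p.2.1 *
        (g p.1 - g (post p.1 p.2.1 p.2.2)) * φ (post p.1 p.2.1 p.2.2))) ∂(mu3 d) =
      (∫ p, kerB γ b ε p.1 p.2.1 p.2.2 * (Zn p * (h p.2.1 * g p.1 *
        φ (post p.1 p.2.1 p.2.2))) ∂(mu3 d)) -
      ∫ p, kerB γ b ε p.1 p.2.1 p.2.2 *
        (Zn p * (h p.2.1 * g (post p.1 p.2.1 p.2.2) * φ (post p.1 p.2.1 p.2.2))) ∂(mu3 d) := by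
    rw [← integral_sub ja jF]
    refine integral_congr_ae (Eventually.of_forall fun p => ?_)
    change _ = _ - _
    ring
  have e4 : ∫ p, kerB γ b ε p.1 p.2.1 p.2.2 * (Zn p * ((h (post' p.1 p.2.1 p.2.2) - h p.2.1) *
        (g p.1 * φ p.1))) ∂(mu3 d) =
      (∫ p, kerB γ b ε p.1 p.2.1 p.2.2 *
        (Zn p * (h (post' p.1 p.2.1 p.2.2) * g p.1) * φ p.1) ∂(mu3 d)) -
      ∫ p, kerB γ b ε p.1 p.2.1 p.2.2 * (Zn p * (h p.2.1 * g p.1 * φ p.1)) ∂(mu3 d) := by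
    rw [← integral_sub jc jb]
    refine integral_congr_ae (Eventually.of_forall fun p => ?_)
    change _ = _ - _
    ring
  rw [e0, e1, e3, e4, e2, eF]
  ring

private theorem fib_qint {F φ : Vec d → ℝ} (hF : AEStronglyMeasurable F volume)
    (hd : ∀ M : ℕ, ∃ A, 0 ≤ A ∧ ∀ v : Vec d, |F v| ≤ A * ((1 + ‖v‖) ^ M)⁻¹) (hφ : PG φ)
    (hφm : Measurable φ) : Integrable (fun v => F v * φ v) := by
  obtain ⟨K, D, hD0, hD⟩ := hφ.pos
  obtain ⟨A, hA0, hA⟩ := hd (d + 1 + K)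
  refine (integrable_wt.const_mul (A * D)).mono' (hF.mul hφm.aestronglyMeasurable)
    (Eventually.of_forall fun v => ?_)
  rw [norm_mul, Real.norm_eq_abs]
  have hw := w_pos v
  calc |F v| * ‖φ v‖ ≤ (A * ((1 + ‖v‖) ^ (d + 1 + K))⁻¹) * (D * (1 + ‖v‖) ^ K) :=
        mul_le_mul (hA v) (hD v) (norm_nonneg _) (by positivity)
    _ = A * D * wt d v := by
        unfold wt
        rw [pow_add (1 + ‖v‖) (d + 1) K]
        field_simp

private theorem fib_RD_sub {f g : Vec d → ℝ} (hf : RD f) (hg : RD g) : RD fun u => f u - g u := by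
  have h := hf.add hg.neg
  simpa only [sub_eq_add_neg] using h

theorem fib_cut (H : Hyp d γ s b C Ca) (h0 : 0 ≤ γ) (hs : 2 * s < 1) (Cl : ℕ → ℝ) : ∃ K : ℝ, 0 ≤ K ∧
    ∀ ε : ℝ, 0 < ε → ∀ f g : Vec d → ℝ, FB Cl f → FB Cl g → LB Cl g →
    ∫ v, (boltzCut γ b ε f v - boltzCut γ b ε g v) * sj (fun u => f u - g u) v ≤
      K * N2 fun u => f u - g u := by
  obtain ⟨K1, hK1, h1⟩ := far_le H h0 Cl
  obtain ⟨K2, hK2, h2⟩ := nrA_le H h0 Cl
  obtain ⟨K3, hK3, h3⟩ := nrB_le H h0 hs Cl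
  obtain ⟨K4, hK4, h4⟩ := nrC_le H h0 Cl
  refine ⟨K1 + K2 + K3 + K4, by positivity, fun ε hε f g hf hg hl => ?_⟩
  have hφ : PG (sj fun u => f u - g u) := sj_PG _
  have hφm : Measurable (sj fun u => f u - g u) :=
    sj_meas (hf.nice.cont.sub hg.nice.cont).measurable
  rw [cut_diff H hε hf.nice.rd hf.nice.cont hg.nice.rd hg.nice.cont hφ hφm]
  have hdec := fib_dec H hε (f := f) (g := g) (h := fun u => f u - g u) hf.nice.rd
    hf.nice.cont.measurable hg.nice.rd hg.nice.cont.measurable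
    (fib_RD_sub hf.nice.rd hg.nice.rd) (hf.nice.cont.sub hg.nice.cont).measurable hφ hφm
  have a1 := h1 ε hε f g hf hg
  have a2 := h2 ε hε f g hf hg
  have a3 := (le_abs_self _).trans (h3 ε hε f g hf hg hl)
  have a4 := (le_abs_self _).trans (h4 ε hε f g hf hg)
  beta_reduce at hdec
  rw [hdec]
  linarith

theorem fib_bound (H : Hyp d γ s b C Ca) (h0 : 0 ≤ γ) (hs : 2 * s < 1) (Cl : ℕ → ℝ) : ∃ K : ℝ, 0 ≤ K ∧
    ∀ f g : Vec d → ℝ, FB Cl f → FB Cl g → LB Cl g →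
    ∫ v, (boltzQ γ b f v - boltzQ γ b g v) * sj (fun u => f u - g u) v ≤
      K * N2 fun u => f u - g u := by
  obtain ⟨K, hK, h⟩ := fib_cut H h0 hs Cl
  refine ⟨K, hK, fun f g hf hg hl => ?_⟩
  have hφ : PG (sj fun u => f u - g u) := sj_PG _
  have hφm : Measurable (sj fun u => f u - g u) :=
    sj_meas (hf.nice.cont.sub hg.nice.cont).measurable
  have hQm : ∀ {u : Vec d → ℝ}, Nice u → AEStronglyMeasurable (boltzQ γ b u) volume := by
    intro u hu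
    exact aestronglyMeasurable_of_tendsto_ae (𝓝[>] (0 : ℝ))
      (f := fun ε v => boltzCut γ b ε u v)
      (fun ε => (boltzCut_meas H.bm hu.cont ε).aestronglyMeasurable)
      (Eventually.of_forall fun v => boltz_tendsto H hu v)
  have hQi : ∀ {u : Vec d → ℝ}, Nice u →
      Integrable (fun v => boltzQ γ b u v * sj (fun u => f u - g u) v) := fun hu =>
    fib_qint (hQm hu) (fun M => boltzQ_decay H hu M) hφ hφm
  have hCi : ∀ {ε : ℝ}, 0 < ε → ∀ {u : Vec d → ℝ}, Nice u →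
      Integrable (fun v => boltzCut γ b ε u v * sj (fun u => f u - g u) v) := by
    intro ε hε u hu
    refine fib_qint (boltzCut_meas H.bm hu.cont ε).aestronglyMeasurable (fun M => ?_) hφ hφm
    obtain ⟨A, hA0, hA⟩ := boltzCut_decay H hu M
    exact ⟨A, hA0, fun v => hA ε hε v⟩
  have e1 : ∫ v, (boltzQ γ b f v - boltzQ γ b g v) * sj (fun u => f u - g u) v =
      (∫ v, boltzQ γ b f v * sj (fun u => f u - g u) v) -
        ∫ v, boltzQ γ b g v * sj (fun u => f u - g u) v := by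
    rw [← integral_sub (hQi hf.nice) (hQi hg.nice)]
    refine integral_congr_ae (Eventually.of_forall fun v => ?_)
    change _ = _ - _
    ring
  rw [e1]
  refine le_of_tendsto ((boltz_weak_tendsto H hf.nice hφ hφm).sub
    (boltz_weak_tendsto H hg.nice hφ hφm)) ?_
  filter_upwards [self_mem_nhdsWithin] with ε hε
  have e2 : ∫ v, (boltzCut γ b ε f v - boltzCut γ b ε g v) * sj (fun u => f u - g u) v =
      (∫ v, boltzCut γ b ε f v * sj (fun u => f u - g u) v) -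
        ∫ v, boltzCut γ b ε g v * sj (fun u => f u - g u) v := by
    rw [← integral_sub (hCi hε hf.nice) (hCi hε hg.nice)]
    refine integral_congr_ae (Eventually.of_forall fun v => ?_)
    change _ = _ - _
    ring
  rw [← e2]
  exact h ε hε f g hf hg hl

end Pool.Agent.H48.PD
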