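import Pool.Agent.H48.PD.Bta
import Pool.Agent.H48.PL.CSolP
import Pool.Agent.H15.AV.SlcB

/-!
# Module Tim: the norm of the difference in time

`NT f g t = ∫ |f - g| ⟨v⟩² dν`. `tim_le`: for `δ > 0`: `csol_mom` (H48/PL/CSolP) for `bta_sol` with `p = ⟨v⟩²`, `CSol.ftc`: `∫ F_δ(t) ⟨v⟩² - ∫ F_δ(r) ⟨v⟩² = ∫_r^t ∫ h/√(h²+δ²) (Q - R) ⟨v⟩²`. Let `δ = 1/(n+1) → 0`: left side: `F_δ → |h|`, `0 ≤ F_δ ≤ |h|`
(dominated convergence, `f_le`); right side: `h/√(h²+δ²) → sign h`, bounded by `1`, `|Q|, |R| ≤ C wt` (`Q_le`) uniformly on `[r,t]`; dominated convergence in `(τ, q)` (twice). Result: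
`NT t - NT r = ∫_r^t ∫ (Q - R) sj(h) dν`, here stated as an inequality with a function `M` that bounds the slices: `∫_v (Q - R) sj(h) ≤ K N2 h` for all `τ ∈ (0,t]`, `x`. Then `∫ dν = ∫_x ∫_v` (`nu_integral`, H15/AV/SlcB).
`NT_cont`: continuity of `NT` on `[0,T)` (dominated convergence as in `CSol.contI`).
`gron`: Gronwall: `NT t ≤ NT r + K ∫_r^t NT` for all `0 < r ≤ t < T`, `NT 0 = 0`, continuity: `NT t ≤ K ∫_0^t NT`, so `NT = 0` (let `m = max_{[0,t]} NT`, iterate, or `gronwallBound`, or multiply by `e^{-Kt}`).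
-/

set_option autoImplicit false

open MeasureTheory Set Filter Topology Pool.Agent.H25.Kin Pool.Agent.H48.PL

namespace Pool.Agent.H48.PD

variable {d : ℕ} {T : ℝ} {Q R f g : ℝ → Vec d → Vec d → ℝ}

/-- `∫ |f - g| ⟨v⟩²` over the phase space -/
noncomputable def NT (f g : ℝ → Vec d → Vec d → ℝ) (t : ℝ) : ℝ :=
  ∫ q, |f t q.2 q.1 - g t q.2 q.1| * jb q.1 ^ 2 ∂(nu d)

private lemma tim_pg : PG fun v : Vec d => jb v ^ 2 := by
  have h := PG_jb (d := d) (r := 2)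
  have e : (fun v : Vec d => jb v ^ (2 : ℝ)) = fun v => jb v ^ 2 := by
    funext v
    exact Real.rpow_two _
  rwa [e] at h

private lemma tim_jbc : Continuous fun v : Vec d => jb v ^ 2 := jb_cont.pow 2

private lemma tim_c (hf : IsClassicalSol T Q f) :
    CSol T (fun t x v => Q t x v * jb v ^ 2) (fun t x v => f t x v * jb v ^ 2) :=
  csol_mom hf tim_pg tim_jbc

private lemma tim_cont_h {S h : ℝ → Vec d → Vec d → ℝ} (H : CSol T S h) {s : ℝ}
    (hs : s ∈ Ico 0 T) : Continuous fun q : Vec d × Vec d => h s q.2 q.1 := by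
  have h1 : Continuous fun q : Vec d × Vec d => (s, q.2, q.1) := by fun_prop
  exact H.cont.comp_continuous h1 fun q => ⟨hs, mem_univ _⟩

private lemma tim_cont_S {S h : ℝ → Vec d → Vec d → ℝ} (H : CSol T S h) {s : ℝ}
    (hs : s ∈ Ioo 0 T) : Continuous fun q : Vec d × Vec d => S s q.2 q.1 := by
  have h1 : Continuous fun q : Vec d × Vec d => (s, q.2, q.1) := by fun_prop
  exact H.contS.comp_continuous h1 fun q => ⟨hs, mem_univ _⟩

private lemma tim_abs (a b : ℝ) (v : Vec d) :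
    |a - b| * jb v ^ 2 = |a * jb v ^ 2 - b * jb v ^ 2| := by
  rw [← sub_mul, abs_mul, abs_of_nonneg (sq_nonneg (jb v))]

private lemma tim_ble {a b C D : ℝ} {v : Vec d} (ha : |a * jb v ^ 2| ≤ C * wt d v)
    (hb : |b * jb v ^ 2| ≤ D * wt d v) : |a - b| * jb v ^ 2 ≤ (C + D) * wt d v := by
  rw [tim_abs, add_mul]
  exact (abs_sub _ _).trans (add_le_add ha hb)

private lemma tim_sign (h : ℝ) :
    Tendsto (fun n : ℕ => h / Real.sqrt (h ^ 2 + (1 / ((n : ℝ) + 1)) ^ 2)) atTop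
      (𝓝 (Real.sign h)) := by
  have hδ := tendsto_one_div_add_atTop_nhds_zero_nat (𝕜 := ℝ)
  by_cases hh : h = 0
  · subst hh
    simp
  · have h1 : Tendsto (fun n : ℕ => Real.sqrt (h ^ 2 + (1 / ((n : ℝ) + 1)) ^ 2)) atTop
        (𝓝 (Real.sqrt (h ^ 2 + 0 ^ 2))) :=
      (Real.continuous_sqrt.tendsto _).comp ((hδ.pow 2).const_add _)
    have e : Real.sign h = h / Real.sqrt (h ^ 2 + 0 ^ 2) := by
      rw [zero_pow two_ne_zero, add_zero, Real.sqrt_sq_eq_abs]
      rcases lt_or_gt_of_ne hh with h2 | h2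
      · rw [Real.sign_of_neg h2, abs_of_neg h2, div_neg, div_self hh]
      · rw [Real.sign_of_pos h2, abs_of_pos h2, div_self hh]
    rw [e]
    refine tendsto_const_nhds.div h1 ?_
    rw [zero_pow two_ne_zero, add_zero, Real.sqrt_sq_eq_abs]
    exact abs_ne_zero.2 hh

private lemma tim_lim (h : ℝ) :
    Tendsto (fun n : ℕ => Real.sqrt (h ^ 2 + (1 / ((n : ℝ) + 1)) ^ 2) - 1 / ((n : ℝ) + 1)) atTop
      (𝓝 |h|) := by
  have hδ := tendsto_one_div_add_atTop_nhds_zero_nat (𝕜 := ℝ)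
  have h1 : Tendsto (fun n : ℕ => Real.sqrt (h ^ 2 + (1 / ((n : ℝ) + 1)) ^ 2)) atTop
      (𝓝 (Real.sqrt (h ^ 2 + 0 ^ 2))) :=
    (Real.continuous_sqrt.tendsto _).comp ((hδ.pow 2).const_add _)
  have h2 := h1.sub hδ
  rwa [zero_pow two_ne_zero, add_zero, Real.sqrt_sq_eq_abs, sub_zero] at h2

private lemma tim_one (h δ : ℝ) : |h / Real.sqrt (h ^ 2 + δ ^ 2)| ≤ 1 := by
  rw [abs_div, abs_of_nonneg (Real.sqrt_nonneg _)]
  refine div_le_one_of_le₀ ?_ (Real.sqrt_nonneg _)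
  exact Real.abs_le_sqrt (by nlinarith [sq_nonneg δ])

private lemma tim_sq {h δ : ℝ} (hδ : 0 < δ) : |Real.sqrt (h ^ 2 + δ ^ 2) - δ| ≤ |h| := by
  have h1 : δ ≤ Real.sqrt (h ^ 2 + δ ^ 2) := Real.le_sqrt_of_sq_le (by nlinarith [sq_nonneg h])
  rw [abs_of_nonneg (sub_nonneg.2 h1), sub_le_iff_le_add]
  refine Real.sqrt_le_iff.2 ⟨by positivity, ?_⟩
  nlinarith [sq_abs h, abs_nonneg h, mul_nonneg (abs_nonneg h) hδ.le]

private lemma tim_sgn (a : ℝ) {c : ℝ} (hc : 0 < c) : Real.sign (a * c) = Real.sign a := by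
  rcases lt_trichotomy a 0 with h | h | h
  · rw [Real.sign_of_neg h, Real.sign_of_neg (mul_neg_of_neg_of_pos h hc)]
  · rw [h, zero_mul]
  · rw [Real.sign_of_pos h, Real.sign_of_pos (mul_pos h hc)]

private lemma tim_sm : Measurable Real.sign := by
  unfold Real.sign
  exact Measurable.ite measurableSet_Iio measurable_const
    (Measurable.ite measurableSet_Ioi measurable_const measurable_const)

private lemma tim_wt : Integrable (fun q : Vec d × Vec d => wt d q.1) (nu d) :=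
  (integrable_wt (d := d)).comp_fst (muD d)

theorem NT_cont (hf : IsClassicalSol T Q f) (hg : IsClassicalSol T R g) :
    ContinuousOn (NT f g) (Ico 0 T) := by
  have Hf := tim_c hf
  have Hg := tim_c hg
  have main : ∀ T₁ < T, ContinuousOn (NT f g) (Icc 0 T₁) := by
    intro T₁ h1
    obtain ⟨C, hC⟩ := Hf.dec T₁ h1
    obtain ⟨D, hD⟩ := Hg.dec T₁ h1
    unfold NT
    refine continuousOn_of_dominated (bound := fun q => (C + D) * wt d q.1) ?_ ?_ ?_ ?_
    · intro s hs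
      have hs' : s ∈ Ico 0 T := ⟨hs.1, hs.2.trans_lt h1⟩
      have c2 : Continuous fun q : Vec d × Vec d =>
          |f s q.2 q.1 - g s q.2 q.1| * jb q.1 ^ 2 := by
        simp_rw [tim_abs]
        exact ((tim_cont_h Hf hs').sub (tim_cont_h Hg hs')).abs
      exact c2.aestronglyMeasurable
    · intro s hs
      refine Eventually.of_forall fun q => ?_
      rw [Real.norm_eq_abs, abs_of_nonneg (by positivity)]
      exact tim_ble (hC s hs _ _) (hD s hs _ _)
    · exact tim_wt.const_mul _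
    · refine Eventually.of_forall fun q => ?_
      have c2 : Continuous fun s : ℝ => (s, q.2, q.1) := by fun_prop
      simp_rw [tim_abs]
      exact ((Hf.cont.comp c2.continuousOn
        fun s hs => ⟨⟨hs.1, hs.2.trans_lt h1⟩, mem_univ _⟩).sub (Hg.cont.comp c2.continuousOn
        fun s hs => ⟨⟨hs.1, hs.2.trans_lt h1⟩, mem_univ _⟩)).abs
  intro t ht
  have h1 : (t + T) / 2 < T := by linarith [ht.2]
  have h2 : t < (t + T) / 2 := by linarith [ht.2]
  refine ((main _ h1) t ⟨ht.1, h2.le⟩).mono_of_mem_nhdsWithin ?_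
  exact mem_nhdsWithin.2 ⟨Iio ((t + T) / 2), isOpen_Iio, h2, fun s hs => ⟨hs.2.1, hs.1.le⟩⟩

/-- the source of the norm -/
private noncomputable def TJ (Q R f g : ℝ → Vec d → Vec d → ℝ) (τ : ℝ) : ℝ :=
  ∫ q, (Q τ q.2 q.1 - R τ q.2 q.1) * (Real.sign (f τ q.2 q.1 - g τ q.2 q.1) * jb q.1 ^ 2) ∂(nu d)

private lemma tim_eq (hf : IsClassicalSol T Q f) (hg : IsClassicalSol T R g) {r t : ℝ}
    (hr : 0 < r) (hrt : r ≤ t) (ht : t < T) :
    (NT f g t - NT f g r = ∫ τ in r..t, TJ Q R f g τ) ∧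
      IntervalIntegrable (TJ Q R f g) volume r t := by
  have Hf := tim_c hf
  have Hg := tim_c hg
  have hδ : ∀ n : ℕ, (0 : ℝ) < 1 / ((n : ℝ) + 1) := fun n => by positivity
  have HS : ∀ n : ℕ, CSol T _ _ := fun n => csol_mom (bta_sol (hδ n) hf hg) tim_pg tim_jbc
  obtain ⟨C, hC⟩ := Hf.decS r hr t ht
  obtain ⟨D, hD⟩ := Hg.decS r hr t ht
  obtain ⟨C', hC'⟩ := Hf.dec t ht
  obtain ⟨D', hD'⟩ := Hg.dec t ht
  have hsub : ∀ τ ∈ Icc r t, τ ∈ Ioo 0 T := fun τ h => ⟨hr.trans_le h.1, h.2.trans_lt ht⟩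
  -- the inner integrals
  have hin : ∀ τ ∈ Icc r t, Tendsto (fun n : ℕ => ∫ q : Vec d × Vec d,
      (f τ q.2 q.1 - g τ q.2 q.1) /
        Real.sqrt ((f τ q.2 q.1 - g τ q.2 q.1) ^ 2 + (1 / ((n : ℝ) + 1)) ^ 2) *
        (Q τ q.2 q.1 - R τ q.2 q.1) * jb q.1 ^ 2 ∂(nu d)) atTop (𝓝 (TJ Q R f g τ)) := by
    intro τ hτ
    refine tendsto_integral_of_dominated_convergence (fun q => (C + D) * wt d q.1) ?_
      (tim_wt.const_mul _) ?_ ?_
    · intro n
      exact (tim_cont_S (HS n) (hsub τ hτ)).aestronglyMeasurable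
    · intro n
      refine Eventually.of_forall fun q => ?_
      rw [Real.norm_eq_abs, mul_assoc, abs_mul]
      refine (mul_le_of_le_one_left (abs_nonneg _) (tim_one _ _)).trans ?_
      rw [abs_mul, abs_of_nonneg (sq_nonneg (jb q.1))]
      exact tim_ble (hC τ hτ _ _) (hD τ hτ _ _)
    · refine Eventually.of_forall fun q => ?_
      have h1 := ((tim_sign (f τ q.2 q.1 - g τ q.2 q.1)).mul_const
        (Q τ q.2 q.1 - R τ q.2 q.1)).mul_const (jb q.1 ^ 2)
      have e : Real.sign (f τ q.2 q.1 - g τ q.2 q.1) * (Q τ q.2 q.1 - R τ q.2 q.1) *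
          jb q.1 ^ 2 = (Q τ q.2 q.1 - R τ q.2 q.1) *
          (Real.sign (f τ q.2 q.1 - g τ q.2 q.1) * jb q.1 ^ 2) := by ring
      rw [e] at h1
      exact h1
  have hbd : ∀ n : ℕ, ∀ τ ∈ Icc r t, ‖∫ q : Vec d × Vec d,
      (f τ q.2 q.1 - g τ q.2 q.1) /
        Real.sqrt ((f τ q.2 q.1 - g τ q.2 q.1) ^ 2 + (1 / ((n : ℝ) + 1)) ^ 2) *
        (Q τ q.2 q.1 - R τ q.2 q.1) * jb q.1 ^ 2 ∂(nu d)‖ ≤
      ∫ q : Vec d × Vec d, (C + D) * wt d q.1 ∂(nu d) := by
    intro n τ hτ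
    refine norm_integral_le_of_norm_le (tim_wt.const_mul _) (Eventually.of_forall fun q => ?_)
    rw [Real.norm_eq_abs, mul_assoc, abs_mul]
    refine (mul_le_of_le_one_left (abs_nonneg _) (tim_one _ _)).trans ?_
    rw [abs_mul, abs_of_nonneg (sq_nonneg (jb q.1))]
    exact tim_ble (hC τ hτ _ _) (hD τ hτ _ _)
  have hms : ∀ n : ℕ, AEStronglyMeasurable (fun τ : ℝ => ∫ q : Vec d × Vec d,
      (f τ q.2 q.1 - g τ q.2 q.1) /
        Real.sqrt ((f τ q.2 q.1 - g τ q.2 q.1) ^ 2 + (1 / ((n : ℝ) + 1)) ^ 2) *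
        (Q τ q.2 q.1 - R τ q.2 q.1) * jb q.1 ^ 2 ∂(nu d)) (volume.restrict (Ioc r t)) := by
    intro n
    have h1 := (HS n).contI.mono (fun τ (h : τ ∈ Ioc r t) => hsub τ (Ioc_subset_Icc_self h))
    exact h1.aestronglyMeasurable measurableSet_Ioc
  have huI : uIoc r t = Ioc r t := uIoc_of_le hrt
  have hR : Tendsto (fun n : ℕ => ∫ τ in r..t, ∫ q : Vec d × Vec d,
      (f τ q.2 q.1 - g τ q.2 q.1) /
        Real.sqrt ((f τ q.2 q.1 - g τ q.2 q.1) ^ 2 + (1 / ((n : ℝ) + 1)) ^ 2) *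
        (Q τ q.2 q.1 - R τ q.2 q.1) * jb q.1 ^ 2 ∂(nu d)) atTop
      (𝓝 (∫ τ in r..t, TJ Q R f g τ)) := by
    refine intervalIntegral.tendsto_integral_filter_of_dominated_convergence
      (fun _ => ∫ q : Vec d × Vec d, (C + D) * wt d q.1 ∂(nu d)) ?_ ?_ ?_ ?_
    · refine Eventually.of_forall fun n => ?_
      rw [huI]
      exact hms n
    · refine Eventually.of_forall fun n => Eventually.of_forall fun τ hτ => ?_
      rw [huI] at hτ
      exact hbd n τ (Ioc_subset_Icc_self hτ)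
    · exact intervalIntegrable_const
    · refine Eventually.of_forall fun τ hτ => ?_
      rw [huI] at hτ
      exact hin τ (Ioc_subset_Icc_self hτ)
  have hL : ∀ τ ∈ Icc 0 t, Tendsto (fun n : ℕ => ∫ q : Vec d × Vec d,
      (Real.sqrt ((f τ q.2 q.1 - g τ q.2 q.1) ^ 2 + (1 / ((n : ℝ) + 1)) ^ 2) -
        1 / ((n : ℝ) + 1)) * jb q.1 ^ 2 ∂(nu d)) atTop (𝓝 (NT f g τ)) := by
    intro τ hτ
    refine tendsto_integral_of_dominated_convergence (fun q => (C' + D') * wt d q.1) ?_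
      (tim_wt.const_mul _) ?_ ?_
    · intro n
      exact (tim_cont_h (HS n) ⟨hτ.1, hτ.2.trans_lt ht⟩).aestronglyMeasurable
    · intro n
      refine Eventually.of_forall fun q => ?_
      rw [Real.norm_eq_abs, abs_mul, abs_of_nonneg (sq_nonneg (jb q.1))]
      refine (mul_le_mul_of_nonneg_right (tim_sq (hδ n)) (sq_nonneg _)).trans ?_
      exact tim_ble (hC' τ hτ _ _) (hD' τ hτ _ _)
    · exact Eventually.of_forall fun q => (tim_lim _).mul_const _
  refine ⟨?_, ?_⟩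
  · refine tendsto_nhds_unique ((hL t ⟨hr.le.trans hrt, le_rfl⟩).sub (hL r ⟨hr.le, hrt⟩)) ?_
    refine hR.congr fun n => ?_
    exact ((HS n).ftc hr hrt ht).symm
  · rw [intervalIntegrable_iff, huI]
    have hm : AEStronglyMeasurable (TJ Q R f g) (volume.restrict (Ioc r t)) := by
      refine aestronglyMeasurable_of_tendsto_ae atTop hms ?_
      refine (ae_restrict_mem measurableSet_Ioc).mono fun τ hτ => ?_
      exact hin τ (Ioc_subset_Icc_self hτ)
    refine Integrable.mono' (g := fun _ => ∫ q : Vec d × Vec d, (C + D) * wt d q.1 ∂(nu d))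
      (integrableOn_const (by simp)) hm ?_
    refine (ae_restrict_mem measurableSet_Ioc).mono fun τ hτ => ?_
    exact le_of_tendsto (hin τ (Ioc_subset_Icc_self hτ)).norm
      (Eventually.of_forall fun n => hbd n τ (Ioc_subset_Icc_self hτ))

theorem tim_le (hf : IsClassicalSol T Q f) (hg : IsClassicalSol T R g) {K r t : ℝ} (hr : 0 < r)
    (hrt : r ≤ t) (ht : t < T)
    (h : ∀ τ ∈ Ioc 0 t, ∀ x, ∫ v, (Q τ x v - R τ x v) * sj (fun u => f τ x u - g τ x u) v ≤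
      K * N2 fun u => f τ x u - g τ x u) :
    NT f g t ≤ NT f g r + K * ∫ τ in r..t, NT f g τ := by
  obtain ⟨e, hi⟩ := tim_eq hf hg hr hrt ht
  have Hf := tim_c hf
  have Hg := tim_c hg
  obtain ⟨C, hC⟩ := Hf.decS r hr t ht
  obtain ⟨D, hD⟩ := Hg.decS r hr t ht
  obtain ⟨C', hC'⟩ := Hf.dec t ht
  obtain ⟨D', hD'⟩ := Hg.dec t ht
  have hsub : ∀ τ ∈ Icc r t, τ ∈ Ioo 0 T := fun τ h => ⟨hr.trans_le h.1, h.2.trans_lt ht⟩
  have hcn : ContinuousOn (NT f g) (uIcc r t) := by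
    rw [uIcc_of_le hrt]
    exact (NT_cont hf hg).mono fun τ hτ => ⟨(hsub τ hτ).1.le, (hsub τ hτ).2⟩
  have hj : ∀ τ ∈ Icc r t, TJ Q R f g τ ≤ K * NT f g τ := by
    intro τ hτ
    have hτ0 := hsub τ hτ
    have hτ1 : τ ∈ Ico 0 T := ⟨hτ0.1.le, hτ0.2⟩
    have hτ2 : τ ∈ Icc 0 t := ⟨hτ0.1.le, hτ.2⟩
    have c1 : Continuous fun q : Vec d × Vec d => f τ q.2 q.1 * jb q.1 ^ 2 - g τ q.2 q.1 * jb q.1 ^ 2 :=
      (tim_cont_h Hf hτ1).sub (tim_cont_h Hg hτ1)
    have c2 : Continuous fun q : Vec d × Vec d => Q τ q.2 q.1 * jb q.1 ^ 2 - R τ q.2 q.1 * jb q.1 ^ 2 :=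
      (tim_cont_S Hf hτ0).sub (tim_cont_S Hg hτ0)
    have iN : Integrable (fun q : Vec d × Vec d => |f τ q.2 q.1 - g τ q.2 q.1| * jb q.1 ^ 2)
        (nu d) := by
      refine integrable_nu (C := C' + D') ?_ fun q => ?_
      · simp_rw [tim_abs]
        exact c1.abs.aestronglyMeasurable
      · rw [abs_of_nonneg (by positivity)]
        exact tim_ble (hC' τ hτ2 _ _) (hD' τ hτ2 _ _)
    have iJ : Integrable (fun q : Vec d × Vec d => (Q τ q.2 q.1 - R τ q.2 q.1) *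
        (Real.sign (f τ q.2 q.1 - g τ q.2 q.1) * jb q.1 ^ 2)) (nu d) := by
      refine integrable_nu (C := C + D) ?_ fun q => ?_
      · have hs : ∀ q : Vec d × Vec d, (Q τ q.2 q.1 - R τ q.2 q.1) *
            (Real.sign (f τ q.2 q.1 - g τ q.2 q.1) * jb q.1 ^ 2) =
            (Q τ q.2 q.1 * jb q.1 ^ 2 - R τ q.2 q.1 * jb q.1 ^ 2) *
              Real.sign (f τ q.2 q.1 * jb q.1 ^ 2 - g τ q.2 q.1 * jb q.1 ^ 2) := by
          intro q
          rw [← sub_mul, ← sub_mul, tim_sgn _ (pow_pos (jb_pos q.1) 2)]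
          ring
        simp_rw [hs]
        exact c2.aestronglyMeasurable.mul
          (tim_sm.comp_aemeasurable c1.aemeasurable).aestronglyMeasurable
      · rw [abs_mul, abs_mul, abs_of_nonneg (sq_nonneg (jb q.1))]
        have h1 : |Real.sign (f τ q.2 q.1 - g τ q.2 q.1)| ≤ 1 := by
          rcases Real.sign_apply_eq (f τ q.2 q.1 - g τ q.2 q.1) with h2 | h2 | h2 <;> rw [h2] <;>
            norm_num
        calc |Q τ q.2 q.1 - R τ q.2 q.1| *
              (|Real.sign (f τ q.2 q.1 - g τ q.2 q.1)| * jb q.1 ^ 2)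
            ≤ |Q τ q.2 q.1 - R τ q.2 q.1| * (1 * jb q.1 ^ 2) := by gcongr
          _ ≤ (C + D) * wt d q.1 := by
            rw [one_mul]
            exact tim_ble (hC τ hτ _ _) (hD τ hτ _ _)
    unfold TJ NT
    rw [Pool.Agent.H15.AV.nu_integral iJ, Pool.Agent.H15.AV.nu_integral iN, ← integral_const_mul]
    refine integral_mono ?_ ?_ ?_
    · have h1 := iJ
      unfold nu at h1
      exact h1.integral_prod_right
    · have h1 := iN
      unfold nu at h1
      exact h1.integral_prod_right.const_mul K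
    · intro x
      exact h τ ⟨hτ0.1, hτ.2⟩ x
  have h2 : (∫ τ in r..t, TJ Q R f g τ) ≤ ∫ τ in r..t, K * NT f g τ :=
    intervalIntegral.integral_mono_on hrt hi (hcn.intervalIntegrable.const_mul K) hj
  rw [intervalIntegral.integral_const_mul] at h2
  linarith

theorem NT_zero (hf : IsClassicalSol T Q f) (hg : IsClassicalSol T R g) {K T₁ : ℝ} (hK : 0 ≤ K)
    (h0 : 0 ≤ T₁) (h1 : T₁ < T) (he : ∀ x v, f 0 x v = g 0 x v)
    (h : ∀ r t : ℝ, 0 < r → r ≤ t → t ≤ T₁ → NT f g t ≤ NT f g r + K * ∫ τ in r..t, NT f g τ) :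
    ∀ t ∈ Icc 0 T₁, NT f g t = 0 := by
  have hc : ContinuousOn (NT f g) (Icc 0 T₁) :=
    (NT_cont hf hg).mono fun τ hτ => ⟨hτ.1, hτ.2.trans_lt h1⟩
  have hnn : ∀ t, 0 ≤ NT f g t := fun t => integral_nonneg fun q => by positivity
  have hz : NT f g 0 = 0 := by
    unfold NT
    simp [he]
  have hint : ∀ a ∈ Icc 0 T₁, ∀ b ∈ Icc 0 T₁, IntervalIntegrable (NT f g) volume a b := by
    intro a ha b hb
    refine (hc.mono ?_).intervalIntegrable
    exact (convex_Icc 0 T₁).ordConnected.uIcc_subset ha hb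
  -- the limit `r → 0`
  have key : ∀ t ∈ Icc 0 T₁, NT f g t ≤ K * ∫ τ in (0 : ℝ)..t, NT f g τ := by
    intro t ht
    rcases eq_or_lt_of_le ht.1 with h2 | h2
    · rw [← h2, hz]
      simp
    have hU : ContinuousOn (fun r => ∫ τ in r..t, NT f g τ) (Icc 0 t) := by
      have h3 := intervalIntegral.continuousOn_primitive_interval_left
        (μ := volume) (f := NT f g) (a := 0) (b := t)
        (by
          rw [uIcc_of_le h2.le]
          exact (hc.mono (Icc_subset_Icc_right ht.2)).integrableOn_Icc)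
      rwa [uIcc_of_le h2.le] at h3
    have hR : ContinuousOn (fun r => NT f g r + K * ∫ τ in r..t, NT f g τ) (Icc 0 t) :=
      (hc.mono (Icc_subset_Icc_right ht.2)).add (continuousOn_const.mul hU)
    have h4 : Tendsto (fun r => NT f g r + K * ∫ τ in r..t, NT f g τ) (𝓝[Ioc 0 t] 0)
        (𝓝 (NT f g 0 + K * ∫ τ in (0 : ℝ)..t, NT f g τ)) :=
      (hR 0 ⟨le_rfl, h2.le⟩).mono_left (nhdsWithin_mono _ Ioc_subset_Icc_self)
    have : (𝓝[Ioc 0 t] (0 : ℝ)).NeBot := by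
      rw [nhdsWithin_Ioc_eq_nhdsGT h2]
      infer_instance
    have h5 := ge_of_tendsto (b := NT f g t) h4 (by
      filter_upwards [self_mem_nhdsWithin] with r hr
      exact h r t hr.1 hr.2 ht.2)
    rw [hz, zero_add] at h5
    exact h5
  -- Gronwall
  have hG : ∀ t ∈ Icc 0 T₁, ‖∫ τ in (0 : ℝ)..t, NT f g τ‖ ≤ gronwallBound 0 K 0 (t - 0) := by
    refine norm_le_gronwallBound_of_norm_deriv_right_le
      (f := fun t => ∫ τ in (0 : ℝ)..t, NT f g τ) (f' := NT f g) ?_ ?_ ?_ ?_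
    · have h3 := intervalIntegral.continuousOn_primitive_interval
        (μ := volume) (f := NT f g) (a := 0) (b := T₁)
        (by
          rw [uIcc_of_le h0]
          exact hc.integrableOn_Icc)
      rwa [uIcc_of_le h0] at h3
    · intro x hx
      have hx' : x ∈ Icc 0 T₁ := ⟨hx.1, hx.2.le⟩
      refine intervalIntegral.integral_hasDerivWithinAt_right
        (hint 0 ⟨le_rfl, h0⟩ x hx') ?_ ?_
      · have hm := hc.stronglyMeasurableAtFilter_nhdsWithin (μ := volume) measurableSet_Icc x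
        refine hm.filter_mono ?_
        refine le_trans ?_ (le_refl _)
        exact nhdsWithin_le_of_mem (mem_of_superset (Ioo_mem_nhdsGT hx.2)
          fun s hs => ⟨hx.1.trans hs.1.le, hs.2.le⟩)
      · refine (hc x hx').mono_of_mem_nhdsWithin ?_
        exact mem_of_superset (Ioo_mem_nhdsGT hx.2) fun s hs => ⟨hx.1.trans hs.1.le, hs.2.le⟩
    · simp
    · intro x hx
      have hx' : x ∈ Icc 0 T₁ := ⟨hx.1, hx.2.le⟩
      have hI : 0 ≤ ∫ τ in (0 : ℝ)..x, NT f g τ :=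
        intervalIntegral.integral_nonneg hx.1 fun u _ => hnn u
      rw [Real.norm_of_nonneg (hnn x), Real.norm_of_nonneg hI, add_zero]
      exact key x hx'
  intro t ht
  have h2 := hG t ht
  rw [gronwallBound_ε0_δ0] at h2
  have h3 : ∫ τ in (0 : ℝ)..t, NT f g τ = 0 := norm_le_zero_iff.1 h2
  have h4 := key t ht
  rw [h3, mul_zero] at h4
  exact le_antisymm h4 (hnn t)

end Pool.Agent.H48.PD
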