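import Pool.Agent.H48.PD.Fib
import Pool.Agent.H48.PD.Tim

/-!
# Module Uni: weak-strong uniqueness

`T₁ < T`. Bounds on `(0,T₁]`: `Cl N` = maximum of the constants of `hf.decay T₁`, `hg.decay T₁` and of `RegZero` (choice), so `FB Cl (f t x)`, `FB Cl (g t x)`, `LB Cl (g t x)` for `t ∈ (0,T₁]` (`IsClassicalSol.nice`). `fib_bound`, `tim_le`, `NT_zero`.
From `NT f g t = 0`: `|f - g| jb² = 0` a.e. for `ν`, continuous, so `f t x v = g t x v` for all `v` and all `x ∈ Icc 0 1` (interior points first, then closure), hence for all `x` by periodicity (`Per` lemmas in H25/Kin/Per.lean: for a continuous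
periodic function, zero on the unit cube implies zero).
-/

set_option autoImplicit false

open MeasureTheory Set Filter Topology Pool.Agent.H25.Kin Pool.Agent.H48.PL

namespace Pool.Agent.H48.PD

variable {d : ℕ} {γ s C Ca : ℝ} {b : ℝ → ℝ}

private theorem uni_slice {T : ℝ} {Q f : ℝ → Vec d → Vec d → ℝ} (hf : IsClassicalSol T Q f)
    {t : ℝ} (ht : t ∈ Ico 0 T) : Continuous fun q : Vec d × Vec d => f t q.2 q.1 := by
  have h1 : Continuous fun q : Vec d × Vec d => ((t, q.2, q.1) : ℝ × Vec d × Vec d) := by fun_prop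
  exact hf.isCont.comp_continuous h1 fun q => ⟨ht, mem_univ _⟩

private theorem uni_bound {T : ℝ} {Q f : ℝ → Vec d → Vec d → ℝ} (hf : IsClassicalSol T Q f)
    {t : ℝ} (ht : t ∈ Ico 0 T) :
    ∃ C : ℝ, ∀ q : Vec d × Vec d, |f t q.2 q.1| * jb q.1 ^ 2 ≤ C * wt d q.1 := by
  obtain ⟨C, hC⟩ := hf.decay t ht.2 (d + 3)
  refine ⟨((d : ℝ) + 1) ^ 2 * |C|, fun q => ?_⟩
  have h0 := hf.nonneg t ht q.2 q.1
  have h1 := (hC t ⟨ht.1, le_refl _⟩ q.2 q.1).trans (le_abs_self C)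
  have hw : 0 < 1 + ‖q.1‖ := by positivity
  have hj : jb q.1 ^ 2 ≤ (((d : ℝ) + 1) * (1 + ‖q.1‖)) ^ 2 :=
    pow_le_pow_left₀ (jb_pos _).le (jb_le_w _) 2
  rw [abs_of_nonneg h0, wt, ← div_eq_mul_inv, le_div_iff₀ (by positivity)]
  calc f t q.2 q.1 * jb q.1 ^ 2 * (1 + ‖q.1‖) ^ (d + 1)
      ≤ f t q.2 q.1 * (((d : ℝ) + 1) * (1 + ‖q.1‖)) ^ 2 * (1 + ‖q.1‖) ^ (d + 1) := by gcongr
    _ = ((d : ℝ) + 1) ^ 2 * ((1 + ‖q.1‖) ^ (d + 3) * f t q.2 q.1) := by ring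
    _ ≤ ((d : ℝ) + 1) ^ 2 * |C| := by gcongr

theorem eq_of_NT {T : ℝ} {Q R f g : ℝ → Vec d → Vec d → ℝ} (hf : IsClassicalSol T Q f)
    (hg : IsClassicalSol T R g) {t : ℝ} (ht : t ∈ Ico 0 T) (h : NT f g t = 0) :
    ∀ x v, f t x v = g t x v := by
  have hGc : Continuous fun q : Vec d × Vec d => |f t q.2 q.1 - g t q.2 q.1| * jb q.1 ^ 2 :=
    ((uni_slice hf ht).sub (uni_slice hg ht)).abs.mul ((jb_cont.comp continuous_fst).pow 2)
  have hG0 : ∀ q : Vec d × Vec d, 0 ≤ |f t q.2 q.1 - g t q.2 q.1| * jb q.1 ^ 2 := fun q =>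
    mul_nonneg (abs_nonneg _) (sq_nonneg _)
  have hGi : Integrable (fun q : Vec d × Vec d => |f t q.2 q.1 - g t q.2 q.1| * jb q.1 ^ 2)
      (nu d) := by
    obtain ⟨C1, hC1⟩ := uni_bound hf ht
    obtain ⟨C2, hC2⟩ := uni_bound hg ht
    refine integrable_nu (C := C1 + C2) hGc.aestronglyMeasurable fun q => ?_
    rw [abs_of_nonneg (hG0 q)]
    calc |f t q.2 q.1 - g t q.2 q.1| * jb q.1 ^ 2
        ≤ (|f t q.2 q.1| + |g t q.2 q.1|) * jb q.1 ^ 2 :=
          mul_le_mul_of_nonneg_right (abs_sub _ _) (sq_nonneg _)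
      _ = |f t q.2 q.1| * jb q.1 ^ 2 + |g t q.2 q.1| * jb q.1 ^ 2 := by ring
      _ ≤ C1 * wt d q.1 + C2 * wt d q.1 := add_le_add (hC1 q) (hC2 q)
      _ = (C1 + C2) * wt d q.1 := by ring
  have hG1 := (integral_eq_zero_iff_of_nonneg (μ := nu d) hG0 hGi).1 h
  have hnu : nu d = (volume : Measure (Vec d × Vec d)).restrict (univ ×ˢ Icc (0 : Vec d) 1) := by
    have h2 := Measure.prod_restrict (μ := (volume : Measure (Vec d)))
      (ν := (volume : Measure (Vec d))) univ (Icc (0 : Vec d) 1)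
    rw [Measure.restrict_univ] at h2
    exact h2
  have hUo : IsOpen ((univ : Set (Vec d)) ×ˢ (univ.pi fun _ : Fin d => Ioo (0 : ℝ) 1)) :=
    isOpen_univ.prod (isOpen_set_pi finite_univ fun _ _ => isOpen_Ioo)
  rw [hnu] at hG1
  have hG2 : (fun q : Vec d × Vec d => |f t q.2 q.1 - g t q.2 q.1| * jb q.1 ^ 2)
      =ᵐ[(volume : Measure (Vec d × Vec d)).restrict
        ((univ : Set (Vec d)) ×ˢ (univ.pi fun _ : Fin d => Ioo (0 : ℝ) 1))] 0 := by
    refine ae_mono (Measure.restrict_mono ?_ le_rfl) hG1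
    exact prod_mono le_rfl fun x hx =>
      ⟨fun i => (hx i (mem_univ i)).1.le, fun i => (hx i (mem_univ i)).2.le⟩
  have hE := Measure.eqOn_open_of_ae_eq hG2 hUo hGc.continuousOn continuousOn_const
  have hE2 := hE.closure hGc continuous_const
  have key : ∀ x v, (∀ i, x i ∈ Icc (0 : ℝ) 1) → f t x v = g t x v := by
    intro x v hx
    have hcl : ((v, x) : Vec d × Vec d) ∈
        closure ((univ : Set (Vec d)) ×ˢ (univ.pi fun _ : Fin d => Ioo (0 : ℝ) 1)) := by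
      rw [closure_prod_eq, closure_univ, closure_pi_set]
      refine ⟨mem_univ _, fun i _ => ?_⟩
      rw [closure_Ioo (by norm_num : (0 : ℝ) ≠ 1)]
      exact hx i
    have h2 : |f t x v - g t x v| * jb v ^ 2 = 0 := hE2 hcl
    have h3 : jb v ^ 2 ≠ 0 := (pow_pos (jb_pos v) 2).ne'
    exact sub_eq_zero.1 (abs_eq_zero.1 ((mul_eq_zero.1 h2).resolve_right h3))
  intro x v
  have p1 : Per fun y => f t y v := fun y i => hf.periodic t ht y v i
  have p2 : Per fun y => g t y v := fun y i => hg.periodic t ht y v i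
  have h1 : (ZSpan.floor (Pi.basisFun ℝ (Fin d)) x : Vec d) ∈
      Submodule.span ℤ (Set.range (Pi.basisFun ℝ (Fin d))) :=
    (ZSpan.floor (Pi.basisFun ℝ (Fin d)) x).2
  have h2 := ZSpan.fract_mem_fundamentalDomain (Pi.basisFun ℝ (Fin d)) x
  rw [ZSpan.fundamentalDomain_pi_basisFun] at h2
  have h3 : (ZSpan.floor (Pi.basisFun ℝ (Fin d)) x : Vec d) +
      ZSpan.fract (Pi.basisFun ℝ (Fin d)) x = x := by
    rw [ZSpan.fract_apply]
    abel
  rw [← h3]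
  have e1 := p1.span h1 (ZSpan.fract (Pi.basisFun ℝ (Fin d)) x)
  have e2 := p2.span h1 (ZSpan.fract (Pi.basisFun ℝ (Fin d)) x)
  exact e1.trans ((key _ v fun i => ⟨(h2 i (mem_univ i)).1, (h2 i (mem_univ i)).2.le⟩).trans
    e2.symm)

theorem uniq (H : Hyp d γ s b C Ca) (h0 : 0 ≤ γ) (hs : 2 * s < 1) {T : ℝ} {f g : ℝ → Vec d → Vec d → ℝ}
    (hf : IsBoltzmannSol γ b T f) (hg : IsBoltzmannSol γ b T g) (hr : RegZero T g)
    (he : ∀ x v, f 0 x v = g 0 x v) : ∀ t ∈ Ico 0 T, ∀ x v, f t x v = g t x v := by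
  intro t ht
  have hf' : IsClassicalSol T (fun t x => boltzQ γ b (f t x)) f := hf
  have hg' : IsClassicalSol T (fun t x => boltzQ γ b (g t x)) g := hg
  choose C1 hC1 using hf'.decay t ht.2
  choose C2 hC2 using hg'.decay t ht.2
  choose C3 hC3 using hr t ht.2
  obtain ⟨K, hK, hfib⟩ := fib_bound H h0 hs fun N => max (max (C1 N) (C2 N)) (C3 N)
  have key : ∀ τ ∈ Ioc 0 t, ∀ x,
      ∫ v, (boltzQ γ b (f τ x) v - boltzQ γ b (g τ x) v) * sj (fun u => f τ x u - g τ x u) v ≤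
        K * N2 fun u => f τ x u - g τ x u := by
    intro τ hτ x
    have hτ0 : τ ∈ Ioo 0 T := ⟨hτ.1, hτ.2.trans_lt ht.2⟩
    have hτ1 : τ ∈ Icc 0 t := ⟨hτ.1.le, hτ.2⟩
    refine hfib _ _ ⟨IsClassicalSol.nice hf' hτ0 x,
      fun v => hf'.nonneg τ ⟨hτ.1.le, hτ0.2⟩ x v,
      fun N v => (hC1 N τ hτ1 x v).trans (le_trans (le_max_left _ _) (le_max_left _ _))⟩
      ⟨IsClassicalSol.nice hg' hτ0 x,
      fun v => hg'.nonneg τ ⟨hτ.1.le, hτ0.2⟩ x v,
      fun N v => (hC2 N τ hτ1 x v).trans (le_trans (le_max_right _ _) (le_max_left _ _))⟩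
      fun N v => (hC3 N τ hτ x v).trans (le_max_right _ _)
  exact eq_of_NT hf' hg' ht (NT_zero hf' hg' hK ht.1 ht.2 he
    (fun r t' hr' hrt htt => tim_le hf' hg' hr' hrt (htt.trans_lt ht.2)
      fun τ hτ x => key τ ⟨hτ.1, hτ.2.trans htt⟩ x) t ⟨ht.1, le_refl _⟩)

end Pool.Agent.H48.PD
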