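import Pool.Agent.H48.PD.Itg

/-!
# Module WkD: weak form of the difference of two collision operators, cut-off level

`weak_cut` (BWeak) for `f` and for `g`: `∫ boltzCut f φ = (1/2) ∫ kerB f(w) f(v) (φ(v') + φ(w') - φ(v) - φ(w))`. By `exch` (`exch_sw` of H87/PE/Sym, or `exch_int`) the terms `φ(w') - φ(w)` and `φ(v') - φ(v)` have the same
integral, so `∫ boltzCut f φ = ∫ kerB f(w) f(v) (φ(v') - φ(v))`. Subtract: `f_w f_v - g_w g_v = f_w (f_v - g_v) + (f_w - g_w) g_v`. All integrals converge (`DB_int`, `DB_mul`, `DB_pair`, `PB_*`); `boltzCut f φ` is integrable: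
see the proofs in BLim/BWeak (`RD` of `boltzCut`), e.g. `boltzCut_RD`-type lemmas; if `∫ (A - B) = ∫ A - ∫ B` needs integrability of `boltzCut γ b ε f v * φ v`: it is the marginal of an integrable function of `(v,w,σ)` (`Integrable.integral_prod_left`).
-/

set_option autoImplicit false

open MeasureTheory Set Filter Topology Pool.Agent.H25.Kin Pool.Agent.H48.PL Pool.Agent.H87.PE

namespace Pool.Agent.H48.PD

variable {d : ℕ} {γ s C Ca : ℝ} {b : ℝ → ℝ}

private lemma base1 (H : Hyp d γ s b C Ca) {ε : ℝ} (hε : 0 < ε) {f : Vec d → ℝ} (hf : RD f)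
    (hfc : Continuous f) {φ : Vec d → ℝ} (hφ : PG φ) (hφm : Measurable φ) :
    Integrable (fun v => boltzCut γ b ε f v * φ v) ∧
    ∫ v, boltzCut γ b ε f v * φ v =
      ∫ p, kx γ b ε f p * (φ (post p.1 p.2.1 p.2.2) - φ p.1) ∂(mu3 d) := by
  have mv : Measurable fun p : Vec d × Vec d × Vec d => p.1 := measurable_fst
  have mpost := (continuous_post (d := d)).measurable
  have i1 : Integrable (fun p => ky γ b ε f p * φ p.1) (mu3 d) :=
    ky_int H hε hf hfc (X := fun p => φ p.1) (hφm.comp mv) (PB_v hφ)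
  have i2 : Integrable (fun p => kx γ b ε f p * φ p.1) (mu3 d) :=
    kx_int H hε hf hfc (X := fun p => φ p.1) (hφm.comp mv) (PB_v hφ)
  have i3 : Integrable (fun p => kx γ b ε f p * φ (post p.1 p.2.1 p.2.2)) (mu3 d) :=
    kx_int H hε hf hfc (X := fun p => φ (post p.1 p.2.1 p.2.2)) (hφm.comp mpost) (PB_post hφ)
  have iX : Integrable (fun p => ky γ b ε f p * φ p.1 - kx γ b ε f p * φ p.1) (mu3 d) := i1.sub i2
  have iY : Integrable (fun p : Vec d × Vec d × Vec d =>
      ky γ b ε f p * φ p.1 - kx γ b ε f p * φ p.1)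
      ((volume : Measure (Vec d)).prod ((volume : Measure (Vec d)).prod (surf d))) := iX
  have key : ∀ᵐ v : Vec d, ∫ y, (ky γ b ε f (v, y) * φ v - kx γ b ε f (v, y) * φ v)
      ∂((volume : Measure (Vec d)).prod (surf d)) = boltzCut γ b ε f v * φ v := by
    filter_upwards [iY.prod_right_ae] with v hv
    rw [integral_prod _ hv]
    unfold boltzCut
    rw [← integral_mul_const]
    refine integral_congr_ae (Eventually.of_forall fun w => ?_)
    simp only
    rw [← integral_mul_const]
    refine integral_congr_ae (Eventually.of_forall fun σ => ?_)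
    simp only [kx, ky]
    ring
  constructor
  · exact iY.integral_prod_left.congr key
  have step1 : ∫ v, boltzCut γ b ε f v * φ v =
      ∫ p, (ky γ b ε f p * φ p.1 - kx γ b ε f p * φ p.1) ∂(mu3 d) := by
    rw [integral_prod _ iX]
    exact integral_congr_ae (key.mono fun v h => h.symm)
  have step2 : ∫ p, ky γ b ε f p * φ p.1 ∂(mu3 d) =
      ∫ p, kx γ b ε f p * φ (post p.1 p.2.1 p.2.2) ∂(mu3 d) := by
    rw [← coll_sw H ε hfc.measurable (F := fun p => φ (post p.1 p.2.1 p.2.2)) (hφm.comp mpost)]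
    refine integral_congr_ae ?_
    filter_upwards [ae_good H.hd1] with p hp
    obtain ⟨v, w, σ⟩ := p
    have hp1 : v ≠ w := hp.1
    have hp2 : nsq σ = 1 := hp.2
    simp only [coll]
    rw [post_post hp1 hp2]
  rw [step1, integral_sub i1 i2, step2, ← integral_sub i3 i2]
  refine integral_congr_ae (Eventually.of_forall fun p => ?_)
  simp only
  ring

theorem cut_diff (H : Hyp d γ s b C Ca) {ε : ℝ} (hε : 0 < ε) {f g : Vec d → ℝ} (hf : RD f)
    (hfc : Continuous f) (hg : RD g) (hgc : Continuous g) {φ : Vec d → ℝ} (hφ : PG φ)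
    (hφm : Measurable φ) :
    ∫ v, (boltzCut γ b ε f v - boltzCut γ b ε g v) * φ v =
      ∫ p, kerB γ b ε p.1 p.2.1 p.2.2 * ((f p.2.1 * (f p.1 - g p.1) + (f p.2.1 - g p.2.1) * g p.1) *
        (φ (post p.1 p.2.1 p.2.2) - φ p.1)) ∂(mu3 d) := by
  obtain ⟨f1, f2⟩ := base1 H hε hf hfc hφ hφm
  obtain ⟨g1, g2⟩ := base1 H hε hg hgc hφ hφm
  have mv : Measurable fun p : Vec d × Vec d × Vec d => p.1 := measurable_fst
  have mpost := (continuous_post (d := d)).measurable
  have mX : Measurable fun p : Vec d × Vec d × Vec d => φ (post p.1 p.2.1 p.2.2) - φ p.1 :=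
    (hφm.comp mpost).sub (hφm.comp mv)
  have pX : PB fun p : Vec d × Vec d × Vec d => φ (post p.1 p.2.1 p.2.2) - φ p.1 :=
    PB_sub (PB_post hφ) (PB_v hφ)
  have j1 : Integrable (fun p => kx γ b ε f p * (φ (post p.1 p.2.1 p.2.2) - φ p.1)) (mu3 d) :=
    kx_int H hε hf hfc mX pX
  have j2 : Integrable (fun p => kx γ b ε g p * (φ (post p.1 p.2.1 p.2.2) - φ p.1)) (mu3 d) :=
    kx_int H hε hg hgc mX pX
  have e : ∫ v, (boltzCut γ b ε f v - boltzCut γ b ε g v) * φ v =
      ∫ v, (boltzCut γ b ε f v * φ v - boltzCut γ b ε g v * φ v) :=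
    integral_congr_ae (Eventually.of_forall fun v => by simp only; ring)
  rw [e, integral_sub f1 g1, f2, g2, ← integral_sub j1 j2]
  refine integral_congr_ae (Eventually.of_forall fun p => ?_)
  simp only [kx]
  ring

end Pool.Agent.H48.PD
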