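import Pool.Agent.H48.PD.Defs

/-!
# Module Zet: elementary properties of `ct`, `Zn`, `sj`

`len (post v w σ - v) = len (v-w) √((1 - cosTh)/2)` for `v ≠ w`, `nsq σ = 1`: `nsq (post - v) = nsq ((1/2)(w - v) + (len/2) σ) = (1/4)(L² - 2 L (v-w)·σ + L²) = L² (1 - cosTh)/2`.
`Zn (coll p) = Zn p`: `cosTh` and `len (v-w)` are invariant (`cos_coll` of H87/PE/Sym; `len_post..` in BGeo); `Zn (exch p) = Zn p`: `cosTh w v (-σ) = cosTh v w σ` (`cosTh_swap`).
`jb2_post`: `jb (post)² + jb (post')² = jb v² + jb w²` (`energy_post`). `jb2_le`: `jb v² ≤ (d+1) (1+‖v‖)²`, `nsq v ≤ d ‖v‖²`.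
-/

set_option autoImplicit false

open MeasureTheory Set Filter Topology Pool.Agent.H25.Kin Pool.Agent.H48.PL Pool.Agent.H87.PE

namespace Pool.Agent.H48.PD

variable {d : ℕ}

lemma ct_nonneg (r : ℝ) : 0 ≤ ct r := le_max_left _ _

lemma ct_le_one (r : ℝ) : ct r ≤ 1 := max_le zero_le_one (min_le_left _ _)

lemma ct_one {r : ℝ} (h : r ≤ 1) : ct r = 1 := by
  unfold ct
  rw [min_eq_left (by linarith), max_eq_right zero_le_one]

lemma ct_zero {r : ℝ} (h : 2 ≤ r) : ct r = 0 := by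
  unfold ct
  exact max_eq_left ((min_le_right _ _).trans (by linarith))

lemma ct_lip (r r' : ℝ) : |ct r - ct r'| ≤ |r - r'| := by
  unfold ct
  have h1 := abs_max_sub_max_le_abs (min 1 (2 - r)) (min 1 (2 - r')) 0
  have h2 := abs_min_sub_min_le_max 1 (2 - r) 1 (2 - r')
  rw [max_comm 0 (min 1 (2 - r)), max_comm 0 (min 1 (2 - r'))]
  refine h1.trans (h2.trans ?_)
  rw [sub_self, abs_zero, max_eq_right (abs_nonneg _)]
  rw [show 2 - r - (2 - r') = -(r - r') by ring, abs_neg]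

lemma ct_cont : Continuous ct := by
  unfold ct
  fun_prop

lemma len_post_sub {v w σ : Vec d} (h : v ≠ w) (hσ : nsq σ = 1) :
    len (post v w σ - v) = len (v - w) * Real.sqrt ((1 - cosTh v w σ) / 2) := by
  unfold len
  rw [nsq_post_sub h hσ, Real.sqrt_mul (sq_nonneg' _)]

lemma Zn_nonneg (p : Vec d × Vec d × Vec d) : 0 ≤ Zn p := by
  unfold Zn
  split_ifs
  · exact ct_nonneg _
  · exact le_rfl

lemma Zn_le_one (p : Vec d × Vec d × Vec d) : Zn p ≤ 1 := by
  unfold Zn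
  split_ifs
  · exact ct_le_one _
  · exact zero_le_one

lemma Zn_meas : Measurable (Zn (d := d)) := by
  have h : (Zn (d := d)) = fun p : Vec d × Vec d × Vec d =>
      if 0 ≤ cosTh p.1 p.2.1 p.2.2 then ct (len (post p.1 p.2.1 p.2.2 - p.1)) else 0 := rfl
  rw [h]
  refine Measurable.ite (measurable_cosTh measurableSet_Ici) ?_ measurable_const
  exact (ct_cont.comp (continuous_len.comp
    ((continuous_post (d := d)).sub continuous_fst))).measurable

lemma Zn_coll {v w σ : Vec d} (h : v ≠ w) (hσ : nsq σ = 1) : Zn (coll (v, w, σ)) = Zn (v, w, σ) := by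
  unfold Zn coll
  simp only
  rw [cosTh_post h hσ, post_post h hσ, len_comm]

lemma Zn_exch {v w σ : Vec d} (h : v ≠ w) (hσ : nsq σ = 1) : Zn (exch (v, w, σ)) = Zn (v, w, σ) := by
  have e : len (post' v w σ - w) = len (post v w σ - v) := by
    unfold len
    rw [nsq_post_sub h hσ, nsq_post'_sub h hσ]
  unfold Zn exch
  simp only
  rw [cosTh_swap, post_swap, e]

/-- where `Zn ≠ 0` -/
lemma Zn_supp {v w σ : Vec d} (h : v ≠ w) (hσ : nsq σ = 1) (hz : Zn (v, w, σ) ≠ 0) :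
    0 ≤ cosTh v w σ ∧ len (post v w σ - v) < 2 ∧ nsq (v - w) * (1 - cosTh v w σ) ≤ 8 := by
  have h1 : 0 ≤ cosTh v w σ := by
    by_contra hc
    exact hz (if_neg hc)
  have hz' : ct (len (post v w σ - v)) ≠ 0 := by
    intro hc
    refine hz ?_
    unfold Zn
    simp only
    rw [if_pos h1, hc]
  have h2 : len (post v w σ - v) < 2 := by
    by_contra hc
    exact hz' (ct_zero (not_lt.1 hc))
  refine ⟨h1, h2, ?_⟩
  have h3 := nsq_post_sub h hσ
  have h4 : nsq (post v w σ - v) ≤ 4 := by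
    rw [← len_sq]
    have h5 := len_nonneg (post v w σ - v)
    nlinarith
  rw [h3] at h4
  linarith

/-- where `Zn ≠ 1` -/
lemma Zn_far {v w σ : Vec d} (h : v ≠ w) (hσ : nsq σ = 1) (hz : Zn (v, w, σ) ≠ 1) :
    min 1 (2 / nsq (v - w)) ≤ 1 - cosTh v w σ := by
  by_cases h1 : 0 ≤ cosTh v w σ
  · have hz' : ct (len (post v w σ - v)) ≠ 1 := by
      intro hc
      refine hz ?_
      unfold Zn
      simp only
      rw [if_pos h1, hc]
    have h2 : 1 < len (post v w σ - v) := by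
      by_contra hc
      exact hz' (ct_one (not_lt.1 hc))
    have h3 := nsq_post_sub h hσ
    have h4 : 1 ≤ nsq (post v w σ - v) := by
      rw [← len_sq]
      nlinarith
    rw [h3] at h4
    have hp : 0 < nsq (v - w) := sq_pos_of_ne (sub_ne_zero.2 h)
    refine (min_le_right _ _).trans ?_
    rw [div_le_iff₀ hp]
    linarith
  · refine (min_le_left _ _).trans ?_
    have := not_le.1 h1
    linarith

lemma jb2_post {v w σ : Vec d} (hσ : nsq σ = 1) :
    jb (post v w σ) ^ 2 + jb (post' v w σ) ^ 2 = jb v ^ 2 + jb w ^ 2 := by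
  have h := energy_post (v := v) (w := w) hσ
  rw [jb_sq, jb_sq, jb_sq, jb_sq]
  linarith

lemma jb2_le (v : Vec d) : jb v ^ 2 ≤ (d + 1) * (1 + ‖v‖) ^ 2 := by
  have h1 := Pool.Agent.H25.Kin.sq_le v
  have h2 := norm_nonneg v
  have h3 : (0 : ℝ) ≤ d := Nat.cast_nonneg d
  rw [jb_sq]
  have h4 : 0 ≤ (d : ℝ) * ‖v‖ := mul_nonneg h3 h2
  nlinarith [mul_nonneg h3 h2, sq_nonneg ‖v‖]

lemma one_add_nsq_sub (v w : Vec d) : 1 + nsq (v - w) ≤ 2 * (jb v ^ 2 * jb w ^ 2) := by
  have h1 := nsq_par v w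
  have h2 := sq_nonneg' (v + w)
  have h3 := sq_nonneg' v
  have h4 := sq_nonneg' w
  rw [jb_sq, jb_sq]
  nlinarith [mul_nonneg h3 h4]

lemma sj_meas {h : Vec d → ℝ} (hm : Measurable h) : Measurable (sj h) := by
  have h1 : Measurable Real.sign := by
    have e : Real.sign = fun r : ℝ => if r < 0 then (-1 : ℝ) else if 0 < r then 1 else 0 := by
      funext r
      rfl
    rw [e]
    exact Measurable.ite measurableSet_Iio measurable_const
      (Measurable.ite measurableSet_Ioi measurable_const measurable_const)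
  have h2 : sj h = fun v => Real.sign (h v) * jb v ^ 2 := rfl
  rw [h2]
  exact (h1.comp hm).mul ((jb_cont (d := d)).measurable.pow_const 2)

private lemma zet_abs (h : Vec d → ℝ) (v : Vec d) : |sj h v| ≤ jb v ^ 2 := by
  unfold sj
  rw [abs_mul, abs_of_nonneg (sq_nonneg (jb v))]
  have h1 : |Real.sign (h v)| ≤ 1 := by
    rcases Real.sign_apply_eq (h v) with hv | hv | hv <;> rw [hv] <;> norm_num
  calc |Real.sign (h v)| * jb v ^ 2 ≤ 1 * jb v ^ 2 :=
        mul_le_mul_of_nonneg_right h1 (sq_nonneg _)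
    _ = jb v ^ 2 := one_mul _

lemma sj_PG (h : Vec d → ℝ) : PG (sj h) := by
  refine ⟨2, d + 1, fun v => ?_⟩
  rw [Real.norm_eq_abs]
  exact (zet_abs h v).trans (jb2_le v)

lemma abs_sj_le (h : Vec d → ℝ) (v : Vec d) : |sj h v| ≤ jb v ^ 2 := by
  exact zet_abs h v

lemma mul_sj_self (h : Vec d → ℝ) (v : Vec d) : h v * sj h v = |h v| * jb v ^ 2 := by
  unfold sj
  rw [← mul_assoc]
  congr 1
  rcases lt_trichotomy (h v) 0 with hv | hv | hv
  · rw [Real.sign_of_neg hv, abs_of_neg hv]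
    ring
  · rw [hv, Real.sign_zero, abs_zero, mul_zero]
  · rw [Real.sign_of_pos hv, abs_of_pos hv, mul_one]

lemma mul_sj_le (h : Vec d → ℝ) (v u : Vec d) : h v * sj h u ≤ |h v| * jb u ^ 2 := by
  refine (le_abs_self _).trans ?_
  rw [abs_mul]
  exact mul_le_mul_of_nonneg_left (zet_abs h u) (abs_nonneg _)

end Pool.Agent.H48.PD
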